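import Pool.Agent.RevC.Count

/-!
# From polynomials in two variables to coefficients
-/

open Set Filter Topology MvPolynomial

namespace RevC

/-- The vector field `(P, Q)` on the plane. -/
noncomputable def field (P Q : MvPolynomial (Fin 2) ℝ) (z : ℝ × ℝ) : ℝ × ℝ :=
  (eval ![z.1, z.2] P, eval ![z.1, z.2] Q)

/-- the exponent `(i, j)` -/
noncomputable def ex (i j : ℕ) : Fin 2 →₀ ℕ := Finsupp.single 0 i + Finsupp.single 1 j

theorem ex_zero (i j : ℕ) : ex i j 0 = i := by simp [ex]
theorem ex_one (i j : ℕ) : ex i j 1 = j := by simp [ex]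

theorem ex_eta (d : Fin 2 →₀ ℕ) : ex (d 0) (d 1) = d := by
  ext k
  fin_cases k
  · exact ex_zero _ _
  · exact ex_one _ _

theorem ex_inj {i j i' j' : ℕ} (h : ex i j = ex i' j') : i = i' ∧ j = j' := by
  constructor
  · have := congrArg (fun d : Fin 2 →₀ ℕ => d 0) h
    simpa [ex_zero] using this
  · have := congrArg (fun d : Fin 2 →₀ ℕ => d 1) h
    simpa [ex_one] using this

theorem eval_expand {P : MvPolynomial (Fin 2) ℝ} (hP : P.totalDegree ≤ 4) (x y : ℝ) :
    eval ![x, y] P = ∑ ij ∈ Finset.range 5 ×ˢ Finset.range 5,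
      P.coeff (ex ij.1 ij.2) * (x ^ ij.1 * y ^ ij.2) := by
  classical
  rw [eval_eq']
  have h1 : P.support ⊆ (Finset.range 5 ×ˢ Finset.range 5).image (fun ij => ex ij.1 ij.2) := by
    intro d hd
    have h2 := (le_totalDegree hd).trans hP
    rw [Finsupp.sum_fintype _ _ (fun _ => rfl), Fin.sum_univ_two] at h2
    rw [Finset.mem_image]
    refine ⟨(d 0, d 1), ?_, ex_eta d⟩
    rw [Finset.mem_product, Finset.mem_range, Finset.mem_range]
    constructor
    · show d 0 < 5
      omega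
    · show d 1 < 5
      omega
  rw [Finset.sum_subset h1 (by
    intro d _ hd
    rw [notMem_support_iff.1 hd, zero_mul])]
  rw [Finset.sum_image (by
    intro a _ b _ hab
    obtain ⟨e1, e2⟩ := ex_inj hab
    exact Prod.ext e1 e2)]
  apply Finset.sum_congr rfl
  intro ij _
  rw [Fin.prod_univ_two, ex_zero, ex_one]
  rfl

theorem coeff_zero_of {P : MvPolynomial (Fin 2) ℝ} (hP : P.totalDegree ≤ 4) {i j : ℕ}
    (h : 4 < i + j) : P.coeff (ex i j) = 0 := by
  by_contra hne
  have h2 := (le_totalDegree (mem_support_iff.2 hne)).trans hP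
  rw [Finsupp.sum_fintype _ _ (fun _ => rfl), Fin.sum_univ_two, ex_zero, ex_one] at h2
  omega

/-- The coefficients of a reversible field. -/
noncomputable def quart (P Q : MvPolynomial (Fin 2) ℝ) : Quart where
  a0 := P.coeff (ex 0 1)
  a1 := P.coeff (ex 1 1)
  a2 := P.coeff (ex 2 1)
  a3 := P.coeff (ex 3 1)
  b0 := P.coeff (ex 0 3)
  b1 := P.coeff (ex 1 3)
  c0 := Q.coeff (ex 0 0)
  c1 := Q.coeff (ex 1 0)
  c2 := Q.coeff (ex 2 0)
  c3 := Q.coeff (ex 3 0)
  c4 := Q.coeff (ex 4 0)
  d0 := Q.coeff (ex 0 2)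
  d1 := Q.coeff (ex 1 2)
  d2 := Q.coeff (ex 2 2)
  e := Q.coeff (ex 0 4)

theorem field_eq {P Q : MvPolynomial (Fin 2) ℝ} (hP : P.totalDegree ≤ 4)
    (hQ : Q.totalDegree ≤ 4)
    (hrev : ∀ x y : ℝ, field P Q (x, -y) = (-(field P Q (x, y)).1, (field P Q (x, y)).2))
    (z : ℝ × ℝ) : field P Q z = (quart P Q).fld z := by
  obtain ⟨x, y⟩ := z
  have h1 : eval ![x, -y] P = -eval ![x, y] P := congrArg Prod.fst (hrev x y)
  have h2 : eval ![x, -y] Q = eval ![x, y] Q := congrArg Prod.snd (hrev x y)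
  have e1 : eval ![x, y] P = (eval ![x, y] P - eval ![x, -y] P) / 2 := by rw [h1]; ring
  have e2 : eval ![x, y] Q = (eval ![x, y] Q + eval ![x, -y] Q) / 2 := by rw [h2]; ring
  refine Prod.ext ?_ ?_
  · show eval ![x, y] P = _
    rw [e1, eval_expand hP, eval_expand hP]
    simp only [Finset.sum_product, Finset.sum_range_succ, Finset.sum_range_zero]
    rw [coeff_zero_of hP (i := 4) (j := 1) (by norm_num),
      coeff_zero_of hP (i := 2) (j := 3) (by norm_num),
      coeff_zero_of hP (i := 3) (j := 3) (by norm_num),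
      coeff_zero_of hP (i := 4) (j := 3) (by norm_num)]
    unfold Quart.fld Quart.a Quart.l quart
    simp only
    ring
  · show eval ![x, y] Q = _
    rw [e2, eval_expand hQ, eval_expand hQ]
    simp only [Finset.sum_product, Finset.sum_range_succ, Finset.sum_range_zero]
    rw [coeff_zero_of hQ (i := 3) (j := 2) (by norm_num),
      coeff_zero_of hQ (i := 4) (j := 2) (by norm_num),
      coeff_zero_of hQ (i := 1) (j := 4) (by norm_num),
      coeff_zero_of hQ (i := 2) (j := 4) (by norm_num),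
      coeff_zero_of hQ (i := 3) (j := 4) (by norm_num),
      coeff_zero_of hQ (i := 4) (j := 4) (by norm_num)]
    unfold Quart.fld Quart.c Quart.d quart
    simp only
    ring

/-- first component -/
noncomputable def polyP (K : Quart) : MvPolynomial (Fin 2) ℝ :=
  X 1 * (C K.a0 + C K.a1 * X 0 + C K.a2 * X 0 ^ 2 + C K.a3 * X 0 ^ 3) +
    X 1 ^ 3 * (C K.b0 + C K.b1 * X 0)

/-- second component -/
noncomputable def polyQ (K : Quart) : MvPolynomial (Fin 2) ℝ :=
  C K.c0 + C K.c1 * X 0 + C K.c2 * X 0 ^ 2 + C K.c3 * X 0 ^ 3 + C K.c4 * X 0 ^ 4 +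
    X 1 ^ 2 * (C K.d0 + C K.d1 * X 0 + C K.d2 * X 0 ^ 2) + C K.e * X 1 ^ 4

theorem polyP_eq {P Q : MvPolynomial (Fin 2) ℝ} (h : ∀ z, field P Q z = (quart P Q).fld z) :
    P = polyP (quart P Q) := by
  apply MvPolynomial.funext
  intro v
  have hv : v = ![v 0, v 1] := by
    ext k
    fin_cases k <;> rfl
  have h1 : eval ![v 0, v 1] P = ((quart P Q).fld (v 0, v 1)).1 :=
    congrArg Prod.fst (h (v 0, v 1))
  rw [← hv] at h1
  rw [h1]
  unfold polyP Quart.fld Quart.a Quart.l
  simp only [map_add, map_mul, map_pow, eval_X, eval_C]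
  ring

theorem polyQ_eq {P Q : MvPolynomial (Fin 2) ℝ} (h : ∀ z, field P Q z = (quart P Q).fld z) :
    Q = polyQ (quart P Q) := by
  apply MvPolynomial.funext
  intro v
  have hv : v = ![v 0, v 1] := by
    ext k
    fin_cases k <;> rfl
  have h1 : eval ![v 0, v 1] Q = ((quart P Q).fld (v 0, v 1)).2 :=
    congrArg Prod.snd (h (v 0, v 1))
  rw [← hv] at h1
  rw [h1]
  unfold polyQ Quart.fld Quart.c Quart.d
  simp only [map_add, map_mul, map_pow, eval_X, eval_C]
  ring

theorem div_eq (K : Quart) (v : Fin 2 → ℝ) :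
    eval v (pderiv 0 (polyP K) + pderiv 1 (polyQ K)) =
      v 1 * (K.a' (v 0) + 2 * K.d (v 0) + K.ν * v 1 ^ 2) := by
  unfold polyP polyQ Quart.a' Quart.d Quart.ν
  have h01 : pderiv (0 : Fin 2) (X 1 : MvPolynomial (Fin 2) ℝ) = 0 :=
    pderiv_X_of_ne (by decide)
  have h10 : pderiv (1 : Fin 2) (X 0 : MvPolynomial (Fin 2) ℝ) = 0 :=
    pderiv_X_of_ne (by decide)
  simp only [map_add, Derivation.leibniz, Derivation.leibniz_pow, pderiv_X_self, pderiv_C, h01,
    h10, smul_eq_mul, map_mul, map_pow, eval_X, eval_C, nsmul_eq_mul, map_natCast, map_zero,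
    map_one]
  push_cast
  ring

/-- **Time-reversible planar quartic fields have at most eight centres**: let `X = (P, Q)` be a
polynomial vector field of degree at most `4` on the plane, invariant under
`(x, y, t) ↦ (x, -y, -t)`, with finitely many equilibria and with divergence not identically
zero. Then `X` has at most `8` centres. -/
theorem reversible_quartic (P Q : MvPolynomial (Fin 2) ℝ) (hP : P.totalDegree ≤ 4)
    (hQ : Q.totalDegree ≤ 4)
    (hrev : ∀ x y : ℝ, field P Q (x, -y) = (-(field P Q (x, y)).1, (field P Q (x, y)).2))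
    (hfin : {z : ℝ × ℝ | field P Q z = 0}.Finite)
    (hdiv : pderiv 0 P + pderiv 1 Q ≠ 0) :
    {z : ℝ × ℝ | IsCenter (field P Q) z}.ncard ≤ 8 := by
  have h := field_eq hP hQ hrev
  have hf : field P Q = (quart P Q).fld := funext h
  rw [hf] at hfin ⊢
  apply Quart.main _ hfin
  by_contra hcon
  push Not at hcon
  obtain ⟨h1, h2⟩ := hcon
  apply hdiv
  have hP' := polyP_eq h
  have hQ' := polyQ_eq h
  generalize quart P Q = K at h1 h2 hP' hQ'
  subst hP' hQ'
  apply MvPolynomial.funext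
  intro v
  rw [div_eq, h2, h1, map_zero]
  ring

end RevC
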