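import Pool.Agent.RevC.Quart

/-!
# Three centres off the axis: the algebraic contradiction
-/

open Set Filter Topology

namespace RevC

theorem alg_contra {c κ b0 b1 m n x1 x2 x3 : ℝ} (hc : 0 < c) (h12 : x1 < x2) (h23 : x2 < x3)
    {L : ℝ → ℝ} (hL : ∀ x, L x = c * ((x - x2) * (x - x3) + (x - x1) * (x - x3) +
      (x - x1) * (x - x2)) + (b0 + b1 * x) * (m * x + n))
    (e1 : 6 * c + 2 * b1 * m = κ * m)
    (e0 : -2 * c * (x1 + x2 + x3) + b0 * m + b1 * n = κ * n)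
    (h1 : L x1 ≤ 0) (h2 : 0 ≤ L x2) (h3 : L x3 ≤ 0) : κ = 0 ∧ ∀ x, L x = 0 := by
  have hL' : ∀ x, L x = L 0 + κ * n * x + κ * m / 2 * x ^ 2 := by
    intro x
    rw [hL x, hL 0]
    linear_combination x * e0 + x ^ 2 / 2 * e1
  have hlin : ∀ x y, L x - L y = (x - y) * (κ * n + κ * m / 2 * (x + y)) := by
    intro x y
    rw [hL' x, hL' y]
    ring
  by_cases hκ : κ = 0
  · refine ⟨hκ, ?_⟩
    have h4 : ∀ x, L x = L 0 := by
      intro x
      rw [hL' x, hκ]; ring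
    intro x
    rw [h4 x1] at h1
    rw [h4 x2] at h2
    rw [h4 x]
    linarith
  · exfalso
    have hconv : L x2 * (x3 - x1) = L x1 * (x3 - x2) + L x3 * (x2 - x1) -
        κ * m / 2 * ((x2 - x1) * (x3 - x2) * (x3 - x1)) := by
      rw [hL' x1, hL' x2, hL' x3]
      ring
    have hA : 0 < x2 - x1 := by linarith
    have hB : 0 < x3 - x2 := by linarith
    have hC : 0 < x3 - x1 := by linarith
    have hABC : 0 < (x2 - x1) * (x3 - x2) * (x3 - x1) := by positivity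
    have i1 : 0 ≤ L x2 * (x3 - x1) := mul_nonneg h2 hC.le
    have i2 : L x1 * (x3 - x2) ≤ 0 := mul_nonpos_of_nonpos_of_nonneg h1 hB.le
    have i3 : L x3 * (x2 - x1) ≤ 0 := mul_nonpos_of_nonpos_of_nonneg h3 hA.le
    have i4 : κ * m / 2 * ((x2 - x1) * (x3 - x2) * (x3 - x1)) ≤ 0 := by linarith
    have hκm : κ * m / 2 ≤ 0 := by
      by_contra hcon
      push Not at hcon
      have := mul_pos hcon hABC
      linarith
    by_cases hm : m = 0
    · -- linear case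
      subst hm
      simp only [mul_zero, zero_div, zero_mul, add_zero] at hconv hlin e1
      linarith
    · have hκm' : κ * m / 2 ≠ 0 := by positivity
      have hneg : κ * m / 2 < 0 := lt_of_le_of_ne hκm hκm'
      -- the vertex
      obtain ⟨ξ, hξ⟩ : ∃ ξ : ℝ, ξ = -n / m := ⟨_, rfl⟩
      have hξ' : m * ξ + n = 0 := by
        rw [hξ]; field_simp; ring
      have hn : n = -(m * ξ) := by linarith
      have hLξ : L ξ = c * ((ξ - x2) * (ξ - x3) + (ξ - x1) * (ξ - x3) + (ξ - x1) * (ξ - x2)) := by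
        rw [hL ξ, hξ', mul_zero, add_zero]
      have hsq : ∀ x, L x = L ξ + κ * m / 2 * (x - ξ) ^ 2 := by
        intro x
        rw [hL' x, hL' ξ, hn]
        ring
      have j1 := hsq x1
      have j2 := hsq x2
      have j3 := hsq x3
      have k1 : (x2 - ξ) ^ 2 ≤ (x1 - ξ) ^ 2 := by
        by_contra hcon
        push Not at hcon
        have := mul_lt_mul_of_neg_left hcon hneg
        linarith
      have k3 : (x2 - ξ) ^ 2 ≤ (x3 - ξ) ^ 2 := by
        by_contra hcon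
        push Not at hcon
        have := mul_lt_mul_of_neg_left hcon hneg
        linarith
      have k4 : (x1 - ξ) + (x2 - ξ) ≤ 0 := by
        by_contra hcon
        push Not at hcon
        have h5 : (x2 - ξ) ^ 2 - (x1 - ξ) ^ 2 = (x2 - x1) * ((x1 - ξ) + (x2 - ξ)) := by ring
        have := mul_pos hA hcon
        linarith
      have k5 : 0 ≤ (x3 - ξ) + (x2 - ξ) := by
        by_contra hcon
        push Not at hcon
        have h5 : (x3 - ξ) ^ 2 - (x2 - ξ) ^ 2 = (x3 - x2) * ((x3 - ξ) + (x2 - ξ)) := by ring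
        have := mul_neg_of_pos_of_neg hB hcon
        linarith
      have k6 : ((x1 - ξ) + (x2 - ξ)) * ((x3 - ξ) + (x2 - ξ)) ≤ 0 :=
        mul_nonpos_of_nonpos_of_nonneg k4 k5
      have k7 : 0 ≤ L ξ := by
        have : κ * m / 2 * (x2 - ξ) ^ 2 ≤ 0 :=
          mul_nonpos_of_nonpos_of_nonneg hκm (sq_nonneg _)
        linarith
      rw [hLξ] at k7
      have k8 : 0 ≤ (ξ - x2) * (ξ - x3) + (ξ - x1) * (ξ - x3) + (ξ - x1) * (ξ - x2) :=
        (mul_nonneg_iff_of_pos_left hc).1 k7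
      have k9 : ((x1 - ξ) + (x2 - ξ)) * ((x3 - ξ) + (x2 - ξ)) =
        ((ξ - x2) * (ξ - x3) + (ξ - x1) * (ξ - x3) + (ξ - x1) * (ξ - x2)) + (x2 - ξ) ^ 2 := by
        ring
      have k10 : (x2 - ξ) ^ 2 ≤ 0 := by linarith
      have k11 : (x2 - ξ) ^ 2 = 0 := le_antisymm k10 (sq_nonneg _)
      have k12 : x2 - ξ = 0 := pow_eq_zero_iff (two_ne_zero) |>.1 k11
      have k13 : ξ = x2 := by linarith
      rw [k13] at k8
      have : (x2 - x1) * (x2 - x3) < 0 := mul_neg_of_pos_of_neg hA (by linarith)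
      simp only [sub_self, zero_mul, mul_zero, zero_add, add_zero] at k8
      linarith

/-- the same for `c ≠ 0` of either sign -/
theorem alg_contra' {c κ b0 b1 m n x1 x2 x3 : ℝ} (hc : c ≠ 0) (h12 : x1 < x2) (h23 : x2 < x3)
    {L : ℝ → ℝ} (hL : ∀ x, L x = c * ((x - x2) * (x - x3) + (x - x1) * (x - x3) +
      (x - x1) * (x - x2)) + (b0 + b1 * x) * (m * x + n))
    (e1 : 6 * c + 2 * b1 * m = κ * m)
    (e0 : -2 * c * (x1 + x2 + x3) + b0 * m + b1 * n = κ * n)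
    (h1 : c * L x1 ≤ 0) (h2 : 0 ≤ c * L x2) (h3 : c * L x3 ≤ 0) : κ = 0 ∧ ∀ x, L x = 0 := by
  rcases lt_or_gt_of_ne hc with h | h
  · have h4 := alg_contra (c := -c) (κ := κ) (b0 := b0) (b1 := b1) (m := -m) (n := -n)
      (x1 := x1) (x2 := x2) (x3 := x3) (L := fun x => - L x) (by linarith) h12 h23
      (by intro x; simp only [hL x]; ring) (by linarith) (by linarith)
      (by nlinarith) (by nlinarith) (by nlinarith)
    refine ⟨h4.1, fun x => ?_⟩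
    have := h4.2 x
    linarith
  · exact alg_contra h h12 h23 hL e1 e0 (by nlinarith) (by nlinarith) (by nlinarith)

/-- A cubic with three given roots. -/
theorem cubic_roots {q0 q1 q2 q3 x1 x2 x3 : ℝ} (h12 : x1 ≠ x2) (h23 : x2 ≠ x3) (h13 : x1 ≠ x3)
    (h1 : q0 + q1 * x1 + q2 * x1 ^ 2 + q3 * x1 ^ 3 = 0)
    (h2 : q0 + q1 * x2 + q2 * x2 ^ 2 + q3 * x2 ^ 3 = 0)
    (h3 : q0 + q1 * x3 + q2 * x3 ^ 2 + q3 * x3 ^ 3 = 0) :
    q2 = -q3 * (x1 + x2 + x3) ∧ q1 = q3 * (x1 * x2 + x1 * x3 + x2 * x3) ∧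
      q0 = -q3 * (x1 * x2 * x3) := by
  have a12 : x1 - x2 ≠ 0 := sub_ne_zero.2 h12
  have a23 : x2 - x3 ≠ 0 := sub_ne_zero.2 h23
  have a13 : x1 - x3 ≠ 0 := sub_ne_zero.2 h13
  have e12 : q1 + q2 * (x1 + x2) + q3 * (x1 ^ 2 + x1 * x2 + x2 ^ 2) = 0 := by
    apply mul_left_cancel₀ a12
    linear_combination h1 - h2
  have e13 : q1 + q2 * (x1 + x3) + q3 * (x1 ^ 2 + x1 * x3 + x3 ^ 2) = 0 := by
    apply mul_left_cancel₀ a13
    linear_combination h1 - h3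
  have e123 : q2 + q3 * (x1 + x2 + x3) = 0 := by
    apply mul_left_cancel₀ a23
    linear_combination e12 - e13
  have f2 : q2 = -q3 * (x1 + x2 + x3) := by linarith
  have f1 : q1 = q3 * (x1 * x2 + x1 * x3 + x2 * x3) := by
    rw [f2] at e12
    linear_combination e12
  refine ⟨f2, f1, ?_⟩
  rw [f1, f2] at h1
  linear_combination h1

/-- A quartic with three given roots. -/
theorem quartic_roots {q0 q1 q2 q3 q4 x1 x2 x3 : ℝ} (h12 : x1 ≠ x2) (h23 : x2 ≠ x3)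
    (h13 : x1 ≠ x3)
    (h1 : q0 + q1 * x1 + q2 * x1 ^ 2 + q3 * x1 ^ 3 + q4 * x1 ^ 4 = 0)
    (h2 : q0 + q1 * x2 + q2 * x2 ^ 2 + q3 * x2 ^ 3 + q4 * x2 ^ 4 = 0)
    (h3 : q0 + q1 * x3 + q2 * x3 ^ 2 + q3 * x3 ^ 3 + q4 * x3 ^ 4 = 0) (x : ℝ) :
    q0 + q1 * x + q2 * x ^ 2 + q3 * x ^ 3 + q4 * x ^ 4 =
      (x - x1) * (x - x2) * (x - x3) * (q4 * x + (q3 + q4 * (x1 + x2 + x3))) := by
  -- subtract `q4 x (x-x1)(x-x2)(x-x3)`
  obtain ⟨f2, f1, f0⟩ := cubic_roots (q0 := q0) (q1 := q1 + q4 * (x1 * x2 * x3))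
    (q2 := q2 - q4 * (x1 * x2 + x1 * x3 + x2 * x3)) (q3 := q3 + q4 * (x1 + x2 + x3)) h12 h23 h13
    (by linear_combination h1) (by linear_combination h2) (by linear_combination h3)
  have g2 : q2 = q4 * (x1 * x2 + x1 * x3 + x2 * x3) -
      (q3 + q4 * (x1 + x2 + x3)) * (x1 + x2 + x3) := by linarith
  have g1 : q1 = -(q4 * (x1 * x2 * x3)) +
      (q3 + q4 * (x1 + x2 + x3)) * (x1 * x2 + x1 * x3 + x2 * x3) := by linarith
  rw [g2, g1, f0]
  ring

namespace Quart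

variable (K : Quart)

/-- the leading coefficient of `g` -/
noncomputable def g4 : ℝ :=
  2 * K.c4 - 2 * K.d2 * K.s2 + 2 * K.e * K.s2 ^ 2 + 2 * K.s2 * K.p3

/-- coefficients of `g` -/
theorem g_expand : ∃ g0 g1 g2 g3 : ℝ, ∀ x,
    K.g x = g0 + g1 * x + g2 * x ^ 2 + g3 * x ^ 3 + K.g4 * x ^ 4 := by
  refine ⟨2 * K.c0 - 2 * K.d0 * K.s0 + 2 * K.e * K.s0 ^ 2 + K.s1 * K.p0,
    2 * K.c1 - 2 * (K.d0 * K.s1 + K.d1 * K.s0) + 4 * K.e * K.s0 * K.s1 + K.s1 * K.p1 +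
      2 * K.s2 * K.p0,
    2 * K.c2 - 2 * (K.d0 * K.s2 + K.d1 * K.s1 + K.d2 * K.s0) +
      2 * K.e * (K.s1 ^ 2 + 2 * K.s0 * K.s2) + K.s1 * K.p2 + 2 * K.s2 * K.p1,
    2 * K.c3 - 2 * (K.d1 * K.s2 + K.d2 * K.s1) + 4 * K.e * K.s1 * K.s2 + K.s1 * K.p3 +
      2 * K.s2 * K.p2, ?_⟩
  intro x
  unfold g4 g c d s s' p
  ring

/-- If `g0` vanishes identically the field has infinitely many equilibria. -/
theorem infinite_of_g0 (h7 : ∀ x, K.l x ≠ 0 → K.g0 x = 0) {q : ℝ × ℝ} (hq : q.2 ≠ 0)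
    (hc : IsCenter K.fld q) : {z : ℝ × ℝ | K.fld z = 0}.Infinite := by
  have hl := K.l_ne hq hc
  have hlc : Continuous K.l := by unfold l; fun_prop
  have hac : Continuous K.a := by unfold a; fun_prop
  have hne : ∀ᶠ x in 𝓝 q.1, K.l x ≠ 0 := hlc.continuousAt.eventually_ne hl
  have h0 : K.fld q = 0 := hc.1
  have h1 : q.2 * (K.a q.1 + K.l q.1 * q.2 ^ 2) = 0 := congrArg Prod.fst h0
  have h3 := (mul_eq_zero.1 h1).resolve_left hq
  have h4 : -(K.a q.1 / K.l q.1) = q.2 ^ 2 := by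
    field_simp
    linarith
  have hpos : ∀ᶠ x in 𝓝 q.1, 0 < -(K.a x / K.l x) := by
    have h5 : ContinuousAt (fun x => -(K.a x / K.l x)) q.1 :=
      (hac.continuousAt.div hlc.continuousAt hl).neg
    refine h5.eventually (lt_mem_nhds ?_)
    show 0 < -(K.a q.1 / K.l q.1)
    rw [h4]
    positivity
  have hinf : {x : ℝ | K.l x ≠ 0 ∧ 0 < -(K.a x / K.l x)}.Infinite :=
    infinite_of_mem_nhds q.1 (hne.and hpos)
  refine infinite_of_injOn_mapsTo (f := fun x => (x, Real.sqrt (-(K.a x / K.l x)))) ?_ ?_ hinf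
  · intro x _ y _ hxy
    exact congrArg Prod.fst hxy
  · rintro x ⟨hx, hx0⟩
    have h5 : (Real.sqrt (-(K.a x / K.l x))) ^ 2 = -(K.a x / K.l x) := Real.sq_sqrt hx0.le
    have h6 : K.a x + K.l x * (Real.sqrt (-(K.a x / K.l x))) ^ 2 = 0 := by
      rw [h5]; field_simp; ring
    have h8 : K.c x + K.d x * (Real.sqrt (-(K.a x / K.l x))) ^ 2 +
        K.e * (Real.sqrt (-(K.a x / K.l x))) ^ 4 = 0 := by
      have e4 : (Real.sqrt (-(K.a x / K.l x))) ^ 4 =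
        ((Real.sqrt (-(K.a x / K.l x))) ^ 2) ^ 2 := by ring
      rw [e4, h5]
      have h9 : 2 * K.l x * (K.c x + K.d x * -(K.a x / K.l x) + K.e * (-(K.a x / K.l x)) ^ 2) =
          K.g0 x := by
        unfold g0
        field_simp
        ring
      rw [h7 x hx] at h9
      exact (mul_eq_zero.1 h9).resolve_left (mul_ne_zero two_ne_zero hx)
    show K.fld (x, Real.sqrt (-(K.a x / K.l x))) = 0
    unfold fld
    simp only
    rw [h6, h8, mul_zero]
    rfl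

/-- There are not three centres off the axis with different abscissae if `ν ≠ 0`, `p ≠ 0`. -/
theorem not_three (hν : K.ν ≠ 0) (hfin : {z : ℝ × ℝ | K.fld z = 0}.Finite)
    (hp : ∃ x, K.p x ≠ 0) {q1 q2 q3 : ℝ × ℝ} (h1 : q1.2 ≠ 0) (h2 : q2.2 ≠ 0) (h3 : q3.2 ≠ 0)
    (c1 : IsCenter K.fld q1) (c2 : IsCenter K.fld q2) (c3 : IsCenter K.fld q3)
    (h12 : q1.1 < q2.1) (h23 : q2.1 < q3.1) : False := by
  obtain ⟨x1, hx1⟩ : ∃ x, x = q1.1 := ⟨_, rfl⟩
  obtain ⟨x2, hx2⟩ : ∃ x, x = q2.1 := ⟨_, rfl⟩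
  obtain ⟨x3, hx3⟩ : ∃ x, x = q3.1 := ⟨_, rfl⟩
  have i12 : x1 < x2 := by rw [hx1, hx2]; exact h12
  have i23 : x2 < x3 := by rw [hx2, hx3]; exact h23
  have i13 : x1 < x3 := i12.trans i23
  have r1 : K.p x1 = 0 := by rw [hx1]; exact K.p_zero hν h1 c1
  have r2 : K.p x2 = 0 := by rw [hx2]; exact K.p_zero hν h2 c2
  have r3 : K.p x3 = 0 := by rw [hx3]; exact K.p_zero hν h3 c3
  obtain ⟨f2, f1, f0⟩ := cubic_roots i12.ne i23.ne i13.ne r1 r2 r3
  have hpx : ∀ x, K.p x = K.p3 * ((x - x1) * (x - x2) * (x - x3)) := by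
    intro x
    unfold p
    rw [f2, f1, f0]
    ring
  have hp3 : K.p3 ≠ 0 := by
    intro h
    obtain ⟨x, hx⟩ := hp
    exact hx (by rw [hpx, h, zero_mul])
  have hp'x : ∀ x, K.p' x = K.p3 * ((x - x2) * (x - x3) + (x - x1) * (x - x3) +
      (x - x1) * (x - x2)) := by
    intro x
    unfold p'
    rw [f2, f1]
    ring
  obtain ⟨g0, g1, g2, g3, hgx⟩ := K.g_expand
  have s1 : K.g x1 = 0 := by rw [hx1]; exact (K.g_zero hν h1 c1).2
  have s2 : K.g x2 = 0 := by rw [hx2]; exact (K.g_zero hν h2 c2).2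
  have s3 : K.g x3 = 0 := by rw [hx3]; exact (K.g_zero hν h3 c3).2
  rw [hgx] at s1 s2 s3
  obtain ⟨m, hm⟩ : ∃ m, m = K.g4 / K.p3 := ⟨_, rfl⟩
  obtain ⟨n, hn⟩ : ∃ n, n = (g3 + K.g4 * (x1 + x2 + x3)) / K.p3 := ⟨_, rfl⟩
  have hg : ∀ x, K.g x = K.p x * (m * x + n) := by
    intro x
    rw [hgx, quartic_roots i12.ne i23.ne i13.ne s1 s2 s3 x, hpx, hm, hn]
    field_simp
  have d12 : x1 - x2 ≠ 0 := sub_ne_zero.2 i12.ne
  have d13 : x1 - x3 ≠ 0 := sub_ne_zero.2 i13.ne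
  have d23 : x2 - x3 ≠ 0 := sub_ne_zero.2 i23.ne
  have t1 : K.p' x1 = K.p3 * ((x1 - x2) * (x1 - x3)) := by rw [hp'x]; ring
  have t2 : K.p' x2 = K.p3 * ((x2 - x1) * (x2 - x3)) := by rw [hp'x]; ring
  have t3 : K.p' x3 = K.p3 * ((x3 - x1) * (x3 - x2)) := by rw [hp'x]; ring
  have p1 : 0 < (x1 - x2) * (x1 - x3) := mul_pos_of_neg_of_neg (by linarith) (by linarith)
  have p2 : 0 < (x2 - x1) * (x3 - x2) := mul_pos (by linarith) (by linarith)
  have p3 : 0 < (x3 - x1) * (x3 - x2) := mul_pos (by linarith) (by linarith)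
  have u1 : K.p' x1 ≠ 0 := by rw [t1]; exact mul_ne_zero hp3 p1.ne'
  have u2 : K.p' x2 ≠ 0 := by
    rw [t2]
    exact mul_ne_zero hp3 (mul_ne_zero (by intro h; exact d12 (by linarith)) d23)
  have u3 : K.p' x3 ≠ 0 := by rw [t3]; exact mul_ne_zero hp3 p3.ne'
  obtain ⟨v1, w1⟩ := K.necessary hν hg h1 c1 (by rw [← hx1]; exact u1)
  obtain ⟨v2, w2⟩ := K.necessary hν hg h2 c2 (by rw [← hx2]; exact u2)
  obtain ⟨v3, w3⟩ := K.necessary hν hg h3 c3 (by rw [← hx3]; exact u3)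
  rw [← hx1] at v1 w1
  rw [← hx2] at v2 w2
  rw [← hx3] at v3 w3
  -- the linear polynomial `L' - κ h` vanishes identically
  have e1 : 6 * K.p3 + 2 * K.b1 * m = (2 * K.e) * m := by
    apply mul_left_cancel₀ d12
    unfold l at v1 v2
    linear_combination v1 - v2
  have e0 : -2 * K.p3 * (x1 + x2 + x3) + K.b0 * m + K.b1 * n = (2 * K.e) * n := by
    unfold l at v1
    rw [f2] at v1
    linear_combination v1 - x1 * e1
  obtain ⟨hκ, hL0⟩ := alg_contra' (c := K.p3) (κ := 2 * K.e) (b0 := K.b0) (b1 := K.b1) (m := m)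
    (n := n) (x1 := x1) (x2 := x2) (x3 := x3)
    (L := fun x => K.p' x + K.l x * (m * x + n)) hp3 i12 i23
    (by intro x; simp only [hp'x x]; rfl) e1 e0
    (by
      rw [t1] at w1
      have e : K.p3 * ((x1 - x2) * (x1 - x3)) * (K.p3 * ((x1 - x2) * (x1 - x3)) +
        K.l x1 * (m * x1 + n)) = ((x1 - x2) * (x1 - x3)) * (K.p3 * (K.p' x1 +
          K.l x1 * (m * x1 + n))) := by rw [t1]; ring
      rw [e] at w1
      by_contra hcon
      push Not at hcon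
      have := mul_pos p1 hcon
      linarith)
    (by
      rw [t2] at w2
      have e : K.p3 * ((x2 - x1) * (x2 - x3)) * (K.p3 * ((x2 - x1) * (x2 - x3)) +
        K.l x2 * (m * x2 + n)) = -(((x2 - x1) * (x3 - x2)) * (K.p3 * (K.p' x2 +
          K.l x2 * (m * x2 + n)))) := by rw [t2]; ring
      rw [e] at w2
      by_contra hcon
      push Not at hcon
      have := mul_neg_of_pos_of_neg p2 hcon
      linarith)
    (by
      rw [t3] at w3
      have e : K.p3 * ((x3 - x1) * (x3 - x2)) * (K.p3 * ((x3 - x1) * (x3 - x2)) +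
        K.l x3 * (m * x3 + n)) = ((x3 - x1) * (x3 - x2)) * (K.p3 * (K.p' x3 +
          K.l x3 * (m * x3 + n))) := by rw [t3]; ring
      rw [e] at w3
      by_contra hcon
      push Not at hcon
      have := mul_pos p3 hcon
      linarith)
  have he : K.e = 0 := by linarith
  refine K.infinite_of_g0 ?_ h1 c1 hfin
  intro x hx
  rw [K.g0_eq hν hx, hg, he]
  have := hL0 x
  linear_combination K.p x * this

end Quart

end RevC
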