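import Mathlib

/-!
# Centres of planar vector fields: basic exclusion lemmas
-/

open Set Filter Topology

namespace RevC

/-- `p` is a centre of the vector field `X` on the plane: it is an equilibrium and, for every
neighbourhood `O` of `p`, every point `q ≠ p` close enough to `p` lies on a (non constant) periodic
orbit contained in `O` and not passing through `p`. -/
def IsCenter (X : ℝ × ℝ → ℝ × ℝ) (p : ℝ × ℝ) : Prop :=
  X p = 0 ∧ ∀ O ∈ 𝓝 p, ∀ᶠ q in 𝓝[≠] p, X q ≠ 0 ∧ ∃ γ : ℝ → ℝ × ℝ, ∃ T : ℝ, 0 < T ∧ γ 0 = q ∧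
    (∀ t, HasDerivAt γ (X (γ t)) t) ∧ (∀ t, γ (t + T) = γ t) ∧ ∀ t, γ t ∈ O ∧ γ t ≠ p

/-- A periodic function with nonnegative derivative has zero derivative. -/
theorem periodic_mono {f f' : ℝ → ℝ} {T : ℝ} (hT : 0 < T) (hf : ∀ t, HasDerivAt f (f' t) t)
    (hper : ∀ t, f (t + T) = f t) (h0 : ∀ t, 0 ≤ f' t) : ∀ t, f' t = 0 := by
  have hmono : Monotone f := by
    apply monotone_of_deriv_nonneg (fun t => (hf t).differentiableAt)
    intro t
    rw [(hf t).deriv]
    exact h0 t
  have hn : ∀ (n : ℕ) (t : ℝ), f (t + n * T) = f t := by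
    intro n
    induction n with
    | zero => intro t; simp
    | succ n ih =>
      intro t
      have h1 : t + ((n + 1 : ℕ) : ℝ) * T = (t + n * T) + T := by push_cast; ring
      rw [h1, hper, ih]
  have hle : ∀ s t, s ≤ t → f s = f t := by
    intro s t hst
    obtain ⟨n, hn'⟩ := exists_nat_ge ((t - s) / T)
    have h1 : t ≤ s + n * T := by
      have := (div_le_iff₀ hT).1 hn'
      linarith
    apply le_antisymm (hmono hst)
    calc f t ≤ f (s + n * T) := hmono h1
      _ = f s := hn n s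
  have hconst : ∀ t, f t = f 0 := by
    intro t
    rcases le_total t 0 with h | h
    · exact hle t 0 h
    · exact (hle 0 t h).symm
  intro t
  have h1 : HasDerivAt f 0 t := by
    have : f = fun _ => f 0 := funext hconst
    rw [this]
    exact hasDerivAt_const t (f 0)
  exact (hf t).unique h1

/-- Same with nonpositive derivative. -/
theorem periodic_anti {f f' : ℝ → ℝ} {T : ℝ} (hT : 0 < T) (hf : ∀ t, HasDerivAt f (f' t) t)
    (hper : ∀ t, f (t + T) = f t) (h0 : ∀ t, f' t ≤ 0) : ∀ t, f' t = 0 := by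
  intro t
  have := periodic_mono (f := fun t => - f t) (f' := fun t => - f' t) hT (fun t => (hf t).neg)
    (fun t => by simp [hper]) (fun t => by simpa using h0 t) t
  simpa using this

/-- A periodic orbit of a continuous planar field on which the first coordinate is constant is
an equilibrium. -/
theorem const_of_fst_const {X : ℝ × ℝ → ℝ × ℝ} (hX : Continuous X) {γ : ℝ → ℝ × ℝ} {T : ℝ}
    (hT : 0 < T) (hγ : ∀ t, HasDerivAt γ (X (γ t)) t) (hper : ∀ t, γ (t + T) = γ t) {x1 : ℝ}
    (hx : ∀ t, (γ t).1 = x1) : X (γ 0) = 0 := by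
  have hfst : ∀ t, HasDerivAt (fun t => (γ t).1) (X (γ t)).1 t := fun t => (hγ t).fst
  have hsnd : ∀ t, HasDerivAt (fun t => (γ t).2) (X (γ t)).2 t := fun t => (hγ t).snd
  have h1 : (X (γ 0)).1 = 0 := by
    have hc : (fun t => (γ t).1) = fun _ => x1 := funext hx
    have := hfst 0
    rw [hc] at this
    exact this.unique (hasDerivAt_const 0 x1)
  have hcont : Continuous (fun y : ℝ => (X (x1, y)).2) := by fun_prop
  have hH : ∀ y, HasDerivAt (fun y => ∫ s in (0:ℝ)..y, (X (x1, s)).2) (X (x1, y)).2 y := by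
    intro y
    exact intervalIntegral.integral_hasDerivAt_right (hcont.intervalIntegrable _ _)
      (hcont.stronglyMeasurableAtFilter _ _) hcont.continuousAt
  have hpt : ∀ t, γ t = (x1, (γ t).2) := fun t => Prod.ext (hx t) rfl
  have hcomp : ∀ t, HasDerivAt (fun t => ∫ s in (0:ℝ)..((γ t).2), (X (x1, s)).2)
      ((X (γ t)).2 * (X (γ t)).2) t := by
    intro t
    have h2 := (hH (γ t).2).comp t (hsnd t)
    have h3 : X (x1, (γ t).2) = X (γ t) := by rw [← hpt t]
    rw [h3] at h2
    exact h2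
  have h4 := periodic_mono hT hcomp (fun t => by rw [hper]) (fun t => mul_self_nonneg _) 0
  have h5 : (X (γ 0)).2 = 0 := by
    simpa using h4
  exact Prod.ext h1 h5

/-- If `(x - x0) x' = 0` along a curve, then `x` is constant. -/
theorem fst_const_of_mul {x x' : ℝ → ℝ} {x0 : ℝ} (hx : ∀ t, HasDerivAt x (x' t) t)
    (h : ∀ t, (x t - x0) * x' t = 0) : ∀ t, x t = x 0 := by
  have h1 : ∀ t, HasDerivAt (fun t => (x t - x0) ^ 2) 0 t := by
    intro t
    have h2 : HasDerivAt (fun t => x t - x0) (x' t) t := (hx t).sub_const x0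
    have h3 := h2.pow 2
    have h4 : (((2:ℕ):ℝ) * (x t - x0) ^ (2 - 1) * x' t) = 0 := by
      have := h t
      simp only [Nat.cast_ofNat, Nat.add_one_sub_one, pow_one]
      linear_combination 2 * this
    rw [h4] at h3
    exact h3
  have hc : ∀ s t, (x s - x0) ^ 2 = (x t - x0) ^ 2 := fun s t =>
    is_const_of_deriv_eq_zero (f := fun t => (x t - x0) ^ 2)
      (fun t => (h1 t).differentiableAt) (fun t => (h1 t).deriv) s t
  intro t
  by_cases h0 : x 0 = x0
  · have h2 := hc t 0
    rw [h0, sub_self, zero_pow two_ne_zero] at h2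
    have h3 := pow_eq_zero_iff (two_ne_zero) |>.1 h2
    rw [h0]
    linarith
  · have hne : ∀ t, x t - x0 ≠ 0 := by
      intro s hs
      have h2 := hc s 0
      rw [hs, zero_pow two_ne_zero] at h2
      have h3 := pow_eq_zero_iff (two_ne_zero) |>.1 h2.symm
      exact h0 (by linarith)
    have hd : ∀ s, HasDerivAt x 0 s := by
      intro s
      have h2 : x' s = 0 := (mul_eq_zero.1 (h s)).resolve_left (hne s)
      have h3 := hx s
      rwa [h2] at h3
    exact is_const_of_deriv_eq_zero (fun t => (hd t).differentiableAt) (fun t => (hd t).deriv) t 0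

/-- Exclusion of centres off the axis by a function whose derivative along the field is `y D`
with `D ≥ 0`, and `D = 0` only where `(x - x0) x' = 0`. -/
theorem no_lyap {X : ℝ × ℝ → ℝ × ℝ} (hX : Continuous X) {p : ℝ × ℝ} (hp : p.2 ≠ 0)
    {V D : ℝ × ℝ → ℝ}
    (h : ∀ᶠ q in 𝓝 p, (∀ (γ : ℝ → ℝ × ℝ) (t : ℝ), γ t = q → HasDerivAt γ (X q) t →
        HasDerivAt (fun s => V (γ s)) (q.2 * D q) t) ∧ 0 ≤ D q ∧
        (D q = 0 → (q.1 - p.1) * (X q).1 = 0)) : ¬ IsCenter X p := by
  rintro ⟨-, hc⟩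
  have hy : ∀ᶠ q : ℝ × ℝ in 𝓝 p, 0 < q.2 * p.2 := by
    have h1 : Continuous fun q : ℝ × ℝ => q.2 * p.2 := by fun_prop
    exact h1.continuousAt.eventually (lt_mem_nhds (mul_self_pos.2 hp))
  obtain ⟨q, hq, γ, T, hT, hγ0, hγ, hper, hmem⟩ := (hc _ (h.and hy)).exists
  have hfst : ∀ t, HasDerivAt (fun t => (γ t).1) (X (γ t)).1 t := fun t => (hγ t).fst
  -- the sign of `y` is constant on the orbit, so the derivative of `V` has constant sign
  have hV : ∀ t, HasDerivAt (fun s => p.2 * V (γ s)) (p.2 * ((γ t).2 * D (γ t))) t := fun t =>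
    (((hmem t).1.1.1 γ t rfl (hγ t))).const_mul p.2
  have h0 : ∀ t, 0 ≤ p.2 * ((γ t).2 * D (γ t)) := by
    intro t
    have h1 : 0 < (γ t).2 * p.2 := (hmem t).1.2
    have h2 : 0 ≤ D (γ t) := (hmem t).1.1.2.1
    have h3 : p.2 * ((γ t).2 * D (γ t)) = ((γ t).2 * p.2) * D (γ t) := by ring
    rw [h3]
    exact mul_nonneg h1.le h2
  have h4 := periodic_mono hT hV (fun t => by simp only [hper]) h0
  have h5 : ∀ t, ((γ t).1 - p.1) * (X (γ t)).1 = 0 := by
    intro t
    apply (hmem t).1.1.2.2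
    have h1 : 0 < (γ t).2 * p.2 := (hmem t).1.2
    have h3 : ((γ t).2 * p.2) * D (γ t) = 0 := by rw [← h4 t]; ring
    exact (mul_eq_zero.1 h3).resolve_left h1.ne'
  have h6 := fst_const_of_mul hfst h5
  have h7 := const_of_fst_const hX hT hγ hper h6
  rw [hγ0] at h7
  exact hq h7

/-- A solution of a linear homogeneous equation vanishing at `0` vanishes identically. -/
theorem linear_zero {f r : ℝ → ℝ} (hr : Continuous r) (hf : ∀ t, HasDerivAt f (r t * f t) t)
    (h0 : f 0 = 0) : ∀ t, f t = 0 := by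
  have hR : ∀ t, HasDerivAt (fun t => ∫ s in (0:ℝ)..t, r s) (r t) t := fun t =>
    intervalIntegral.integral_hasDerivAt_right (hr.intervalIntegrable _ _)
      (hr.stronglyMeasurableAtFilter _ _) hr.continuousAt
  have hg : ∀ t, HasDerivAt (fun t => f t * Real.exp (-∫ s in (0:ℝ)..t, r s)) 0 t := by
    intro t
    have h1 : HasDerivAt (fun t => f t * Real.exp (-∫ s in (0:ℝ)..t, r s))
        (r t * f t * Real.exp (-∫ s in (0:ℝ)..t, r s) +
        f t * (Real.exp (-∫ s in (0:ℝ)..t, r s) * -r t)) t := (hf t).mul ((hR t).neg.exp)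
    have h2 : r t * f t * Real.exp (-∫ s in (0:ℝ)..t, r s) +
        f t * (Real.exp (-∫ s in (0:ℝ)..t, r s) * -r t) = 0 := by ring
    rw [h2] at h1
    exact h1
  intro t
  have h1 := is_const_of_deriv_eq_zero (fun t => (hg t).differentiableAt) (fun t => (hg t).deriv)
    t 0
  simp only [h0, zero_mul] at h1
  exact (mul_eq_zero.1 h1).resolve_right (Real.exp_pos _).ne'

/-- A point on an invariant vertical line is not a centre. -/
theorem no_line {X : ℝ × ℝ → ℝ × ℝ} (hX : Continuous X) {p : ℝ × ℝ} {r : ℝ × ℝ → ℝ}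
    (hr : Continuous r) (h : ∀ q, (X q).1 = r q * (q.1 - p.1)) : ¬ IsCenter X p := by
  rintro ⟨-, hc⟩
  have hev := eventually_nhdsWithin_iff.1 (hc univ univ_mem)
  -- a point on the line close to `p`
  have hline : Tendsto (fun s : ℝ => (p.1, p.2 + s)) (𝓝[≠] 0) (𝓝 p) := by
    have h1 : Continuous fun s : ℝ => (p.1, p.2 + s) := by fun_prop
    have h2 := h1.continuousAt (x := 0)
    have h3 : ((p.1, p.2 + 0) : ℝ × ℝ) = p := by simp
    have h4 : Tendsto (fun s : ℝ => (p.1, p.2 + s)) (𝓝 0) (𝓝 (p.1, p.2 + 0)) := h2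
    rw [h3] at h4
    exact h4.mono_left nhdsWithin_le_nhds
  obtain ⟨s, hs, hs0⟩ := ((hline.eventually hev).and self_mem_nhdsWithin).exists
  have hs0' : s ≠ 0 := hs0
  have hne : ((p.1, p.2 + s) : ℝ × ℝ) ∈ ({p}ᶜ : Set (ℝ × ℝ)) := by
    intro h1
    have h2 := congrArg Prod.snd (mem_singleton_iff.1 h1)
    simp only at h2
    exact hs0' (by linarith)
  obtain ⟨hq, γ, T, hT, hγ0, hγ, hper, -⟩ := hs hne
  have hγc : Continuous γ := continuous_iff_continuousAt.2 fun t => (hγ t).continuousAt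
  have hfst : ∀ t, HasDerivAt (fun t => (γ t).1 - p.1) (r (γ t) * ((γ t).1 - p.1)) t := by
    intro t
    have h1 : HasDerivAt (fun t => (γ t).1) (X (γ t)).1 t := (hγ t).fst
    rw [h] at h1
    exact h1.sub_const _
  have h0 := linear_zero (f := fun t => (γ t).1 - p.1) (r := fun t => r (γ t)) (by fun_prop) hfst
    (by simp [hγ0])
  have h7 := const_of_fst_const hX hT hγ hper (x1 := p.1) (fun t => by linarith [h0 t])
  rw [hγ0] at h7
  exact hq h7

end RevC
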