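import Pool.Agent.RevC.Cross

/-!
# The configuration with three centres off the axis when `p = 0`
-/

open Set Filter Topology

namespace RevC

theorem card3 {a b c : ℝ} (h1 : a ≠ b) (h2 : a ≠ c) (h4 : b ≠ c) :
    ({a, b, c} : Finset ℝ).card = 3 := by
  rw [Finset.card_insert_of_notMem (by simp [h1, h2]), Finset.card_insert_of_notMem (by simp [h4]),
    Finset.card_singleton]
theorem card4 {a b c d : ℝ} (h1 : a ≠ b) (h2 : a ≠ c) (h3 : a ≠ d) (h4 : b ≠ c) (h5 : b ≠ d)
    (h6 : c ≠ d) : ({a, b, c, d} : Finset ℝ).card = 4 := by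
  rw [Finset.card_insert_of_notMem (by simp [h1, h2, h3]), card3 h4 h5 h6]
theorem card5 {a b c d e : ℝ} (h1 : a ≠ b) (h2 : a ≠ c) (h3 : a ≠ d) (h4 : a ≠ e) (h5 : b ≠ c)
    (h6 : b ≠ d) (h7 : b ≠ e) (h8 : c ≠ d) (h9 : c ≠ e) (h10 : d ≠ e) :
    ({a, b, c, d, e} : Finset ℝ).card = 5 := by
  rw [Finset.card_insert_of_notMem (by simp [h1, h2, h3, h4]), card4 h5 h6 h7 h8 h9 h10]
theorem card_le2 (a b : ℝ) : ({a, b} : Finset ℝ).card ≤ 2 := Finset.card_le_two
theorem card_le3 (a b c : ℝ) : ({a, b, c} : Finset ℝ).card ≤ 3 := Finset.card_le_three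

theorem prod_neg_odd {n : ℕ} (hn : Odd n) {ρ : Fin n → ℝ} {a0 : ℝ} (h : ∀ i, a0 < ρ i) :
    ∏ i, (a0 - ρ i) < 0 := by
  have h1 : ∏ i, (a0 - ρ i) = ∏ i, ((-1) * (ρ i - a0)) :=
    Finset.prod_congr rfl fun i _ => by ring
  rw [h1, Finset.prod_mul_distrib, Finset.prod_const, Finset.card_univ, Fintype.card_fin,
    hn.neg_one_pow]
  have h2 : 0 < ∏ i, (ρ i - a0) := Finset.prod_pos fun i _ => sub_pos.2 (h i)
  linarith

theorem ends_odd {n : ℕ} (hn : Odd n) {f : ℝ → ℝ} {k : ℝ} (hk : 0 < k) (ρ : Fin n → ℝ)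
    (hf : ∀ x, f x = k * ∏ i, (x - ρ i)) (D : Finset ℝ) :
    (∃ a0, f a0 < 0 ∧ ∀ d ∈ D, a0 < d) ∧ (∃ b0, 0 < f b0 ∧ ∀ d ∈ D, d < b0) := by
  classical
  have hS : (((D ∪ Finset.univ.image ρ : Finset ℝ)) : Set ℝ).Finite := Finset.finite_toSet _
  constructor
  · obtain ⟨b, hb⟩ := hS.bddBelow
    refine ⟨b - 1, ?_, ?_⟩
    · rw [hf]
      have h1 : ∏ i, (b - 1 - ρ i) < 0 := prod_neg_odd hn fun i => by
        have := hb (show ρ i ∈ ((D ∪ Finset.univ.image ρ : Finset ℝ) : Set ℝ) by simp)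
        linarith
      exact mul_neg_of_pos_of_neg hk h1
    · intro d hd
      have := hb (show d ∈ ((D ∪ Finset.univ.image ρ : Finset ℝ) : Set ℝ) by simp [hd])
      linarith
  · obtain ⟨b, hb⟩ := hS.bddAbove
    refine ⟨b + 1, ?_, ?_⟩
    · rw [hf]
      refine mul_pos hk (Finset.prod_pos fun i _ => ?_)
      have := hb (show ρ i ∈ ((D ∪ Finset.univ.image ρ : Finset ℝ) : Set ℝ) by simp)
      linarith
    · intro d hd
      have := hb (show d ∈ ((D ∪ Finset.univ.image ρ : Finset ℝ) : Set ℝ) by simp [hd])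
      linarith
/-- The parameters of the configuration. -/
structure Cfg where
  (x1 x2 x3 xs r γ α κ s0 s1 s2 y1 y2 y3 μ η : ℝ)

namespace Cfg

variable (C : Cfg)

/-- `s` -/
def s (x : ℝ) : ℝ := C.s0 + C.s1 * x + C.s2 * x ^ 2
/-- the derivative of `s` -/
def s' (x : ℝ) : ℝ := C.s1 + 2 * C.s2 * x
/-- `l` -/
def l (x : ℝ) : ℝ := C.α * (x - C.r)
/-- `g` -/
def g (x : ℝ) : ℝ := C.γ * ((x - C.x1) * (x - C.x2) * (x - C.x3) * (x - C.xs))
/-- `E` -/
def E (x : ℝ) : ℝ := (x - C.y1) * (x - C.y2) * (x - C.y3) * (C.μ * x + C.η)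
/-- the function whose sign changes are counted -/
def f (x : ℝ) : ℝ := C.E x * C.s x * C.l x

/-- The hypotheses. -/
structure Ok : Prop where
  h12 : C.x1 < C.x2
  h23 : C.x2 < C.x3
  pat : (C.x1 < C.r ∧ C.r < C.x2 ∧ C.x2 < C.xs ∧ C.xs < C.x3) ∨
    (C.x1 < C.xs ∧ C.xs < C.x2 ∧ C.x2 < C.r ∧ C.r < C.x3)
  hγ : 0 < C.γ
  hα : C.α < 0
  hs1 : C.s C.x1 < 0
  hs2 : C.s C.x2 < 0
  hs3 : C.s C.x3 < 0
  hE : ∀ x, C.E x = C.g x + C.κ * C.s x ^ 2 - C.l x * C.s x * C.s' x
  hμ : C.μ = C.γ + (C.κ - 2 * C.α) * C.s2 ^ 2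
  nz : C.μ ≠ 0 ∨ C.η ≠ 0
  n12 : C.y1 ≠ C.y2
  n23 : C.y2 ≠ C.y3
  n13 : C.y1 ≠ C.y3
  l1 : C.l C.y1 ≠ 0
  l2 : C.l C.y2 ≠ 0
  l3 : C.l C.y3 ≠ 0
  st1 : (C.y1 - C.y2) * (C.y1 - C.y3) * (C.μ * C.y1 + C.η) * (C.s C.y1 * C.l C.y1) < 0
  st2 : (C.y2 - C.y1) * (C.y2 - C.y3) * (C.μ * C.y2 + C.η) * (C.s C.y2 * C.l C.y2) < 0
  st3 : C.s C.y3 = 0 ∨
    (C.y3 - C.y1) * (C.y3 - C.y2) * (C.μ * C.y3 + C.η) * (C.s C.y3 * C.l C.y3) < 0

variable {C}

theorem continuous_s : Continuous C.s := by unfold s; fun_prop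
theorem continuous_l : Continuous C.l := by unfold l; fun_prop
theorem continuous_g : Continuous C.g := by unfold g; fun_prop
theorem continuous_E : Continuous C.E := by unfold E; fun_prop
theorem continuous_f : Continuous C.f :=
  (continuous_E.mul continuous_s).mul continuous_l

namespace Ok

theorem s_y1 (H : C.Ok) : C.s C.y1 ≠ 0 := fun h => by
  have := H.st1; rw [h] at this; simp at this

theorem s_y2 (H : C.Ok) : C.s C.y2 ≠ 0 := fun h => by
  have := H.st2; rw [h] at this; simp at this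

theorem s_y3 (h3 : (C.y3 - C.y1) * (C.y3 - C.y2) * (C.μ * C.y3 + C.η) *
    (C.s C.y3 * C.l C.y3) < 0) : C.s C.y3 ≠ 0 := fun h => by
  rw [h] at h3; simp at h3

theorem gr (H : C.Ok) : C.g C.r < 0 := by
  rcases H.pat with ⟨h1, h2, h3, h4⟩ | ⟨h1, h2, h3, h4⟩
  · have h5 : C.r < C.xs := h2.trans h3
    have h6 : C.r < C.x3 := h5.trans h4
    have := mul_pos H.hγ (mul_pos (mul_pos (mul_pos (sub_pos.2 h1) (sub_pos.2 h2))
      (sub_pos.2 h6)) (sub_pos.2 h5))
    have e : C.g C.r = -(C.γ * ((C.r - C.x1) * (C.x2 - C.r) * (C.x3 - C.r) * (C.xs - C.r))) := by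
      unfold g; ring
    rw [e]; linarith
  · have h5 : C.xs < C.r := h2.trans h3
    have h6 : C.x1 < C.r := h1.trans h5
    have := mul_pos H.hγ (mul_pos (mul_pos (mul_pos (sub_pos.2 h6) (sub_pos.2 h3))
      (sub_pos.2 h4)) (sub_pos.2 h5))
    have e : C.g C.r = -(C.γ * ((C.r - C.x1) * (C.r - C.x2) * (C.x3 - C.r) * (C.r - C.xs))) := by
      unfold g; ring
    rw [e]; linarith

theorem x1r (H : C.Ok) : C.x1 < C.r := by
  rcases H.pat with ⟨h1, h2, h3, h4⟩ | ⟨h1, h2, h3, h4⟩ <;> linarith [H.h12]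

theorem rx3 (H : C.Ok) : C.r < C.x3 := by
  rcases H.pat with ⟨h1, h2, h3, h4⟩ | ⟨h1, h2, h3, h4⟩ <;> linarith [H.h23]

theorem x1s (H : C.Ok) : C.x1 < C.xs := by
  rcases H.pat with ⟨h1, h2, h3, h4⟩ | ⟨h1, h2, h3, h4⟩ <;> linarith [H.h12]

theorem sx3 (H : C.Ok) : C.xs < C.x3 := by
  rcases H.pat with ⟨h1, h2, h3, h4⟩ | ⟨h1, h2, h3, h4⟩ <;> linarith [H.h23]

/-- `(l g)' > 0` at `xs` -/
theorem glxs (H : C.Ok) :
    0 < C.γ * ((C.xs - C.x1) * (C.xs - C.x2) * (C.xs - C.x3)) * C.l C.xs := by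
  have hα : 0 < -C.α := by linarith [H.hα]
  rcases H.pat with ⟨h1, h2, h3, h4⟩ | ⟨h1, h2, h3, h4⟩
  · have h5 : C.r < C.xs := h2.trans h3
    have := mul_pos (mul_pos H.hγ (mul_pos (mul_pos (sub_pos.2 H.x1s) (sub_pos.2 h3))
      (sub_pos.2 h4))) (mul_pos hα (sub_pos.2 h5))
    have e : C.γ * ((C.xs - C.x1) * (C.xs - C.x2) * (C.xs - C.x3)) * C.l C.xs =
      C.γ * ((C.xs - C.x1) * (C.xs - C.x2) * (C.x3 - C.xs)) * (-C.α * (C.xs - C.r)) := by
      unfold l; ring
    rw [e]; exact this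
  · have h5 : C.xs < C.r := h2.trans h3
    have := mul_pos (mul_pos H.hγ (mul_pos (mul_pos (sub_pos.2 h1) (sub_pos.2 h2))
      (sub_pos.2 H.sx3))) (mul_pos hα (sub_pos.2 h5))
    have e : C.γ * ((C.xs - C.x1) * (C.xs - C.x2) * (C.xs - C.x3)) * C.l C.xs =
      C.γ * ((C.xs - C.x1) * (C.x2 - C.xs) * (C.x3 - C.xs)) * (-C.α * (C.r - C.xs)) := by
      unfold l; ring
    rw [e]; exact this

theorem Er (H : C.Ok) (h : C.μ ≤ 0) : C.E C.r < 0 := by
  have h1 : (C.κ - 2 * C.α) * C.s2 ^ 2 < 0 := by linarith [H.hμ, H.hγ]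
  have h2 : C.κ - 2 * C.α < 0 := by
    by_contra hcon
    push Not at hcon
    have := mul_nonneg hcon (sq_nonneg C.s2)
    linarith
  have hκ : C.κ < 0 := by linarith [H.hα]
  have hl : C.l C.r = 0 := by unfold l; ring
  rw [H.hE, hl]
  have h3 : C.κ * C.s C.r ^ 2 ≤ 0 := mul_nonpos_of_nonpos_of_nonneg hκ.le (sq_nonneg _)
  linarith [H.gr]

theorem ys_eq (H : C.Ok) {z : ℝ} (h : C.μ * z + C.η = 0) : z = -C.η / C.μ := by
  by_cases hμ : C.μ = 0
  · rw [hμ, zero_mul, zero_add] at h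
    rcases H.nz with h1 | h1
    · exact absurd hμ h1
    · exact absurd h h1
  · field_simp
    linarith

theorem zero_E {z : ℝ} (h : C.E z = 0) : z = C.y1 ∨ z = C.y2 ∨ z = C.y3 ∨
    C.μ * z + C.η = 0 := by
  unfold E at h
  rcases mul_eq_zero.1 h with h | h
  · rcases mul_eq_zero.1 h with h | h
    · rcases mul_eq_zero.1 h with h | h
      · left; linarith
      · right; left; linarith
    · right; right; left; linarith
  · right; right; right; exact h

theorem zero_l (H : C.Ok) {z : ℝ} (h : C.l z = 0) : z = C.r := by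
  unfold l at h
  have := (mul_eq_zero.1 h).resolve_left H.hα.ne
  linarith

theorem zero_f (H : C.Ok) {z : ℝ} (h : C.f z = 0) : z = C.y1 ∨ z = C.y2 ∨ z = C.y3 ∨
    C.μ * z + C.η = 0 ∨ C.s z = 0 ∨ z = C.r := by
  unfold f at h
  rcases mul_eq_zero.1 h with h | h
  · rcases mul_eq_zero.1 h with h | h
    · rcases zero_E h with h | h | h | h
      · exact Or.inl h
      · exact Or.inr (Or.inl h)
      · exact Or.inr (Or.inr (Or.inl h))
      · exact Or.inr (Or.inr (Or.inr (Or.inl h)))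
    · exact Or.inr (Or.inr (Or.inr (Or.inr (Or.inl h))))
  · exact Or.inr (Or.inr (Or.inr (Or.inr (Or.inr (H.zero_l h)))))

theorem dn1 (H : C.Ok) : Down C.f C.y1 := by
  refine down_of_factor (F := fun x => (x - C.y2) * (x - C.y3) * (C.μ * x + C.η) *
    (C.s x * C.l x)) (fun x => ?_) ?_ H.st1
  · unfold f E; ring
  · have := continuous_s (C := C); have := continuous_l (C := C); fun_prop

theorem dn2 (H : C.Ok) : Down C.f C.y2 := by
  refine down_of_factor (F := fun x => (x - C.y1) * (x - C.y3) * (C.μ * x + C.η) *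
    (C.s x * C.l x)) (fun x => ?_) ?_ H.st2
  · unfold f E; ring
  · have := continuous_s (C := C); have := continuous_l (C := C); fun_prop

theorem dn3 (h3 : (C.y3 - C.y1) * (C.y3 - C.y2) * (C.μ * C.y3 + C.η) *
    (C.s C.y3 * C.l C.y3) < 0) : Down C.f C.y3 := by
  refine down_of_factor (F := fun x => (x - C.y1) * (x - C.y2) * (C.μ * x + C.η) *
    (C.s x * C.l x)) (fun x => ?_) ?_ h3
  · unfold f E; ring
  · have := continuous_s (C := C); have := continuous_l (C := C); fun_prop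

/-- `r` is a down crossing if `E(r) < 0`, `s(r) < 0`. -/
theorem dnr (H : C.Ok) (hE : C.E C.r < 0) (hs : C.s C.r < 0) : Down C.f C.r := by
  refine down_of_factor (F := fun x => C.α * (C.E x * C.s x)) (fun x => ?_) ?_ ?_
  · unfold f l; ring
  · have := continuous_s (C := C); have := continuous_E (C := C); fun_prop
  · exact mul_neg_of_neg_of_pos H.hα (mul_pos_of_neg_of_neg hE hs)

theorem r_ne1 (H : C.Ok) : C.r ≠ C.y1 := fun h => H.l1 (by unfold l; rw [← h]; ring)
theorem r_ne2 (H : C.Ok) : C.r ≠ C.y2 := fun h => H.l2 (by unfold l; rw [← h]; ring)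
theorem r_ne3 (H : C.Ok) : C.r ≠ C.y3 := fun h => H.l3 (by unfold l; rw [← h]; ring)

/-- Lemma A: all zeros of `s` are harmless and one of them is a down crossing. -/
theorem lemA (H : C.Ok) (h3 : (C.y3 - C.y1) * (C.y3 - C.y2) * (C.μ * C.y3 + C.η) *
    (C.s C.y3 * C.l C.y3) < 0) {σ : ℝ} (hσ : C.s σ = 0) (hd : Down C.f σ)
    (hz : ∀ z, C.s z = 0 → Down C.f z ∨ z = C.r ∨ C.μ * z + C.η = 0) : False := by
  classical
  have hD : ({C.y1, C.y2, C.y3, σ} : Finset ℝ).card = 4 :=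
    card4 H.n12 H.n13 (fun h => H.s_y1 (h ▸ hσ)) H.n23 (fun h => H.s_y2 (h ▸ hσ))
      (fun h => s_y3 h3 (h ▸ hσ))
  have h1 := count1 (f := C.f) continuous_f (U := {-C.η / C.μ, C.r})
    (D := {C.y1, C.y2, C.y3, σ}) ?_ ?_ ⟨C.y1, by simp⟩
  · have := card_le2 (-C.η / C.μ) C.r
    omega
  · intro z hz0 hnd
    simp only [Finset.mem_insert, Finset.mem_singleton]
    rcases H.zero_f hz0 with h | h | h | h | h | h
    · exact absurd (h ▸ H.dn1) hnd
    · exact absurd (h ▸ H.dn2) hnd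
    · exact absurd (h ▸ dn3 h3) hnd
    · exact Or.inl (H.ys_eq h)
    · rcases hz z h with h | h | h
      · exact absurd h hnd
      · exact Or.inr h
      · exact Or.inl (H.ys_eq h)
    · exact Or.inr h
  · intro d hd'
    simp only [Finset.mem_insert, Finset.mem_singleton] at hd'
    rcases hd' with h | h | h | h
    · exact h ▸ H.dn1
    · exact h ▸ H.dn2
    · exact h ▸ dn3 h3
    · exact h ▸ hd

theorem ends7 (H : C.Ok) {σ1 σ2 : ℝ} (hs : ∀ x, C.s x = C.s2 * ((x - σ1) * (x - σ2)))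
    (h2 : C.s2 < 0) (hμ : 0 < C.μ) (D : Finset ℝ) :
    (∃ a0, C.f a0 < 0 ∧ ∀ d ∈ D, a0 < d) ∧ (∃ b0, 0 < C.f b0 ∧ ∀ d ∈ D, d < b0) := by
  refine ends_odd (n := 7) (by decide) (f := C.f) (k := C.μ * (C.s2 * C.α))
    (mul_pos hμ (mul_pos_of_neg_of_neg h2 H.hα))
    ![C.y1, C.y2, C.y3, -C.η / C.μ, σ1, σ2, C.r] ?_ D
  intro x
  unfold f E l
  rw [hs]
  simp only [Fin.prod_univ_succ, Fin.prod_univ_zero, Matrix.cons_val_zero, Matrix.cons_val_succ]
  field_simp
  ring

/-- Lemma B. -/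
theorem lemB (H : C.Ok) (h3 : (C.y3 - C.y1) * (C.y3 - C.y2) * (C.μ * C.y3 + C.η) *
    (C.s C.y3 * C.l C.y3) < 0) {σd σu : ℝ}
    (hs : ∀ x, C.s x = C.s2 * ((x - σd) * (x - σu)))
    (h2 : C.s2 < 0) (hd : Down C.f σd) (hsr : C.s C.r < 0) : False := by
  classical
  have hσ : C.s σd = 0 := by rw [hs]; ring
  have hz : ∀ z, C.s z = 0 → z = σd ∨ z = σu := by
    intro z h
    rw [hs] at h
    rcases mul_eq_zero.1 ((mul_eq_zero.1 h).resolve_left h2.ne) with h | h
    · left; linarith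
    · right; linarith
  have hD : ({C.y1, C.y2, C.y3, σd} : Finset ℝ).card = 4 :=
    card4 H.n12 H.n13 (fun h => H.s_y1 (h ▸ hσ)) H.n23 (fun h => H.s_y2 (h ▸ hσ))
      (fun h => s_y3 h3 (h ▸ hσ))
  by_cases hμ : 0 < C.μ
  · obtain ⟨e1, e2⟩ := H.ends7 hs h2 hμ {C.y1, C.y2, C.y3, σd}
    have h1 := count2 (f := C.f) continuous_f (U := {-C.η / C.μ, C.r, σu})
      (D := {C.y1, C.y2, C.y3, σd}) ?_ ?_ ⟨C.y1, by simp⟩ e1 e2
    · have := card_le3 (-C.η / C.μ) C.r σu
      omega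
    · intro z hz0 hnd
      simp only [Finset.mem_insert, Finset.mem_singleton]
      rcases H.zero_f hz0 with h | h | h | h | h | h
      · exact absurd (h ▸ H.dn1) hnd
      · exact absurd (h ▸ H.dn2) hnd
      · exact absurd (h ▸ dn3 h3) hnd
      · exact Or.inl (H.ys_eq h)
      · rcases hz z h with h | h
        · exact absurd (h ▸ hd) hnd
        · exact Or.inr (Or.inr h)
      · exact Or.inr (Or.inl h)
    · intro d hd'
      simp only [Finset.mem_insert, Finset.mem_singleton] at hd'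
      rcases hd' with h | h | h | h
      · exact h ▸ H.dn1
      · exact h ▸ H.dn2
      · exact h ▸ dn3 h3
      · exact h ▸ hd
  · push Not at hμ
    have hr := H.dnr (H.Er hμ) hsr
    have hD5 : ({C.y1, C.y2, C.y3, σd, C.r} : Finset ℝ).card = 5 :=
      card5 H.n12 H.n13 (fun h => H.s_y1 (h ▸ hσ)) H.r_ne1.symm H.n23 (fun h => H.s_y2 (h ▸ hσ))
        H.r_ne2.symm (fun h => s_y3 h3 (h ▸ hσ)) H.r_ne3.symm
        (fun h => by rw [← h, hσ] at hsr; exact lt_irrefl _ hsr)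
    have h1 := count1 (f := C.f) continuous_f (U := {-C.η / C.μ, σu})
      (D := {C.y1, C.y2, C.y3, σd, C.r}) ?_ ?_ ⟨C.y1, by simp⟩
    · have := card_le2 (-C.η / C.μ) σu
      omega
    · intro z hz0 hnd
      simp only [Finset.mem_insert, Finset.mem_singleton]
      rcases H.zero_f hz0 with h | h | h | h | h | h
      · exact absurd (h ▸ H.dn1) hnd
      · exact absurd (h ▸ H.dn2) hnd
      · exact absurd (h ▸ dn3 h3) hnd
      · exact Or.inl (H.ys_eq h)
      · rcases hz z h with h | h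
        · exact absurd (h ▸ hd) hnd
        · exact Or.inr h
      · exact absurd (h ▸ hr) hnd
    · intro d hd'
      simp only [Finset.mem_insert, Finset.mem_singleton] at hd'
      rcases hd' with h | h | h | h | h
      · exact h ▸ H.dn1
      · exact h ▸ H.dn2
      · exact h ▸ dn3 h3
      · exact h ▸ hd
      · exact h ▸ hr

/-- Lemma C: `s(y3) = 0`. -/
theorem lemC (H : C.Ok) {σd : ℝ}
    (hs : ∀ x, C.s x = C.s2 * ((x - σd) * (x - C.y3)))
    (h2 : C.s2 < 0) (hd : Down C.f σd) (hsr : C.s C.r < 0) : False := by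
  classical
  have hσ : C.s σd = 0 := by rw [hs]; ring
  have hz : ∀ z, C.s z = 0 → z = σd ∨ z = C.y3 := by
    intro z h
    rw [hs] at h
    rcases mul_eq_zero.1 ((mul_eq_zero.1 h).resolve_left h2.ne) with h | h
    · left; linarith
    · right; linarith
  have hD : ({C.y1, C.y2, σd} : Finset ℝ).card = 3 :=
    card3 H.n12 (fun h => H.s_y1 (h ▸ hσ)) (fun h => H.s_y2 (h ▸ hσ))
  by_cases hμ : 0 < C.μ
  · obtain ⟨e1, e2⟩ := H.ends7 hs h2 hμ {C.y1, C.y2, σd}
    have h1 := count2 (f := C.f) continuous_f (U := {-C.η / C.μ, C.r, C.y3})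
      (D := {C.y1, C.y2, σd}) ?_ ?_ ⟨C.y1, by simp⟩ e1 e2
    · have := card_le3 (-C.η / C.μ) C.r C.y3
      omega
    · intro z hz0 hnd
      simp only [Finset.mem_insert, Finset.mem_singleton]
      rcases H.zero_f hz0 with h | h | h | h | h | h
      · exact absurd (h ▸ H.dn1) hnd
      · exact absurd (h ▸ H.dn2) hnd
      · exact Or.inr (Or.inr h)
      · exact Or.inl (H.ys_eq h)
      · rcases hz z h with h | h
        · exact absurd (h ▸ hd) hnd
        · exact Or.inr (Or.inr h)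
      · exact Or.inr (Or.inl h)
    · intro d hd'
      simp only [Finset.mem_insert, Finset.mem_singleton] at hd'
      rcases hd' with h | h | h
      · exact h ▸ H.dn1
      · exact h ▸ H.dn2
      · exact h ▸ hd
  · push Not at hμ
    have hr := H.dnr (H.Er hμ) hsr
    have hD5 : ({C.y1, C.y2, σd, C.r} : Finset ℝ).card = 4 :=
      card4 H.n12 (fun h => H.s_y1 (h ▸ hσ)) H.r_ne1.symm (fun h => H.s_y2 (h ▸ hσ))
        H.r_ne2.symm (fun h => by rw [← h, hσ] at hsr; exact lt_irrefl _ hsr)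
    have h1 := count1 (f := C.f) continuous_f (U := {-C.η / C.μ, C.y3})
      (D := {C.y1, C.y2, σd, C.r}) ?_ ?_ ⟨C.y1, by simp⟩
    · have := card_le2 (-C.η / C.μ) C.y3
      omega
    · intro z hz0 hnd
      simp only [Finset.mem_insert, Finset.mem_singleton]
      rcases H.zero_f hz0 with h | h | h | h | h | h
      · exact absurd (h ▸ H.dn1) hnd
      · exact absurd (h ▸ H.dn2) hnd
      · exact Or.inr h
      · exact Or.inl (H.ys_eq h)
      · rcases hz z h with h | h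
        · exact absurd (h ▸ hd) hnd
        · exact Or.inr h
      · exact absurd (h ▸ hr) hnd
    · intro d hd'
      simp only [Finset.mem_insert, Finset.mem_singleton] at hd'
      rcases hd' with h | h | h | h
      · exact h ▸ H.dn1
      · exact h ▸ H.dn2
      · exact h ▸ hd
      · exact h ▸ hr

theorem E_of_s (H : C.Ok) {z : ℝ} (h : C.s z = 0) : C.E z = C.g z := by
  rw [H.hE, h]; ring

theorem E_y3 : C.E C.y3 = 0 := by unfold E; ring

/-- If `s(y3) = 0` then `y3 = xs`. -/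
theorem y3_xs (H : C.Ok) (h : C.s C.y3 = 0) : C.y3 = C.xs := by
  have h1 : C.g C.y3 = 0 := by rw [← H.E_of_s h, E_y3]
  unfold g at h1
  have h2 := (mul_eq_zero.1 h1).resolve_left H.hγ.ne'
  rcases mul_eq_zero.1 h2 with h3 | h3
  · rcases mul_eq_zero.1 h3 with h4 | h4
    · rcases mul_eq_zero.1 h4 with h5 | h5
      · have : C.y3 = C.x1 := by linarith
        rw [this] at h; exact absurd h H.hs1.ne
      · have : C.y3 = C.x2 := by linarith
        rw [this] at h; exact absurd h H.hs2.ne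
    · have : C.y3 = C.x3 := by linarith
      rw [this] at h; exact absurd h H.hs3.ne
  · linarith

theorem hasDerivAt_s (x : ℝ) : HasDerivAt C.s (C.s' x) x := by
  have h1 : HasDerivAt (fun x : ℝ => C.s0 + C.s1 * x + C.s2 * x ^ 2)
      (0 + C.s1 * 1 + C.s2 * (((2:ℕ):ℝ) * x ^ 1 * 1)) x :=
    ((((hasDerivAt_const x C.s0).add ((hasDerivAt_id x).const_mul C.s1)))).add
      (((hasDerivAt_id x).pow 2).const_mul C.s2)
  refine HasDerivAt.congr_deriv h1 ?_
  unfold s'
  push_cast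
  ring

/-- Lemma I: the case `s ≤ 0`. -/
theorem lemI (H : C.Ok) (hs : ∀ x, C.s x ≤ 0) : False := by
  classical
  obtain ⟨f1, hf1⟩ : ∃ f1 : ℝ → ℝ, f1 = fun x => -(C.E x * C.l x) := ⟨_, rfl⟩
  have hf1' : ∀ x, f1 x = -(C.E x * C.l x) := fun x => by rw [hf1]
  have cs := continuous_s (C := C)
  have cl := continuous_l (C := C)
  have cE := continuous_E (C := C)
  have hc : Continuous f1 := by rw [hf1]; fun_prop
  have aux : ∀ {A z : ℝ}, C.s z ≠ 0 → A * (C.s z * C.l z) < 0 → -(A * C.l z) < 0 := by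
    intro A z h0 h1
    have h2 : C.s z < 0 := lt_of_le_of_ne (hs z) h0
    by_contra hcon
    push Not at hcon
    have h3 : A * C.l z ≤ 0 := by linarith
    have h4 := mul_nonneg_of_nonpos_of_nonpos h2.le h3
    have h5 : C.s z * (A * C.l z) = A * (C.s z * C.l z) := by ring
    linarith
  have d1 : Down f1 C.y1 := by
    refine down_of_factor (F := fun x => -((x - C.y2) * (x - C.y3) * (C.μ * x + C.η) *
      C.l x)) (fun x => ?_) ?_ (aux H.s_y1 H.st1)
    · rw [hf1']; unfold E; ring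
    · fun_prop
  have d2 : Down f1 C.y2 := by
    refine down_of_factor (F := fun x => -((x - C.y1) * (x - C.y3) * (C.μ * x + C.η) *
      C.l x)) (fun x => ?_) ?_ (aux H.s_y2 H.st2)
    · rw [hf1']; unfold E; ring
    · fun_prop
  have d3 : Down f1 C.y3 := by
    rcases H.st3 with h | h
    · have hxs := H.y3_xs h
      have hs' : C.s' C.y3 = 0 := by
        have h1 : IsLocalMax C.s C.y3 := Eventually.of_forall fun x => by
          rw [h]; exact hs x
        exact h1.hasDerivAt_eq_zero (hasDerivAt_s C.y3)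
      have e1 : ∀ x, C.s x = C.s2 * (x - C.y3) ^ 2 := by
        intro x
        have e2 : C.s x = C.s C.y3 + (x - C.y3) * C.s' C.y3 + C.s2 * (x - C.y3) ^ 2 := by
          unfold s s'; ring
        rw [e2, h, hs']; ring
      have e2 : ∀ x, C.s' x = 2 * C.s2 * (x - C.y3) := by
        intro x
        have : C.s' x = C.s' C.y3 + 2 * C.s2 * (x - C.y3) := by unfold s'; ring
        rw [this, hs']; ring
      refine down_of_factor (F := fun x => -((C.γ * ((x - C.x1) * (x - C.x2) * (x - C.x3)) +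
        C.κ * C.s2 ^ 2 * (x - C.y3) ^ 3 - 2 * C.s2 ^ 2 * (x - C.y3) ^ 2 * C.l x) *
        C.l x)) (fun x => ?_) ?_ ?_
      · rw [hf1', H.hE, e1, e2]
        unfold g
        rw [hxs]
        ring
      · fun_prop
      · have := H.glxs
        rw [hxs]
        simp only [sub_self, ne_eq, OfNat.ofNat_ne_zero, not_false_eq_true, zero_pow, mul_zero,
          zero_mul, add_zero, sub_zero]
        linarith
    · refine down_of_factor (F := fun x => -((x - C.y1) * (x - C.y2) * (C.μ * x + C.η) *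
        C.l x)) (fun x => ?_) ?_ (aux (s_y3 h) h)
      · rw [hf1']; unfold E; ring
      · fun_prop
  have hz : ∀ z, f1 z = 0 → z = C.y1 ∨ z = C.y2 ∨ z = C.y3 ∨ C.μ * z + C.η = 0 ∨ z = C.r := by
    intro z h
    rw [hf1'] at h
    have h0 : C.E z * C.l z = 0 := by linarith
    rcases mul_eq_zero.1 h0 with h | h
    · rcases zero_E h with h | h | h | h
      · exact Or.inl h
      · exact Or.inr (Or.inl h)
      · exact Or.inr (Or.inr (Or.inl h))
      · exact Or.inr (Or.inr (Or.inr (Or.inl h)))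
    · exact Or.inr (Or.inr (Or.inr (Or.inr (H.zero_l h))))
  by_cases hμ : 0 < C.μ
  · have hD : ({C.y1, C.y2, C.y3} : Finset ℝ).card = 3 := card3 H.n12 H.n13 H.n23
    obtain ⟨e1, e2⟩ := ends_odd (n := 5) (by decide) (f := f1) (k := C.μ * (-C.α))
      (mul_pos hμ (by linarith [H.hα])) ![C.y1, C.y2, C.y3, -C.η / C.μ, C.r] (by
        intro x
        rw [hf1']
        unfold E l
        simp only [Fin.prod_univ_succ, Fin.prod_univ_zero, Matrix.cons_val_zero,
          Matrix.cons_val_succ]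
        field_simp
        ring) {C.y1, C.y2, C.y3}
    have h1 := count2 (f := f1) hc (U := {-C.η / C.μ, C.r})
      (D := {C.y1, C.y2, C.y3}) ?_ ?_ ⟨C.y1, by simp⟩ e1 e2
    · have := card_le2 (-C.η / C.μ) C.r
      omega
    · intro z hz0 hnd
      simp only [Finset.mem_insert, Finset.mem_singleton]
      rcases hz z hz0 with h | h | h | h | h
      · exact absurd (h ▸ d1) hnd
      · exact absurd (h ▸ d2) hnd
      · exact absurd (h ▸ d3) hnd
      · exact Or.inl (H.ys_eq h)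
      · exact Or.inr h
    · intro d hd'
      simp only [Finset.mem_insert, Finset.mem_singleton] at hd'
      rcases hd' with h | h | h
      · exact h ▸ d1
      · exact h ▸ d2
      · exact h ▸ d3
  · push Not at hμ
    have hr : Down f1 C.r := by
      refine down_of_factor (F := fun x => -C.α * C.E x) (fun x => ?_) ?_ ?_
      · rw [hf1']; unfold l; ring
      · fun_prop
      · exact mul_neg_of_pos_of_neg (by linarith [H.hα]) (H.Er hμ)
    have hD : ({C.y1, C.y2, C.y3, C.r} : Finset ℝ).card = 4 :=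
      card4 H.n12 H.n13 H.r_ne1.symm H.n23 H.r_ne2.symm H.r_ne3.symm
    have h1 := count1 (f := f1) hc (U := {-C.η / C.μ})
      (D := {C.y1, C.y2, C.y3, C.r}) ?_ ?_ ⟨C.y1, by simp⟩
    · have : ({-C.η / C.μ} : Finset ℝ).card = 1 := Finset.card_singleton _
      omega
    · intro z hz0 hnd
      simp only [Finset.mem_singleton]
      rcases hz z hz0 with h | h | h | h | h
      · exact absurd (h ▸ d1) hnd
      · exact absurd (h ▸ d2) hnd
      · exact absurd (h ▸ d3) hnd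
      · exact H.ys_eq h
      · exact absurd (h ▸ hr) hnd
    · intro d hd'
      simp only [Finset.mem_insert, Finset.mem_singleton] at hd'
      rcases hd' with h | h | h | h
      · exact h ▸ d1
      · exact h ▸ d2
      · exact h ▸ d3
      · exact h ▸ hr

/-- real roots of `s` -/
theorem exists_roots (h2 : C.s2 ≠ 0) {x0 : ℝ} (h : C.s2 * C.s x0 < 0) :
    ∃ σ1 σ2 : ℝ, σ1 < σ2 ∧ ∀ x, C.s x = C.s2 * ((x - σ1) * (x - σ2)) := by
  obtain ⟨Δ, hΔ⟩ : ∃ Δ, Δ = C.s1 ^ 2 - 4 * C.s2 * C.s0 := ⟨_, rfl⟩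
  have hpos : 0 < Δ := by
    have e : Δ = (2 * C.s2 * x0 + C.s1) ^ 2 - 4 * (C.s2 * C.s x0) := by
      rw [hΔ]; unfold s; ring
    have := sq_nonneg (2 * C.s2 * x0 + C.s1)
    linarith
  obtain ⟨ρ, hρ⟩ : ∃ ρ, ρ = Real.sqrt Δ / (2 * |C.s2|) := ⟨_, rfl⟩
  have habs : 0 < |C.s2| := abs_pos.2 h2
  have hρpos : 0 < ρ := by
    rw [hρ]
    have := Real.sqrt_pos.2 hpos
    positivity
  have hρ2 : 4 * C.s2 ^ 2 * ρ ^ 2 = Δ := by
    rw [hρ, div_pow, Real.sq_sqrt hpos.le, mul_pow, sq_abs]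
    field_simp
    ring
  refine ⟨-C.s1 / (2 * C.s2) - ρ, -C.s1 / (2 * C.s2) + ρ, by linarith, fun x => ?_⟩
  have e1 : C.s2 * ((x - (-C.s1 / (2 * C.s2) - ρ)) * (x - (-C.s1 / (2 * C.s2) + ρ))) =
      C.s2 * ((x + C.s1 / (2 * C.s2)) ^ 2 - ρ ^ 2) := by ring
  rw [e1]
  have e2 : ρ ^ 2 = Δ / (4 * C.s2 ^ 2) := by
    rw [← hρ2]; field_simp
  rw [e2, hΔ]
  unfold s
  field_simp
  ring

theorem dnσ (H : C.Ok) {σ : ℝ} {sb : ℝ → ℝ} (hs : ∀ x, C.s x = (x - σ) * sb x)
    (hc : Continuous sb) (hneg : C.g σ * C.l σ * sb σ < 0) : Down C.f σ := by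
  have h0 : C.s σ = 0 := by rw [hs]; ring
  refine down_of_factor (F := fun x => C.E x * sb x * C.l x) (fun x => ?_) ?_ ?_
  · unfold f; rw [hs]; ring
  · have := continuous_E (C := C); have := continuous_l (C := C); fun_prop
  · have e : C.E σ * sb σ * C.l σ = C.g σ * C.l σ * sb σ := by rw [H.E_of_s h0]; ring
    rw [e]; exact hneg

theorem dnσ1 (H : C.Ok) {σ1 σ2 : ℝ} (hs : ∀ x, C.s x = C.s2 * ((x - σ1) * (x - σ2)))
    (h2 : C.s2 < 0) (h12 : σ1 < σ2) (hq : C.g σ1 * C.l σ1 < 0) : Down C.f σ1 := by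
  refine H.dnσ (sb := fun x => C.s2 * (x - σ2)) (fun x => by rw [hs]; ring) (by fun_prop) ?_
  exact mul_neg_of_neg_of_pos hq (mul_pos_of_neg_of_neg h2 (by linarith))

theorem dnσ2 (H : C.Ok) {σ1 σ2 : ℝ} (hs : ∀ x, C.s x = C.s2 * ((x - σ1) * (x - σ2)))
    (h2 : C.s2 < 0) (h12 : σ1 < σ2) (hq : 0 < C.g σ2 * C.l σ2) : Down C.f σ2 := by
  refine H.dnσ (sb := fun x => C.s2 * (x - σ1)) (fun x => by rw [hs]; ring) (by fun_prop) ?_
  exact mul_neg_of_pos_of_neg hq (mul_neg_of_neg_of_pos h2 (by linarith))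

theorem sneg {σ1 σ2 : ℝ} (hs : ∀ x, C.s x = C.s2 * ((x - σ1) * (x - σ2)))
    (h2 : C.s2 < 0) (h12 : σ1 < σ2) {z : ℝ} (hz : z < σ1 ∨ σ2 < z) : C.s z < 0 := by
  rw [hs]
  rcases hz with h | h
  · exact mul_neg_of_neg_of_pos h2 (mul_pos_of_neg_of_neg (by linarith) (by linarith))
  · exact mul_neg_of_neg_of_pos h2 (mul_pos (by linarith) (by linarith))

theorem szero {σ1 σ2 : ℝ} (hs : ∀ x, C.s x = C.s2 * ((x - σ1) * (x - σ2)))
    (h2 : C.s2 ≠ 0) {z : ℝ} (hz : C.s z = 0) : z = σ1 ∨ z = σ2 := by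
  rw [hs] at hz
  rcases mul_eq_zero.1 ((mul_eq_zero.1 hz).resolve_left h2) with h | h
  · left; linarith
  · right; linarith

/-- If `s(xs) ≠ 0` the third centre is of the first kind. -/
theorem strict3 (H : C.Ok) (h : C.s C.xs ≠ 0) : (C.y3 - C.y1) * (C.y3 - C.y2) *
    (C.μ * C.y3 + C.η) * (C.s C.y3 * C.l C.y3) < 0 := by
  rcases H.st3 with h1 | h1
  · exfalso
    have h2 := H.y3_xs h1
    rw [h2] at h1
    exact h h1
  · exact h1

/-- If `s(xs) = 0` and all `s(y_i) ≠ 0`, then `μ xs + η = 0`. -/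
theorem xs_zero (H : C.Ok) (h : C.s C.xs = 0) (h3 : C.s C.y3 ≠ 0) :
    C.μ * C.xs + C.η = 0 := by
  have h1 : C.E C.xs = 0 := by
    rw [H.E_of_s h]; unfold g; ring
  rcases zero_E h1 with h4 | h4 | h4 | h4
  · rw [h4] at h; exact absurd h H.s_y1
  · rw [h4] at h; exact absurd h H.s_y2
  · rw [h4] at h; exact absurd h h3
  · exact h4

theorem gap (H : C.Ok) {σ1 σ2 lo w hi : ℝ} (hs : ∀ x, C.s x = C.s2 * ((x - σ1) * (x - σ2)))
    (h2 : C.s2 < 0) (h12 : σ1 < σ2) (hlo : lo < σ1) (hhi : σ2 < hi)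
    (hq1 : ∀ z, lo < z → z < w → C.g z * C.l z < 0)
    (hq2 : ∀ z, w < z → z < hi → 0 < C.g z * C.l z)
    (hcase : (C.r = w ∧ (C.xs ≤ lo ∨ hi ≤ C.xs)) ∨ (C.xs = w ∧ (C.r ≤ lo ∨ hi ≤ C.r))) :
    False := by
  have hs' : ∀ x, C.s x = C.s2 * ((x - σ2) * (x - σ1)) := fun x => by rw [hs]; ring
  have hout : ∀ z, (z ≤ lo ∨ hi ≤ z) → C.s z < 0 := by
    intro z hz
    apply sneg hs h2 h12
    rcases hz with h | h
    · left; linarith
    · right; linarith
  rcases lt_trichotomy σ2 w with h | h | h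
  · -- `σ2 < w`
    have hw : C.s w < 0 := sneg hs h2 h12 (Or.inr h)
    have d := H.dnσ1 hs h2 h12 (hq1 σ1 hlo (h12.trans h))
    rcases hcase with ⟨h3, h4⟩ | ⟨h3, h4⟩
    · exact H.lemB (H.strict3 (hout _ h4).ne) hs h2 d (by rw [h3]; exact hw)
    · exact H.lemB (H.strict3 (by rw [h3]; exact hw.ne)) hs h2 d (hout _ h4)
  · -- `σ2 = w`
    have d := H.dnσ1 hs h2 h12 (hq1 σ1 hlo (by linarith))
    have hw : C.s w = 0 := by rw [hs, h]; ring
    rcases hcase with ⟨h3, h4⟩ | ⟨h3, h4⟩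
    · refine H.lemA (H.strict3 (hout _ h4).ne) (σ := σ1) (by rw [hs]; ring) d ?_
      intro z hz
      rcases szero hs h2.ne hz with h5 | h5
      · left; rw [h5]; exact d
      · right; left; rw [h5, h3, h]
    · rcases H.st3 with h5 | h5
      · have h6 := H.y3_xs h5
        refine H.lemC (σd := σ1) (fun x => ?_) h2 d (hout _ h4)
        rw [hs, h6, h3, h]
      · refine H.lemA h5 (σ := σ1) (by rw [hs]; ring) d ?_
        intro z hz
        rcases szero hs h2.ne hz with h7 | h7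
        · left; rw [h7]; exact d
        · right; right
          have h8 : z = C.xs := by rw [h7, h, h3]
          rw [h8]
          exact H.xs_zero (by rw [h3]; exact hw) (s_y3 h5)
  · -- `w < σ2`
    have d2 := H.dnσ2 hs h2 h12 (hq2 σ2 h hhi)
    rcases lt_trichotomy w σ1 with h' | h' | h'
    · have hw : C.s w < 0 := sneg hs h2 h12 (Or.inl h')
      rcases hcase with ⟨h3, h4⟩ | ⟨h3, h4⟩
      · exact H.lemB (H.strict3 (hout _ h4).ne) hs' h2 d2 (by rw [h3]; exact hw)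
      · exact H.lemB (H.strict3 (by rw [h3]; exact hw.ne)) hs' h2 d2 (hout _ h4)
    · have hw : C.s w = 0 := by rw [hs, h']; ring
      rcases hcase with ⟨h3, h4⟩ | ⟨h3, h4⟩
      · refine H.lemA (H.strict3 (hout _ h4).ne) (σ := σ2) (by rw [hs]; ring) d2 ?_
        intro z hz
        rcases szero hs h2.ne hz with h5 | h5
        · right; left; rw [h5, h3, h']
        · left; rw [h5]; exact d2
      · rcases H.st3 with h5 | h5
        · have h6 := H.y3_xs h5
          refine H.lemC (σd := σ2) (fun x => ?_) h2 d2 (hout _ h4)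
          rw [hs', h6, h3, h']
        · refine H.lemA h5 (σ := σ2) (by rw [hs]; ring) d2 ?_
          intro z hz
          rcases szero hs h2.ne hz with h7 | h7
          · right; right
            have h8 : z = C.xs := by rw [h7, ← h', h3]
            rw [h8]
            exact H.xs_zero (by rw [h3]; exact hw) (s_y3 h5)
          · left; rw [h7]; exact d2
    · -- `σ1 < w < σ2`
      have d1 := H.dnσ1 hs h2 h12 (hq1 σ1 hlo h')
      have hw : 0 < C.s w := by
        rw [hs]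
        exact mul_pos_of_neg_of_neg h2 (mul_neg_of_pos_of_neg (by linarith) (by linarith))
      have hne : C.s C.xs ≠ 0 := by
        rcases hcase with ⟨h3, h4⟩ | ⟨h3, h4⟩
        · exact (hout _ h4).ne
        · rw [h3]; exact hw.ne'
      refine H.lemA (H.strict3 hne) (σ := σ1) (by rw [hs]; ring) d1 ?_
      intro z hz
      rcases szero hs h2.ne hz with h5 | h5
      · left; rw [h5]; exact d1
      · left; rw [h5]; exact d2

theorem g_left (H : C.Ok) {z : ℝ} (h : z < C.x1) : 0 < C.g z := by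
  have h2 : z < C.x2 := h.trans H.h12
  have h3 : z < C.x3 := h2.trans H.h23
  have h4 : z < C.xs := h.trans H.x1s
  unfold g
  have e : (z - C.x1) * (z - C.x2) * (z - C.x3) * (z - C.xs) =
    (C.x1 - z) * (C.x2 - z) * (C.x3 - z) * (C.xs - z) := by ring
  rw [e]
  exact mul_pos H.hγ (mul_pos (mul_pos (mul_pos (sub_pos.2 h) (sub_pos.2 h2)) (sub_pos.2 h3))
    (sub_pos.2 h4))

theorem g_right (H : C.Ok) {z : ℝ} (h : C.x3 < z) : 0 < C.g z := by
  have h2 : C.x2 < z := H.h23.trans h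
  have h3 : C.x1 < z := H.h12.trans h2
  have h4 : C.xs < z := H.sx3.trans h
  unfold g
  exact mul_pos H.hγ (mul_pos (mul_pos (mul_pos (sub_pos.2 h3) (sub_pos.2 h2)) (sub_pos.2 h))
    (sub_pos.2 h4))

theorem l_left (H : C.Ok) {z : ℝ} (h : z < C.x1) : 0 < C.l z := by
  unfold l
  exact mul_pos_of_neg_of_neg H.hα (by linarith [H.x1r])

theorem l_right (H : C.Ok) {z : ℝ} (h : C.x3 < z) : C.l z < 0 := by
  unfold l
  exact mul_neg_of_neg_of_pos H.hα (by linarith [H.rx3])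

/-- The case of linear `s`. -/
theorem lin (H : C.Ok) (h2 : C.s2 = 0) {x0 : ℝ} (hx0 : 0 < C.s x0) : False := by
  have hs1 : C.s1 ≠ 0 := by
    intro h
    have e1 : C.s x0 = C.s0 := by unfold s; rw [h, h2]; ring
    have e2 : C.s C.x1 = C.s0 := by unfold s; rw [h, h2]; ring
    have := H.hs1
    linarith
  obtain ⟨σ, hσ⟩ : ∃ σ, σ = -C.s0 / C.s1 := ⟨_, rfl⟩
  have hs : ∀ x, C.s x = C.s1 * (x - σ) := by
    intro x
    unfold s
    rw [hσ, h2]
    field_simp
    ring
  have a1 := H.hs1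
  have a3 := H.hs3
  rw [hs] at a1 a3
  have hz : ∀ z, C.s z = 0 → z = σ := by
    intro z h
    rw [hs] at h
    have := (mul_eq_zero.1 h).resolve_left hs1
    linarith
  rcases lt_or_gt_of_ne hs1 with h | h
  · have b1 : σ < C.x1 := by
      by_contra hcon
      push Not at hcon
      have := mul_nonneg_of_nonpos_of_nonpos h.le (show C.x1 - σ ≤ 0 by linarith)
      linarith
    have d : Down C.f σ := by
      refine H.dnσ (sb := fun _ => C.s1) (fun x => by rw [hs]; ring) continuous_const ?_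
      exact mul_neg_of_pos_of_neg (mul_pos (H.g_left b1) (H.l_left b1)) h
    refine H.lemA (H.strict3 ?_) (σ := σ) (by rw [hs]; ring) d ?_
    · intro h5
      have := hz _ h5
      linarith [H.x1s]
    · intro z h5
      left; rw [hz z h5]; exact d
  · have b1 : C.x3 < σ := by
      by_contra hcon
      push Not at hcon
      have := mul_nonneg h.le (show 0 ≤ C.x3 - σ by linarith)
      linarith
    have d : Down C.f σ := by
      refine H.dnσ (sb := fun _ => C.s1) (fun x => by rw [hs]; ring) continuous_const ?_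
      exact mul_neg_of_neg_of_pos (mul_neg_of_pos_of_neg (H.g_right b1) (H.l_right b1)) h
    refine H.lemA (H.strict3 ?_) (σ := σ) (by rw [hs]; ring) d ?_
    · intro h5
      have := hz _ h5
      linarith [H.sx3]
    · intro z h5
      left; rw [hz z h5]; exact d

/-- The case of convex `s`. -/
theorem conv (H : C.Ok) (h2 : 0 < C.s2) : False := by
  obtain ⟨σ1, σ2, h12, hs⟩ := exists_roots (C := C) h2.ne' (x0 := C.x1)
    (mul_neg_of_pos_of_neg h2 H.hs1)
  have key : ∀ z, C.s z < 0 → σ1 < z ∧ z < σ2 := by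
    intro z hz
    rw [hs] at hz
    constructor
    · by_contra hcon
      push Not at hcon
      have := mul_nonneg h2.le (mul_nonneg_of_nonpos_of_nonpos
        (show z - σ1 ≤ 0 by linarith) (show z - σ2 ≤ 0 by linarith))
      linarith
    · by_contra hcon
      push Not at hcon
      have := mul_nonneg h2.le (mul_nonneg
        (show 0 ≤ z - σ1 by linarith) (show 0 ≤ z - σ2 by linarith))
      linarith
  have k1 := (key _ H.hs1).1
  have k3 := (key _ H.hs3).2
  have d1 : Down C.f σ1 := by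
    refine H.dnσ (sb := fun x => C.s2 * (x - σ2)) (fun x => by rw [hs]; ring) (by fun_prop) ?_
    exact mul_neg_of_pos_of_neg (mul_pos (H.g_left k1) (H.l_left k1))
      (mul_neg_of_pos_of_neg h2 (by linarith))
  have d2 : Down C.f σ2 := by
    refine H.dnσ (sb := fun x => C.s2 * (x - σ1)) (fun x => by rw [hs]; ring) (by fun_prop) ?_
    exact mul_neg_of_neg_of_pos (mul_neg_of_pos_of_neg (H.g_right k3) (H.l_right k3))
      (mul_pos h2 (by linarith))
  refine H.lemA (H.strict3 ?_) (σ := σ1) (by rw [hs]; ring) d1 ?_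
  · intro h5
    rcases szero hs h2.ne' h5 with h6 | h6
    · linarith [H.x1s]
    · linarith [H.sx3]
  · intro z hz
    rcases szero hs h2.ne' hz with h5 | h5
    · left; rw [h5]; exact d1
    · left; rw [h5]; exact d2

/-- The case of concave `s` with a positive value. -/
theorem conc (H : C.Ok) (h2 : C.s2 < 0) {x0 : ℝ} (hx0 : 0 < C.s x0) : False := by
  obtain ⟨σ1, σ2, h12, hs⟩ := exists_roots (C := C) h2.ne (x0 := x0)
    (mul_neg_of_neg_of_pos h2 hx0)
  have hs' : ∀ x, C.s x = C.s2 * ((x - σ2) * (x - σ1)) := fun x => by rw [hs]; ring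
  have key : ∀ z, C.s z < 0 → z < σ1 ∨ σ2 < z := by
    intro z hz
    by_contra hcon
    push Not at hcon
    rw [hs] at hz
    have := mul_nonneg_of_nonpos_of_nonpos h2.le (mul_nonpos_of_nonneg_of_nonpos
      (show 0 ≤ z - σ1 by linarith) (show z - σ2 ≤ 0 by linarith))
    linarith
  -- the zeros of `g l`
  obtain ⟨w1, w2, a1, a2, a3, a4, hq, hw⟩ : ∃ w1 w2 : ℝ, C.x1 < w1 ∧ w1 < C.x2 ∧ C.x2 < w2 ∧
      w2 < C.x3 ∧ (∀ z, C.g z * C.l z = -(C.γ * (-C.α)) *
        ((z - C.x1) * (z - w1) * (z - C.x2) * (z - w2) * (z - C.x3))) ∧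
      ((C.r = w1 ∧ C.xs = w2) ∨ (C.r = w2 ∧ C.xs = w1)) := by
    rcases H.pat with ⟨b1, b2, b3, b4⟩ | ⟨b1, b2, b3, b4⟩
    · exact ⟨C.r, C.xs, b1, b2, b3, b4, fun z => by unfold g l; ring, Or.inl ⟨rfl, rfl⟩⟩
    · exact ⟨C.xs, C.r, b1, b2, b3, b4, fun z => by unfold g l; ring, Or.inr ⟨rfl, rfl⟩⟩
  have hk : 0 < C.γ * (-C.α) := mul_pos H.hγ (by linarith [H.hα])
  have c1 := H.h12
  have c2 := H.h23
  have q0 : ∀ z, z < C.x1 → 0 < C.g z * C.l z := by
    intro z hz
    have e : C.g z * C.l z = (C.γ * (-C.α)) * ((C.x1 - z) * (w1 - z) * (C.x2 - z) *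
      (w2 - z) * (C.x3 - z)) := by rw [hq]; ring
    rw [e]
    exact mul_pos hk (mul_pos (mul_pos (mul_pos (mul_pos (by linarith) (by linarith))
      (by linarith)) (by linarith)) (by linarith))
  have q1 : ∀ z, C.x1 < z → z < w1 → C.g z * C.l z < 0 := by
    intro z hz hz'
    have e : C.g z * C.l z = -((C.γ * (-C.α)) * ((z - C.x1) * (w1 - z) * (C.x2 - z) *
      (w2 - z) * (C.x3 - z))) := by rw [hq]; ring
    rw [e]
    have := mul_pos hk (mul_pos (mul_pos (mul_pos (mul_pos (show 0 < z - C.x1 by linarith)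
      (show 0 < w1 - z by linarith)) (show 0 < C.x2 - z by linarith))
      (show 0 < w2 - z by linarith)) (show 0 < C.x3 - z by linarith))
    linarith
  have q2 : ∀ z, w1 < z → z < C.x2 → 0 < C.g z * C.l z := by
    intro z hz hz'
    have e : C.g z * C.l z = (C.γ * (-C.α)) * ((z - C.x1) * (z - w1) * (C.x2 - z) *
      (w2 - z) * (C.x3 - z)) := by rw [hq]; ring
    rw [e]
    exact mul_pos hk (mul_pos (mul_pos (mul_pos (mul_pos (by linarith) (by linarith))
      (by linarith)) (by linarith)) (by linarith))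
  have q3 : ∀ z, C.x2 < z → z < w2 → C.g z * C.l z < 0 := by
    intro z hz hz'
    have e : C.g z * C.l z = -((C.γ * (-C.α)) * ((z - C.x1) * (z - w1) * (z - C.x2) *
      (w2 - z) * (C.x3 - z))) := by rw [hq]; ring
    rw [e]
    have := mul_pos hk (mul_pos (mul_pos (mul_pos (mul_pos (show 0 < z - C.x1 by linarith)
      (show 0 < z - w1 by linarith)) (show 0 < z - C.x2 by linarith))
      (show 0 < w2 - z by linarith)) (show 0 < C.x3 - z by linarith))
    linarith
  have q4 : ∀ z, w2 < z → z < C.x3 → 0 < C.g z * C.l z := by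
    intro z hz hz'
    have e : C.g z * C.l z = (C.γ * (-C.α)) * ((z - C.x1) * (z - w1) * (z - C.x2) *
      (z - w2) * (C.x3 - z)) := by rw [hq]; ring
    rw [e]
    exact mul_pos hk (mul_pos (mul_pos (mul_pos (mul_pos (by linarith) (by linarith))
      (by linarith)) (by linarith)) (by linarith))
  have q5 : ∀ z, C.x3 < z → C.g z * C.l z < 0 := by
    intro z hz
    have e : C.g z * C.l z = -((C.γ * (-C.α)) * ((z - C.x1) * (z - w1) * (z - C.x2) *
      (z - w2) * (z - C.x3))) := by rw [hq]; ring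
    rw [e]
    have := mul_pos hk (mul_pos (mul_pos (mul_pos (mul_pos (show 0 < z - C.x1 by linarith)
      (show 0 < z - w1 by linarith)) (show 0 < z - C.x2 by linarith))
      (show 0 < z - w2 by linarith)) (show 0 < z - C.x3 by linarith))
    linarith
  rcases key _ H.hs1 with k1 | k1
  · rcases key _ H.hs2 with k2 | k2
    · rcases key _ H.hs3 with k3 | k3
      · -- `x3 < σ1`
        exact H.lemB (H.strict3 (sneg hs h2 h12 (Or.inl (by linarith [H.sx3]))).ne) hs h2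
          (H.dnσ1 hs h2 h12 (q5 _ k3)) (sneg hs h2 h12 (Or.inl (by linarith [H.rx3])))
      · refine H.gap (lo := C.x2) (w := w2) (hi := C.x3) hs h2 h12 k2 k3 q3 q4 ?_
        rcases hw with ⟨e1, e2⟩ | ⟨e1, e2⟩
        · right; exact ⟨e2, Or.inl (by linarith)⟩
        · left; exact ⟨e1, Or.inl (by linarith)⟩
    · refine H.gap (lo := C.x1) (w := w1) (hi := C.x2) hs h2 h12 k1 k2 q1 q2 ?_
      rcases hw with ⟨e1, e2⟩ | ⟨e1, e2⟩
      · left; exact ⟨e1, Or.inr (by linarith)⟩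
      · right; exact ⟨e2, Or.inr (by linarith)⟩
  · -- `σ2 < x1`
    exact H.lemB (H.strict3 (sneg hs h2 h12 (Or.inr (by linarith [H.x1s]))).ne) hs' h2
      (H.dnσ2 hs h2 h12 (q0 _ k1)) (sneg hs h2 h12 (Or.inr (by linarith [H.x1r])))

/-- The configuration is impossible. -/
theorem false (H : C.Ok) : False := by
  by_cases h : ∀ x, C.s x ≤ 0
  · exact H.lemI h
  · push Not at h
    obtain ⟨x0, hx0⟩ := h
    rcases lt_trichotomy C.s2 0 with h2 | h2 | h2
    · exact H.conc h2 hx0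
    · exact H.lin h2 hx0
    · exact H.conv h2

end Ok

end Cfg

end RevC
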