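import Pool.Agent.RevC.Special
import Pool.Agent.RevC.Config

/-!
# Reversible quartic fields have at most eight centres
-/

open Set Filter Topology

namespace RevC

namespace Quart

variable (K : Quart)

theorem p_coef (hp : ∀ x, K.p x = 0) : K.p3 = 0 ∧ K.p2 = 0 ∧ K.p1 = 0 ∧ K.p0 = 0 := by
  have h0 := hp 0
  have h1 := hp 1
  have h2 := hp (-1)
  have h3 := hp 2
  unfold p at h0 h1 h2 h3
  refine ⟨by linarith, by linarith, by linarith, by linarith⟩

/-- If `p = 0`: `2c = g - s s' l + 2 e s²`. -/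
theorem two_c (hν : K.ν ≠ 0) (hp : ∀ x, K.p x = 0) (x : ℝ) :
    2 * K.c x = K.g x + 2 * K.e * K.s x ^ 2 - K.l x * K.s x * K.s' x := by
  obtain ⟨h3, h2, h1, h0⟩ := K.p_coef hp
  have hp' : K.p' x = 0 := by unfold p'; rw [h1, h2, h3]; ring
  have e1 := K.s_eq hν x
  have e2 := K.a'_eq x
  rw [hp'] at e2
  unfold g
  rw [hp]
  have e3 : 2 * K.d x = K.ν * K.s x - (0 + K.s' x * K.l x + K.s x * K.b1) := by
    rw [← e2, e1]; ring
  have e4 : 2 * K.d x * K.s x =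
      (K.ν * K.s x - (0 + K.s' x * K.l x + K.s x * K.b1)) * K.s x := by rw [e3]
  unfold ν at e4
  linear_combination e4

theorem two_c4 (hν : K.ν ≠ 0) (hp : ∀ x, K.p x = 0) :
    2 * K.c4 = K.g4 + (2 * K.e - 2 * K.b1) * K.s2 ^ 2 := by
  obtain ⟨h3, h2, h1, h0⟩ := K.p_coef hp
  have e1 : K.a3 = K.s2 * K.b1 := by unfold p3 at h3; linarith
  have e2 : K.ν * K.s2 = 3 * K.a3 + 2 * K.d2 := by
    unfold s2; field_simp
  unfold g4
  rw [h3]
  have e3 : 2 * K.d2 = K.ν * K.s2 - 3 * (K.s2 * K.b1) := by rw [← e1, e2]; ring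
  have e4 : 2 * K.d2 * K.s2 = (K.ν * K.s2 - 3 * (K.s2 * K.b1)) * K.s2 := by rw [e3]
  unfold ν at e4
  linear_combination e4

/-- Two linear functions with prescribed signs at three points. -/
theorem pattern_aux {b0 b1 m n x1 x2 x3 : ℝ} (h12 : x1 < x2) (h23 : x2 < x3)
    (k1 : (b0 + b1 * x1) * (m * x1 + n) < 0) (k2 : 0 < (b0 + b1 * x2) * (m * x2 + n))
    (k3 : (b0 + b1 * x3) * (m * x3 + n) < 0) :
    b1 * m < 0 ∧ ((x1 < -b0 / b1 ∧ -b0 / b1 < x2 ∧ x2 < -n / m ∧ -n / m < x3) ∨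
      (x1 < -n / m ∧ -n / m < x2 ∧ x2 < -b0 / b1 ∧ -b0 / b1 < x3)) := by
  -- the product is a strictly concave quadratic
  have hconv : (b0 + b1 * x2) * (m * x2 + n) * (x3 - x1) =
      (b0 + b1 * x1) * (m * x1 + n) * (x3 - x2) + (b0 + b1 * x3) * (m * x3 + n) * (x2 - x1) -
        b1 * m * ((x2 - x1) * (x3 - x2) * (x3 - x1)) := by ring
  have hA : 0 < x2 - x1 := by linarith
  have hB : 0 < x3 - x2 := by linarith
  have hC : 0 < x3 - x1 := by linarith
  have i1 := mul_pos k2 hC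
  have i2 := mul_neg_of_neg_of_pos k1 hB
  have i3 := mul_neg_of_neg_of_pos k3 hA
  have hABC : 0 < (x2 - x1) * (x3 - x2) * (x3 - x1) := by positivity
  have hbm : b1 * m < 0 := by
    by_contra hcon
    push Not at hcon
    have := mul_nonneg hcon hABC.le
    linarith
  have hb : b1 ≠ 0 := fun h => by rw [h, zero_mul] at hbm; exact lt_irrefl _ hbm
  have hm : m ≠ 0 := fun h => by rw [h, mul_zero] at hbm; exact lt_irrefl _ hbm
  refine ⟨hbm, ?_⟩
  obtain ⟨r, hr⟩ : ∃ r, r = -b0 / b1 := ⟨_, rfl⟩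
  obtain ⟨z, hz⟩ : ∃ z, z = -n / m := ⟨_, rfl⟩
  rw [← hr, ← hz]
  have e : ∀ x, (b0 + b1 * x) * (m * x + n) = b1 * m * ((x - r) * (x - z)) := by
    intro x
    rw [hr, hz]; field_simp; ring
  rw [e] at k1 k2 k3
  have j1 : 0 < (x1 - r) * (x1 - z) := by
    by_contra hcon
    push Not at hcon
    have := mul_nonneg_of_nonpos_of_nonpos hbm.le hcon
    linarith
  have j3 : 0 < (x3 - r) * (x3 - z) := by
    by_contra hcon
    push Not at hcon
    have := mul_nonneg_of_nonpos_of_nonpos hbm.le hcon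
    linarith
  have j2 : (x2 - r) * (x2 - z) < 0 := by
    by_contra hcon
    push Not at hcon
    have := mul_nonpos_of_nonpos_of_nonneg hbm.le hcon
    linarith
  rcases mul_neg_iff.1 j2 with ⟨h1, h2⟩ | ⟨h1, h2⟩
  · -- `r < x2 < z`
    left
    refine ⟨?_, by linarith, by linarith, ?_⟩
    · rcases mul_pos_iff.1 j1 with ⟨h3, h4⟩ | ⟨h3, h4⟩ <;> linarith
    · rcases mul_pos_iff.1 j3 with ⟨h3, h4⟩ | ⟨h3, h4⟩ <;> linarith
  · right
    refine ⟨?_, by linarith, by linarith, ?_⟩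
    · rcases mul_pos_iff.1 j1 with ⟨h3, h4⟩ | ⟨h3, h4⟩ <;> linarith
    · rcases mul_pos_iff.1 j3 with ⟨h3, h4⟩ | ⟨h3, h4⟩ <;> linarith

/-- The pattern of three centres off the axis if `p = 0`. -/
theorem pattern (hν : K.ν ≠ 0) (hfin : {z : ℝ × ℝ | K.fld z = 0}.Finite)
    (hp : ∀ x, K.p x = 0) {q1 q2 q3 : ℝ × ℝ} (h1 : q1.2 ≠ 0) (h2 : q2.2 ≠ 0) (h3 : q3.2 ≠ 0)
    (c1 : IsCenter K.fld q1) (c2 : IsCenter K.fld q2) (c3 : IsCenter K.fld q3)
    (h12 : q1.1 < q2.1) (h23 : q2.1 < q3.1) : ∃ r xs : ℝ,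
      (∀ x, K.g x = K.g4 * ((x - q1.1) * (x - q2.1) * (x - q3.1) * (x - xs))) ∧
      (∀ x, K.l x = K.b1 * (x - r)) ∧ K.b1 * K.g4 < 0 ∧
      ((q1.1 < r ∧ r < q2.1 ∧ q2.1 < xs ∧ xs < q3.1) ∨
      (q1.1 < xs ∧ xs < q2.1 ∧ q2.1 < r ∧ r < q3.1)) := by
  obtain ⟨x1, hx1⟩ : ∃ x, x = q1.1 := ⟨_, rfl⟩
  obtain ⟨x2, hx2⟩ : ∃ x, x = q2.1 := ⟨_, rfl⟩
  obtain ⟨x3, hx3⟩ : ∃ x, x = q3.1 := ⟨_, rfl⟩
  rw [← hx1, ← hx2, ← hx3]
  have i12 : x1 < x2 := by rw [hx1, hx2]; exact h12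
  have i23 : x2 < x3 := by rw [hx2, hx3]; exact h23
  have i13 : x1 < x3 := i12.trans i23
  obtain ⟨g0, g1, g2, g3, hgx⟩ := K.g_expand
  have s1 : K.g x1 = 0 := by rw [hx1]; exact (K.g_zero hν h1 c1).2
  have s2 : K.g x2 = 0 := by rw [hx2]; exact (K.g_zero hν h2 c2).2
  have s3 : K.g x3 = 0 := by rw [hx3]; exact (K.g_zero hν h3 c3).2
  rw [hgx] at s1 s2 s3
  obtain ⟨n, hn⟩ : ∃ n, n = g3 + K.g4 * (x1 + x2 + x3) := ⟨_, rfl⟩
  have hg : ∀ x, K.g x = (x - x1) * (x - x2) * (x - x3) * (K.g4 * x + n) := by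
    intro x
    rw [hgx, quartic_roots i12.ne i23.ne i13.ne s1 s2 s3 x, hn]
  -- `g` is not identically zero
  have hg0 : ¬ (K.g4 = 0 ∧ n = 0) := by
    rintro ⟨e1, e2⟩
    refine K.infinite_of_g0 ?_ h1 c1 hfin
    intro x hx
    rw [K.g0_eq hν hx, hg, hp, e1, e2]
    ring
  have l1 : K.l x1 ≠ 0 := by rw [hx1]; exact K.l_ne h1 c1
  have l2 : K.l x2 ≠ 0 := by rw [hx2]; exact K.l_ne h2 c2
  have l3 : K.l x3 ≠ 0 := by rw [hx3]; exact K.l_ne h3 c3
  -- general strict inequality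
  have key : ∀ (q : ℝ × ℝ) (y z : ℝ), q.2 ≠ 0 → IsCenter K.fld q →
      (∀ x, K.g x = (x - q.1) * ((x - y) * (x - z) * (K.g4 * x + n))) → q.1 ≠ y → q.1 ≠ z →
      K.l q.1 * ((q.1 - y) * (q.1 - z) * (K.g4 * q.1 + n)) < 0 := by
    intro q y z hq hc hgq hy hz
    obtain ⟨o1, -⟩ := K.off_cond hν hp hq hc
      (G := fun x => (x - y) * (x - z) * (K.g4 * x + n)) (by fun_prop)
    obtain ⟨-, o2⟩ := K.off_cond hν hp hq hc
      (G := fun x => K.g4 * ((x - y) * (x - z))) (by fun_prop)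
    have o3 := o1 hgq
    have dy : q.1 - y ≠ 0 := sub_ne_zero.2 hy
    have dz : q.1 - z ≠ 0 := sub_ne_zero.2 hz
    refine lt_of_le_of_ne o3 ?_
    intro h0
    have h4 : K.g4 * q.1 + n = 0 := by
      have := (mul_eq_zero.1 h0).resolve_left (K.l_ne hq hc)
      exact (mul_eq_zero.1 this).resolve_left (mul_ne_zero dy dz)
    have h5 : n = -(K.g4 * q.1) := by linarith
    have h6 := o2 (fun x => by rw [hgq, h5]; ring)
    have h7 : K.g4 = 0 := (mul_eq_zero.1 h6).resolve_right (mul_ne_zero dy dz)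
    exact hg0 ⟨h7, by rw [h5, h7]; ring⟩
  have k1 := key q1 x2 x3 h1 c1 (fun x => by rw [hg, ← hx1]; ring) (by rw [← hx1]; exact i12.ne)
    (by rw [← hx1]; exact i13.ne)
  have k2 := key q2 x1 x3 h2 c2 (fun x => by rw [hg, ← hx2]; ring) (by rw [← hx2]; exact i12.ne')
    (by rw [← hx2]; exact i23.ne)
  have k3 := key q3 x1 x2 h3 c3 (fun x => by rw [hg, ← hx3]; ring) (by rw [← hx3]; exact i13.ne')
    (by rw [← hx3]; exact i23.ne')
  rw [← hx1] at k1
  rw [← hx2] at k2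
  rw [← hx3] at k3
  have p1 : 0 < (x1 - x2) * (x1 - x3) := mul_pos_of_neg_of_neg (by linarith) (by linarith)
  have p2 : 0 < (x2 - x1) * (x3 - x2) := mul_pos (by linarith) (by linarith)
  have p3 : 0 < (x3 - x1) * (x3 - x2) := mul_pos (by linarith) (by linarith)
  have m1 : (K.b0 + K.b1 * x1) * (K.g4 * x1 + n) < 0 := by
    have e : K.l x1 * ((x1 - x2) * (x1 - x3) * (K.g4 * x1 + n)) =
      ((x1 - x2) * (x1 - x3)) * ((K.b0 + K.b1 * x1) * (K.g4 * x1 + n)) := by unfold l; ring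
    rw [e] at k1
    by_contra hcon
    push Not at hcon
    have := mul_nonneg p1.le hcon
    linarith
  have m2 : 0 < (K.b0 + K.b1 * x2) * (K.g4 * x2 + n) := by
    have e : K.l x2 * ((x2 - x1) * (x2 - x3) * (K.g4 * x2 + n)) =
      -(((x2 - x1) * (x3 - x2)) * ((K.b0 + K.b1 * x2) * (K.g4 * x2 + n))) := by unfold l; ring
    rw [e] at k2
    by_contra hcon
    push Not at hcon
    have := mul_nonpos_of_nonneg_of_nonpos p2.le hcon
    linarith
  have m3 : (K.b0 + K.b1 * x3) * (K.g4 * x3 + n) < 0 := by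
    have e : K.l x3 * ((x3 - x1) * (x3 - x2) * (K.g4 * x3 + n)) =
      ((x3 - x1) * (x3 - x2)) * ((K.b0 + K.b1 * x3) * (K.g4 * x3 + n)) := by unfold l; ring
    rw [e] at k3
    by_contra hcon
    push Not at hcon
    have := mul_nonneg p3.le hcon
    linarith
  obtain ⟨hbm, hpat⟩ := pattern_aux i12 i23 m1 m2 m3
  have hb : K.b1 ≠ 0 := fun h => by rw [h, zero_mul] at hbm; exact lt_irrefl _ hbm
  have hm : K.g4 ≠ 0 := fun h => by rw [h, mul_zero] at hbm; exact lt_irrefl _ hbm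
  refine ⟨-K.b0 / K.b1, -n / K.g4, ?_, ?_, hbm, hpat⟩
  · intro x
    rw [hg]
    field_simp
    ring
  · intro x
    unfold l
    field_simp
    ring

/-- There are not four centres off the axis with different abscissae if `p = 0`. -/
theorem not_four (hν : K.ν ≠ 0) (hfin : {z : ℝ × ℝ | K.fld z = 0}.Finite)
    (hp : ∀ x, K.p x = 0) {q1 q2 q3 q4 : ℝ × ℝ} (h1 : q1.2 ≠ 0) (h2 : q2.2 ≠ 0)
    (h3 : q3.2 ≠ 0) (h4 : q4.2 ≠ 0)
    (c1 : IsCenter K.fld q1) (c2 : IsCenter K.fld q2) (c3 : IsCenter K.fld q3)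
    (c4 : IsCenter K.fld q4)
    (h12 : q1.1 < q2.1) (h23 : q2.1 < q3.1) (h34 : q3.1 < q4.1) : False := by
  obtain ⟨r, xs, e1, e2, e3, e4⟩ := K.pattern hν hfin hp h1 h2 h3 c1 c2 c3 h12 h23
  have e5 : K.g q4.1 = 0 := (K.g_zero hν h4 c4).2
  rw [e1] at e5
  have hg4 : K.g4 ≠ 0 := fun h => by rw [h, mul_zero] at e3; exact lt_irrefl _ e3
  have e6 := (mul_eq_zero.1 e5).resolve_left hg4
  have hxs : xs < q3.1 := by
    rcases e4 with ⟨a, b, c, d⟩ | ⟨a, b, c, d⟩ <;> linarith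
  have : 0 < (q4.1 - q1.1) * (q4.1 - q2.1) * (q4.1 - q3.1) * (q4.1 - xs) :=
    mul_pos (mul_pos (mul_pos (by linarith) (by linarith)) (by linarith)) (by linarith)
  linarith

/-- If `c = 0` there are infinitely many equilibria. -/
theorem infinite_of_c (h : ∀ x, K.c x = 0) : {z : ℝ × ℝ | K.fld z = 0}.Infinite := by
  refine infinite_of_injOn_mapsTo (f := fun x : ℝ => ((x, 0) : ℝ × ℝ)) (s := univ) ?_ ?_
    infinite_univ
  · intro x _ y _ hxy
    exact congrArg Prod.fst hxy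
  · intro x _
    show K.fld (x, 0) = 0
    unfold fld
    simp [h]

/-- The zeros of `c` at centres on the axis. -/
theorem c_zero {x0 : ℝ} (hc : IsCenter K.fld (x0, 0)) : K.c x0 = 0 := by
  have h : (K.fld (x0, 0)).2 = 0 := congrArg Prod.snd hc.1
  unfold fld at h
  simpa using h

/-- Three centres off the axis and three on the axis, two of them with `s ≠ 0`. -/
theorem axis3 (hν : K.ν ≠ 0) (hfin : {z : ℝ × ℝ | K.fld z = 0}.Finite)
    (hp : ∀ x, K.p x = 0) {q1 q2 q3 : ℝ × ℝ} (h1 : q1.2 ≠ 0) (h2 : q2.2 ≠ 0) (h3 : q3.2 ≠ 0)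
    (c1 : IsCenter K.fld q1) (c2 : IsCenter K.fld q2) (c3 : IsCenter K.fld q3)
    (h12 : q1.1 < q2.1) (h23 : q2.1 < q3.1) {y1 y2 y3 : ℝ}
    (d1 : IsCenter K.fld (y1, 0)) (d2 : IsCenter K.fld (y2, 0)) (d3 : IsCenter K.fld (y3, 0))
    (n12 : y1 ≠ y2) (n13 : y1 ≠ y3) (n23 : y2 ≠ y3) (t1 : K.s y1 ≠ 0) (t2 : K.s y2 ≠ 0) :
    False := by
  obtain ⟨r, xs, e1, e2, e3, e4⟩ := K.pattern hν hfin hp h1 h2 h3 c1 c2 c3 h12 h23
  have hb : K.b1 ≠ 0 := fun h => by rw [h, zero_mul] at e3; exact lt_irrefl _ e3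
  have hm : K.g4 ≠ 0 := fun h => by rw [h, mul_zero] at e3; exact lt_irrefl _ e3
  have hz1 := K.c_zero d1
  have hz2 := K.c_zero d2
  have hz3 := K.c_zero d3
  obtain ⟨n, hn⟩ : ∃ n, n = K.c3 + K.c4 * (y1 + y2 + y3) := ⟨_, rfl⟩
  have hcx : ∀ x, K.c x = (x - y1) * (x - y2) * (x - y3) * (K.c4 * x + n) := by
    intro x
    rw [hn]
    exact quartic_roots (q0 := K.c0) (q1 := K.c1) (q2 := K.c2) (q3 := K.c3) (q4 := K.c4)
      n12 n23 n13 hz1 hz2 hz3 x
  have hc0 : ¬ (K.c4 = 0 ∧ n = 0) := by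
    rintro ⟨f1, f2⟩
    exact K.infinite_of_c (fun x => by rw [hcx, f1, f2]; ring) hfin
  -- strict inequality at an axis centre with `s ≠ 0`
  have key : ∀ y z w : ℝ, IsCenter K.fld (y, 0) → K.s y ≠ 0 → y ≠ z → y ≠ w →
      (∀ x, K.c x = (x - y) * ((x - z) * (x - w) * (K.c4 * x + n))) →
      (y - z) * (y - w) * (K.c4 * y + n) * (K.s y * K.l y) < 0 := by
    intro y z w hc hs hz hw hcy
    have hl := K.axis_l_ne hc hp
    have ha : K.a y = K.s y * K.l y := by rw [K.a_eq, hp]; ring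
    have ha0 : K.a y ≠ 0 := by rw [ha]; exact mul_ne_zero hs hl
    have o1 := K.axis_cond1 hc ha0 (C := fun x => (x - z) * (x - w) * (K.c4 * x + n))
      (by fun_prop) hcy
    rw [ha] at o1
    have dz : y - z ≠ 0 := sub_ne_zero.2 hz
    have dw : y - w ≠ 0 := sub_ne_zero.2 hw
    refine lt_of_le_of_ne o1 ?_
    intro h0
    have f1 : (y - z) * (y - w) * (K.c4 * y + n) = 0 :=
      (mul_eq_zero.1 h0).resolve_right (mul_ne_zero hs hl)
    have f2 : K.c4 * y + n = 0 :=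
      (mul_eq_zero.1 f1).resolve_left (mul_ne_zero dz dw)
    have f3 : n = -(K.c4 * y) := by linarith
    have f4 := K.axis_cond2 hc ha0 (C := fun x => K.c4 * ((x - z) * (x - w))) (by fun_prop)
      (fun x => by rw [hcy, f3]; ring)
    have f5 : K.c4 = 0 := (mul_eq_zero.1 f4).resolve_right (mul_ne_zero dz dw)
    exact hc0 ⟨f5, by rw [f3, f5]; ring⟩
  have k1 := key y1 y2 y3 d1 t1 n12 n13 (fun x => by rw [hcx]; ring)
  have k2 := key y2 y1 y3 d2 t2 n12.symm n23 (fun x => by rw [hcx]; ring)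
  have k3 : K.s y3 = 0 ∨ (y3 - y1) * (y3 - y2) * (K.c4 * y3 + n) * (K.s y3 * K.l y3) < 0 := by
    by_cases t3 : K.s y3 = 0
    · exact Or.inl t3
    · exact Or.inr (key y3 y1 y2 d3 t3 n13.symm n23.symm (fun x => by rw [hcx]; ring))
  -- the sign
  obtain ⟨ε, hε, hγ⟩ : ∃ ε : ℝ, ε ^ 2 = 1 ∧ 0 < ε * K.g4 := by
    rcases lt_or_gt_of_ne hm with h | h
    · exact ⟨-1, by norm_num, by linarith⟩
    · exact ⟨1, by norm_num, by linarith⟩
  have hα : ε * K.b1 < 0 := by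
    have f1 : (ε * K.g4) * (ε * K.b1) = K.b1 * K.g4 := by
      have : (ε * K.g4) * (ε * K.b1) = ε ^ 2 * (K.b1 * K.g4) := by ring
      rw [this, hε, one_mul]
    by_contra hcon
    push Not at hcon
    have := mul_nonneg hγ.le hcon
    linarith
  have hsneg : ∀ q : ℝ × ℝ, q.2 ≠ 0 → IsCenter K.fld q → K.s q.1 < 0 := by
    intro q hq hc
    have f1 := (K.g_zero hν hq hc).1
    have f2 : 0 < q.2 ^ 2 := by positivity
    linarith
  have hscale : ∀ A B : ℝ, A * B < 0 → ∀ M, M = ε * (2 * A) * (ε * B) → M < 0 := by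
    intro A B h M hM
    have f1 : M = 2 * (A * B) := by
      rw [hM]
      have : ε * (2 * A) * (ε * B) = ε ^ 2 * (2 * (A * B)) := by ring
      rw [this, hε, one_mul]
    rw [f1]; linarith
  let C : Cfg := ⟨q1.1, q2.1, q3.1, xs, r, ε * K.g4, ε * K.b1, ε * (2 * K.e), K.s0, K.s1, K.s2,
    y1, y2, y3, ε * (2 * K.c4), ε * (2 * n)⟩
  have Cs : ∀ x, C.s x = K.s x := fun x => rfl
  have Cs' : ∀ x, C.s' x = K.s' x := fun x => rfl
  have Cl : ∀ x, C.l x = ε * K.l x := by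
    intro x
    rw [e2]
    show ε * K.b1 * (x - r) = _
    ring
  have Cg : ∀ x, C.g x = ε * K.g x := by
    intro x
    rw [e1]
    show ε * K.g4 * ((x - q1.1) * (x - q2.1) * (x - q3.1) * (x - xs)) = _
    ring
  have CE : ∀ x, C.E x = ε * (2 * K.c x) := by
    intro x
    rw [hcx]
    show (x - y1) * (x - y2) * (x - y3) * (ε * (2 * K.c4) * x + ε * (2 * n)) = _
    ring
  have hε0 : ε ≠ 0 := fun h => by rw [h] at hε; norm_num at hε
  have hok : C.Ok := by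
    refine ⟨h12, h23, ?_, hγ, hα, ?_, ?_, ?_, ?_, ?_, ?_, n12, n23, n13, ?_, ?_, ?_, ?_, ?_, ?_⟩
    · exact e4
    · rw [Cs]; exact hsneg q1 h1 c1
    · rw [Cs]; exact hsneg q2 h2 c2
    · rw [Cs]; exact hsneg q3 h3 c3
    · intro x
      rw [CE, K.two_c hν hp, Cg, Cs, Cl, Cs']
      show _ = ε * K.g x + ε * (2 * K.e) * K.s x ^ 2 - ε * K.l x * K.s x * K.s' x
      ring
    · show ε * (2 * K.c4) = ε * K.g4 + (ε * (2 * K.e) - 2 * (ε * K.b1)) * K.s2 ^ 2
      rw [K.two_c4 hν hp]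
      ring
    · by_cases h : K.c4 = 0
      · right
        show ε * (2 * n) ≠ 0
        exact mul_ne_zero hε0 (mul_ne_zero two_ne_zero fun h' => hc0 ⟨h, h'⟩)
      · left
        show ε * (2 * K.c4) ≠ 0
        exact mul_ne_zero hε0 (mul_ne_zero two_ne_zero h)
    · rw [Cl]; exact mul_ne_zero hε0 (K.axis_l_ne d1 hp)
    · rw [Cl]; exact mul_ne_zero hε0 (K.axis_l_ne d2 hp)
    · rw [Cl]; exact mul_ne_zero hε0 (K.axis_l_ne d3 hp)
    · refine hscale _ _ k1 _ ?_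
      rw [Cs, Cl]
      show (y1 - y2) * (y1 - y3) * (ε * (2 * K.c4) * y1 + ε * (2 * n)) *
        (K.s y1 * (ε * K.l y1)) = _
      ring
    · refine hscale _ _ k2 _ ?_
      rw [Cs, Cl]
      show (y2 - y1) * (y2 - y3) * (ε * (2 * K.c4) * y2 + ε * (2 * n)) *
        (K.s y2 * (ε * K.l y2)) = _
      ring
    · rcases k3 with k3 | k3
      · left; rw [Cs]; exact k3
      · right
        refine hscale _ _ k3 _ ?_
        rw [Cs, Cl]
        show (y3 - y1) * (y3 - y2) * (ε * (2 * K.c4) * y3 + ε * (2 * n)) *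
          (K.s y3 * (ε * K.l y3)) = _
        ring
  exact hok.false

/-- Three centres off the axis and three on the axis: impossible if `p = 0`. -/
theorem axis3' (hν : K.ν ≠ 0) (hfin : {z : ℝ × ℝ | K.fld z = 0}.Finite)
    (hp : ∀ x, K.p x = 0) {q1 q2 q3 : ℝ × ℝ} (h1 : q1.2 ≠ 0) (h2 : q2.2 ≠ 0) (h3 : q3.2 ≠ 0)
    (c1 : IsCenter K.fld q1) (c2 : IsCenter K.fld q2) (c3 : IsCenter K.fld q3)
    (h12 : q1.1 < q2.1) (h23 : q2.1 < q3.1) {y1 y2 y3 : ℝ}
    (d1 : IsCenter K.fld (y1, 0)) (d2 : IsCenter K.fld (y2, 0)) (d3 : IsCenter K.fld (y3, 0))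
    (n12 : y1 ≠ y2) (n13 : y1 ≠ y3) (n23 : y2 ≠ y3) : False := by
  obtain ⟨r, xs, e1, e2, e3, e4⟩ := K.pattern hν hfin hp h1 h2 h3 c1 c2 c3 h12 h23
  have hm : K.g4 ≠ 0 := fun h => by rw [h, mul_zero] at e3; exact lt_irrefl _ e3
  have hsneg : ∀ q : ℝ × ℝ, q.2 ≠ 0 → IsCenter K.fld q → K.s q.1 < 0 := by
    intro q hq hc
    have f1 := (K.g_zero hν hq hc).1
    have f2 : 0 < q.2 ^ 2 := by positivity
    linarith
  have hxs : ∀ y, IsCenter K.fld (y, 0) → K.s y = 0 → y = xs := by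
    intro y hc hs
    have f1 := K.two_c hν hp y
    rw [K.c_zero hc, hs] at f1
    have f2 : K.g y = 0 := by linarith
    rw [e1] at f2
    have f3 := (mul_eq_zero.1 f2).resolve_left hm
    rcases mul_eq_zero.1 f3 with f4 | f4
    · rcases mul_eq_zero.1 f4 with f5 | f5
      · rcases mul_eq_zero.1 f5 with f6 | f6
        · have : y = q1.1 := by linarith
          rw [this] at hs; exact absurd hs (hsneg q1 h1 c1).ne
        · have : y = q2.1 := by linarith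
          rw [this] at hs; exact absurd hs (hsneg q2 h2 c2).ne
      · have : y = q3.1 := by linarith
        rw [this] at hs; exact absurd hs (hsneg q3 h3 c3).ne
    · linarith
  by_cases t1 : K.s y1 = 0
  · have f1 := hxs y1 d1 t1
    have t2 : K.s y2 ≠ 0 := fun h => n12 (by rw [f1, hxs y2 d2 h])
    have t3 : K.s y3 ≠ 0 := fun h => n13 (by rw [f1, hxs y3 d3 h])
    exact K.axis3 hν hfin hp h1 h2 h3 c1 c2 c3 h12 h23 d2 d3 d1 n23 n12.symm n13.symm t2 t3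
  · by_cases t2 : K.s y2 = 0
    · have f1 := hxs y2 d2 t2
      have t3 : K.s y3 ≠ 0 := fun h => n23 (by rw [f1, hxs y3 d3 h])
      exact K.axis3 hν hfin hp h1 h2 h3 c1 c2 c3 h12 h23 d1 d3 d2 n13 n12 n23.symm t1 t3
    · exact K.axis3 hν hfin hp h1 h2 h3 c1 c2 c3 h12 h23 d1 d2 d3 n12 n13 n23 t1 t2

/-- If `ν = 0` there are not three centres off the axis with different abscissae. -/
theorem not_three_of_nu (hν : K.ν = 0) (hdiv : ∃ x, K.a' x + 2 * K.d x ≠ 0)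
    {q1 q2 q3 : ℝ × ℝ} (h1 : q1.2 ≠ 0) (h2 : q2.2 ≠ 0) (h3 : q3.2 ≠ 0)
    (c1 : IsCenter K.fld q1) (c2 : IsCenter K.fld q2) (c3 : IsCenter K.fld q3)
    (h12 : q1.1 < q2.1) (h23 : q2.1 < q3.1) : False := by
  have key : ∀ q : ℝ × ℝ, q.2 ≠ 0 → IsCenter K.fld q → K.a' q.1 + 2 * K.d q.1 = 0 := by
    intro q hq hc
    have hl := K.l_ne hq hc
    have h0 := (K.chart hq hl hc.1).f_zero hc
    unfold f0 at h0
    unfold ν at hν
    rw [hν] at h0
    linear_combination h0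
  have k1 := key q1 h1 c1
  have k2 := key q2 h2 c2
  have k3 := key q3 h3 c3
  have f : ∀ x, K.a' x + 2 * K.d x = (K.a1 + 2 * K.d0) + (2 * K.a2 + 2 * K.d1) * x +
      (3 * K.a3 + 2 * K.d2) * x ^ 2 + 0 * x ^ 3 := by
    intro x
    unfold a' d
    ring
  rw [f] at k1 k2 k3
  obtain ⟨e2, e1, e0⟩ := cubic_roots h12.ne h23.ne (h12.trans h23).ne k1 k2 k3
  obtain ⟨x, hx⟩ := hdiv
  rw [f, e2, e1, e0] at hx
  exact hx (by ring)

/-- **Main theorem** for explicit coefficients. -/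
theorem main (hfin : {z : ℝ × ℝ | K.fld z = 0}.Finite)
    (hdiv : K.ν ≠ 0 ∨ ∃ x, K.a' x + 2 * K.d x ≠ 0) :
    {z : ℝ × ℝ | IsCenter K.fld z}.ncard ≤ 8 := by
  classical
  have hSfin : {z : ℝ × ℝ | IsCenter K.fld z}.Finite := hfin.subset fun z hz => hz.1
  -- centres off the axis and on the axis
  obtain ⟨Off, hOff⟩ : ∃ Off : Set (ℝ × ℝ), Off = {z | IsCenter K.fld z ∧ z.2 ≠ 0} := ⟨_, rfl⟩
  obtain ⟨Ax, hAx⟩ : ∃ Ax : Set (ℝ × ℝ), Ax = {z | IsCenter K.fld z ∧ z.2 = 0} := ⟨_, rfl⟩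
  have hOfin : Off.Finite := hSfin.subset fun z hz => by rw [hOff] at hz; exact hz.1
  have hAfin : Ax.Finite := hSfin.subset fun z hz => by rw [hAx] at hz; exact hz.1
  have hunion : {z : ℝ × ℝ | IsCenter K.fld z} = Off ∪ Ax := by
    ext z
    rw [hOff, hAx]
    simp only [mem_ofPred_eq, mem_union]
    tauto
  obtain ⟨Ex, hEx⟩ : ∃ Ex : Finset ℝ, Ex = (hOfin.image Prod.fst).toFinset := ⟨_, rfl⟩
  have hExmem : ∀ x, x ∈ Ex ↔ ∃ q : ℝ × ℝ, q.2 ≠ 0 ∧ IsCenter K.fld q ∧ q.1 = x := by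
    intro x
    rw [hEx, Finite.mem_toFinset, mem_image, hOff]
    constructor
    · rintro ⟨q, ⟨h1, h2⟩, h3⟩
      exact ⟨q, h2, h1, h3⟩
    · rintro ⟨q, h2, h1, h3⟩
      exact ⟨q, ⟨h1, h2⟩, h3⟩
  -- at most two centres for every abscissa
  have hOffcard : Off.ncard ≤ 2 * Ex.card := by
    let Y : ℝ → ℝ := fun x => Real.sqrt (-(K.a x / K.l x))
    have hsub : Off ⊆ ((Ex.image fun x => (x, Y x)) ∪ (Ex.image fun x => (x, -Y x)) :
        Finset (ℝ × ℝ)) := by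
      intro q hq
      rw [hOff] at hq
      obtain ⟨hc, hq2⟩ := hq
      have hl := K.l_ne hq2 hc
      have h1 : q.2 * (K.a q.1 + K.l q.1 * q.2 ^ 2) = 0 := congrArg Prod.fst hc.1
      have h3 := (mul_eq_zero.1 h1).resolve_left hq2
      have h4 : -(K.a q.1 / K.l q.1) = q.2 ^ 2 := by
        field_simp
        linarith
      have hYq : Y q.1 = |q.2| := by
        show Real.sqrt (-(K.a q.1 / K.l q.1)) = |q.2|
        rw [h4, Real.sqrt_sq_eq_abs]
      have hmem : q.1 ∈ Ex := (hExmem _).2 ⟨q, hq2, hc, rfl⟩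
      rw [Finset.coe_union, Finset.coe_image, Finset.coe_image]
      rcases abs_cases q.2 with ⟨h5, -⟩ | ⟨h5, -⟩
      · left
        exact ⟨q.1, hmem, Prod.ext rfl (by simp only [hYq, h5])⟩
      · right
        exact ⟨q.1, hmem, Prod.ext rfl (by simp only [hYq, h5, neg_neg])⟩
    have h1 := ncard_le_ncard hsub (Finset.finite_toSet _)
    rw [ncard_coe_finset] at h1
    have h2 := Finset.card_union_le (Ex.image fun x => (x, Y x)) (Ex.image fun x => (x, -Y x))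
    have h3 := Finset.card_image_le (s := Ex) (f := fun x => (x, Y x))
    have h4 := Finset.card_image_le (s := Ex) (f := fun x => (x, -Y x))
    omega
  -- at most four centres on the axis
  have hAxinj : Ax.ncard = (Prod.fst '' Ax).ncard := by
    refine (InjOn.ncard_image ?_).symm
    intro z hz w hw h
    rw [hAx] at hz hw
    exact Prod.ext h (by rw [hz.2, hw.2])
  have hAxpt : ∀ x ∈ Prod.fst '' Ax, IsCenter K.fld (x, 0) := by
    rintro x ⟨z, hz, rfl⟩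
    rw [hAx] at hz
    have : z = (z.1, 0) := Prod.ext rfl hz.2
    rw [← this]
    exact hz.1
  have hAx4 : Ax.ncard ≤ 4 := by
    rw [hAxinj]
    let pc : Polynomial ℝ := Polynomial.C K.c0 + Polynomial.C K.c1 * Polynomial.X +
      Polynomial.C K.c2 * Polynomial.X ^ 2 + Polynomial.C K.c3 * Polynomial.X ^ 3 +
      Polynomial.C K.c4 * Polynomial.X ^ 4
    have hev : ∀ x, pc.eval x = K.c x := by
      intro x
      simp only [pc, Polynomial.eval_add, Polynomial.eval_mul, Polynomial.eval_C,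
        Polynomial.eval_X, Polynomial.eval_pow]
      rfl
    have hpc : pc ≠ 0 := by
      intro h
      refine K.infinite_of_c ?_ hfin
      intro x
      rw [← hev, h, Polynomial.eval_zero]
    have hdeg : pc.natDegree ≤ 4 := by
      simp only [pc]
      compute_degree
    have hsub : Prod.fst '' Ax ⊆ (pc.roots.toFinset : Set ℝ) := by
      intro x hx
      have := K.c_zero (hAxpt x hx)
      simp only [Finset.mem_coe, Multiset.mem_toFinset, Polynomial.mem_roots hpc,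
        Polynomial.IsRoot.def, hev]
      exact this
    have h1 := ncard_le_ncard hsub (Finset.finite_toSet _)
    rw [ncard_coe_finset] at h1
    have h2 := Multiset.toFinset_card_le pc.roots
    have h3 := pc.card_roots'
    omega
  have htot : {z : ℝ × ℝ | IsCenter K.fld z}.ncard ≤ Off.ncard + Ax.ncard := by
    rw [hunion]
    exact ncard_union_le _ _
  by_cases hE2 : Ex.card ≤ 2
  · omega
  · push Not at hE2
    -- three centres off the axis
    have three : ∀ k (hk : Ex.card = k) (i : Fin k), ∃ q : ℝ × ℝ, q.2 ≠ 0 ∧ IsCenter K.fld q ∧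
        q.1 = Ex.orderEmbOfFin hk i := by
      intro k hk i
      exact (hExmem _).1 (Ex.orderEmbOfFin_mem hk i)
    obtain ⟨k, hk⟩ : ∃ k, Ex.card = k := ⟨_, rfl⟩
    have hk3 : 3 ≤ k := by omega
    obtain ⟨q1, a1, b1, d1⟩ := three k hk ⟨0, by omega⟩
    obtain ⟨q2, a2, b2, d2⟩ := three k hk ⟨1, by omega⟩
    obtain ⟨q3, a3, b3, d3⟩ := three k hk ⟨2, by omega⟩
    have h12 : q1.1 < q2.1 := by
      rw [d1, d2]
      exact (Ex.orderEmbOfFin hk).strictMono (Fin.mk_lt_mk.2 (by omega))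
    have h23 : q2.1 < q3.1 := by
      rw [d2, d3]
      exact (Ex.orderEmbOfFin hk).strictMono (Fin.mk_lt_mk.2 (by omega))
    have hν : K.ν ≠ 0 := by
      intro hν
      rcases hdiv with h | h
      · exact h hν
      · exact K.not_three_of_nu hν h a1 a2 a3 b1 b2 b3 h12 h23
    have hp : ∀ x, K.p x = 0 := by
      by_contra hcon
      push Not at hcon
      exact K.not_three hν hfin hcon a1 a2 a3 b1 b2 b3 h12 h23
    have hE3 : Ex.card ≤ 3 := by
      by_contra hcon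
      push Not at hcon
      obtain ⟨q4, a4, b4, d4⟩ := three k hk ⟨3, by omega⟩
      have h34 : q3.1 < q4.1 := by
        rw [d3, d4]
        exact (Ex.orderEmbOfFin hk).strictMono (Fin.mk_lt_mk.2 (by omega))
      exact K.not_four hν hfin hp a1 a2 a3 a4 b1 b2 b3 b4 h12 h23 h34
    have hAx2 : Ax.ncard ≤ 2 := by
      by_contra hcon
      push Not at hcon
      rw [hAxinj, two_lt_ncard (hAfin.image _)] at hcon
      obtain ⟨y1, m1, y2, m2, y3, m3, n12, n13, n23⟩ := hcon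
      exact K.axis3' hν hfin hp a1 a2 a3 b1 b2 b3 h12 h23 (hAxpt _ m1) (hAxpt _ m2)
        (hAxpt _ m3) n12 n13 n23
    omega

end Quart

end RevC
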