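import Mathlib

/-!
# Counting sign changes, and the configuration with three centres off the axis when `p = 0`
-/

open Set Filter Topology

namespace RevC

/-- `f` changes sign from `+` to `-` at `z`. -/
def Down (f : ℝ → ℝ) (z : ℝ) : Prop :=
  f z = 0 ∧ ∃ δ > 0, (∀ x, z - δ < x → x < z → 0 < f x) ∧ (∀ x, z < x → x < z + δ → f x < 0)

theorem down_of_factor {f F : ℝ → ℝ} {z : ℝ} (h : ∀ x, f x = (x - z) * F x)
    (hF : Continuous F) (hneg : F z < 0) : Down f z := by
  refine ⟨by rw [h]; ring, ?_⟩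
  have h1 : ∀ᶠ x in 𝓝 z, F x < 0 := hF.continuousAt.eventually (gt_mem_nhds hneg)
  obtain ⟨δ, hδ, hb⟩ := Metric.eventually_nhds_iff_ball.1 h1
  refine ⟨δ, hδ, ?_, ?_⟩
  · intro x hx1 hx2
    rw [h]
    refine mul_pos_of_neg_of_neg (by linarith) (hb x ?_)
    rw [Real.ball_eq_Ioo]
    exact ⟨by linarith, by linarith⟩
  · intro x hx1 hx2
    rw [h]
    refine mul_neg_of_pos_of_neg (by linarith) (hb x ?_)
    rw [Real.ball_eq_Ioo]
    exact ⟨by linarith, by linarith⟩

theorem up_between {f : ℝ → ℝ} (hf : Continuous f) {a b : ℝ} (hab : a < b) (ha : f a < 0)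
    (hb : 0 < f b) : ∃ z, a < z ∧ z < b ∧ f z = 0 ∧ ¬ Down f z := by
  have hcl : IsClosed {x : ℝ | 0 ≤ f x} := isClosed_le continuous_const hf
  have hcomp : IsCompact (Icc a b ∩ {x : ℝ | 0 ≤ f x}) := isCompact_Icc.inter_right hcl
  obtain ⟨z, ⟨hz1, hz2⟩, hmin⟩ := hcomp.exists_isLeast
    ⟨b, right_mem_Icc.2 hab.le, hb.le⟩
  have hz2' : 0 ≤ f z := hz2
  have hza : a < z := by
    refine lt_of_le_of_ne hz1.1 ?_
    intro h
    rw [← h] at hz2'
    linarith
  have hlt : ∀ x, a ≤ x → x < z → f x < 0 := by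
    intro x hx1 hx2
    by_contra hcon
    push Not at hcon
    have := hmin ⟨⟨hx1, hx2.le.trans hz1.2⟩, hcon⟩
    linarith
  have hz0 : f z = 0 := by
    by_contra hne
    have hpos : 0 < f z := lt_of_le_of_ne hz2' (Ne.symm hne)
    obtain ⟨x, hx, hx0⟩ := intermediate_value_Ioo hza.le hf.continuousOn
      (show (0:ℝ) ∈ Ioo (f a) (f z) from ⟨ha, hpos⟩)
    have := hlt x hx.1.le hx.2
    linarith
  refine ⟨z, hza, ?_, hz0, ?_⟩
  · refine lt_of_le_of_ne hz1.2 ?_
    intro h
    rw [← h, hz0] at hb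
    exact lt_irrefl _ hb
  · rintro ⟨-, δ, hδ, h1, -⟩
    have h2 : max a (z - δ / 2) < z := max_lt hza (by linarith)
    have h3 := h1 (max a (z - δ / 2)) (lt_of_lt_of_le (by linarith) (le_max_right _ _)) h2
    have h4 := hlt (max a (z - δ / 2)) (le_max_left _ _) h2
    linarith

theorem Down.left {f : ℝ → ℝ} {z b : ℝ} (h : Down f z) (hb : b < z) :
    ∃ x, b < x ∧ x < z ∧ 0 < f x := by
  obtain ⟨-, δ, hδ, h1, -⟩ := h
  have h2 : max b (z - δ) < z := max_lt hb (by linarith)
  refine ⟨(max b (z - δ) + z) / 2, ?_, ?_, h1 _ ?_ ?_⟩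
  · have := le_max_left b (z - δ); linarith
  · linarith
  · have := le_max_right b (z - δ); linarith
  · linarith

theorem Down.right {f : ℝ → ℝ} {z b : ℝ} (h : Down f z) (hb : z < b) :
    ∃ x, z < x ∧ x < b ∧ f x < 0 := by
  obtain ⟨-, δ, hδ, -, h1⟩ := h
  have h2 : z < min b (z + δ) := lt_min hb (by linarith)
  refine ⟨(min b (z + δ) + z) / 2, ?_, ?_, h1 _ ?_ ?_⟩
  · linarith
  · have := min_le_left b (z + δ); linarith
  · linarith
  · have := min_le_right b (z + δ); linarith

theorem count {f : ℝ → ℝ} (hf : Continuous f) {U : Finset ℝ}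
    (hU : ∀ z, f z = 0 → ¬ Down f z → z ∈ U) (ε : ℕ) (D : Finset ℝ) :
    (∀ d ∈ D, Down f d) → D.Nonempty → (1 ≤ ε ∨ ∃ a0, f a0 < 0 ∧ ∀ d ∈ D, a0 < d) →
    ∀ m, (∀ d ∈ D, d ≤ m) → D.card ≤ (U.filter (· < m)).card + ε := by
  classical
  induction D using Finset.induction_on_max with
  | empty => intro _ h; exact absurd h Finset.not_nonempty_empty
  | insert a s hs ih =>
    intro hD _ hlow m hm
    have has : a ∉ s := fun h => lt_irrefl _ (hs a h)
    rw [Finset.card_insert_of_notMem has]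
    have ham : a ≤ m := hm a (Finset.mem_insert_self _ _)
    have hDa : Down f a := hD a (Finset.mem_insert_self _ _)
    rcases s.eq_empty_or_nonempty with h0 | hne
    · subst h0
      rcases hlow with h1 | ⟨a0, h1, h2⟩
      · simp only [Finset.card_empty]; omega
      · obtain ⟨x, hx1, hx2, hx3⟩ := hDa.left (h2 a (Finset.mem_insert_self _ _))
        obtain ⟨z, hz1, hz2, hz3, hz4⟩ := up_between hf hx1 h1 hx3
        have hzU : z ∈ U.filter (· < m) :=
          Finset.mem_filter.2 ⟨hU z hz3 hz4, by linarith⟩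
        have : 1 ≤ (U.filter (· < m)).card := Finset.card_pos.2 ⟨z, hzU⟩
        simp only [Finset.card_empty]
        omega
    · obtain ⟨b, hb, hbmax⟩ := s.exists_max_image id hne
      have hba : b < a := hs b hb
      have hDb : Down f b := hD b (Finset.mem_insert_of_mem hb)
      have hlow' : 1 ≤ ε ∨ ∃ a0, f a0 < 0 ∧ ∀ d ∈ s, a0 < d := by
        rcases hlow with h1 | ⟨a0, h1, h2⟩
        · exact Or.inl h1
        · exact Or.inr ⟨a0, h1, fun d hd => h2 d (Finset.mem_insert_of_mem hd)⟩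
      have h3 := ih (fun d hd => hD d (Finset.mem_insert_of_mem hd)) hne hlow' b
        (fun d hd => hbmax d hd)
      obtain ⟨u, hu1, hu2, hu3⟩ := hDb.right hba
      obtain ⟨v, hv1, hv2, hv3⟩ := hDa.left hu2
      obtain ⟨z, hz1, hz2, hz3, hz4⟩ := up_between hf hv1 hu3 hv3
      have hzU : z ∈ U.filter (· < m) := Finset.mem_filter.2 ⟨hU z hz3 hz4, by linarith⟩
      have hzn : z ∉ U.filter (· < b) := by
        intro h
        have := (Finset.mem_filter.1 h).2
        linarith
      have hsub : insert z (U.filter (· < b)) ⊆ U.filter (· < m) := by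
        intro w hw
        rcases Finset.mem_insert.1 hw with h | h
        · rw [h]; exact hzU
        · have h5 := Finset.mem_filter.1 h
          exact Finset.mem_filter.2 ⟨h5.1, by linarith [h5.2]⟩
      have h6 := Finset.card_le_card hsub
      rw [Finset.card_insert_of_notMem hzn] at h6
      omega

theorem count1 {f : ℝ → ℝ} (hf : Continuous f) {U D : Finset ℝ}
    (hU : ∀ z, f z = 0 → ¬ Down f z → z ∈ U) (hD : ∀ d ∈ D, Down f d) (hne : D.Nonempty) :
    D.card ≤ U.card + 1 := by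
  obtain ⟨b, hb, hbmax⟩ := D.exists_max_image id hne
  have h1 := count hf hU 1 D hD hne (Or.inl le_rfl) b (fun d hd => hbmax d hd)
  have h2 := Finset.card_filter_le U (· < b)
  omega

/-- If `f` is negative far on the left and positive far on the right. -/
theorem count2 {f : ℝ → ℝ} (hf : Continuous f) {U D : Finset ℝ}
    (hU : ∀ z, f z = 0 → ¬ Down f z → z ∈ U) (hD : ∀ d ∈ D, Down f d) (hne : D.Nonempty)
    (hlow : ∃ a0, f a0 < 0 ∧ ∀ d ∈ D, a0 < d) (hhigh : ∃ b0, 0 < f b0 ∧ ∀ d ∈ D, d < b0) :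
    D.card + 1 ≤ U.card := by
  classical
  obtain ⟨b, hb, hbmax⟩ := D.exists_max_image id hne
  obtain ⟨b0, h3, h4⟩ := hhigh
  have h1 := count hf hU 0 D hD hne (Or.inr hlow) b (fun d hd => hbmax d hd)
  obtain ⟨u, hu1, hu2, hu3⟩ := (hD b hb).right (h4 b hb)
  obtain ⟨z, hz1, hz2, hz3, hz4⟩ := up_between hf hu2 hu3 h3
  have hzn : z ∉ U.filter (· < b) := by
    intro h
    have := (Finset.mem_filter.1 h).2
    linarith
  have hsub : insert z (U.filter (· < b)) ⊆ U := by
    intro w hw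
    rcases Finset.mem_insert.1 hw with h | h
    · rw [h]; exact hU z hz3 hz4
    · exact (Finset.mem_filter.1 h).1
  have h6 := Finset.card_le_card hsub
  rw [Finset.card_insert_of_notMem hzn] at h6
  omega

end RevC
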