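import Pool.Agent.RevC.Basic

/-!
# Necessary conditions for a centre off the symmetry axis
-/

open Set Filter Topology

namespace RevC

/-- Local antiderivatives. -/
theorem exists_anti {f : ℝ → ℝ} {x0 : ℝ} (h : ∀ᶠ x in 𝓝 x0, ContinuousAt f x) :
    ∃ F : ℝ → ℝ, F x0 = 0 ∧ ∀ᶠ x in 𝓝 x0, HasDerivAt F (f x) x := by
  obtain ⟨ε, hε, hb⟩ := Metric.eventually_nhds_iff_ball.1 h
  refine ⟨fun x => ∫ s in x0..x, f s, by simp, ?_⟩
  filter_upwards [Metric.ball_mem_nhds x0 hε] with x hx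
  have hcont : ContinuousOn f (Metric.ball x0 ε) := fun y hy => (hb y hy).continuousWithinAt
  have hsub : uIcc x0 x ⊆ Metric.ball x0 ε := by
    have hconv : OrdConnected (Metric.ball x0 ε) := by
      rw [Real.ball_eq_Ioo]
      exact ordConnected_Ioo
    exact hconv.uIcc_subset (Metric.mem_ball_self hε) hx
  exact intervalIntegral.integral_hasDerivAt_right ((hcont.mono hsub).intervalIntegrable)
    (hcont.stronglyMeasurableAtFilter Metric.isOpen_ball x hx) (hb x hx)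

/-- The field in the coordinates `(x, W)` near a point off the axis:
`x' = y W`, `W' = y (g(x) + f(x) W + k(x) W²)`. -/
structure Chart (X : ℝ × ℝ → ℝ × ℝ) (p : ℝ × ℝ) (W : ℝ × ℝ → ℝ) (g f k : ℝ → ℝ) : Prop where
  cX : Continuous X
  ne : p.2 ≠ 0
  cont : ContinuousAt W p
  zero : W p = 0
  cg : ∀ᶠ x in 𝓝 p.1, ContinuousAt g x
  cf : ∀ᶠ x in 𝓝 p.1, ContinuousAt f x
  ck : ∀ᶠ x in 𝓝 p.1, ContinuousAt k x
  fst : ∀ᶠ q in 𝓝 p, (X q).1 = q.2 * W q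
  der : ∀ᶠ q in 𝓝 p, ∀ (γ : ℝ → ℝ × ℝ) (t : ℝ), γ t = q → HasDerivAt γ (X q) t →
    HasDerivAt (fun s => W (γ s)) (q.2 * (g q.1 + f q.1 * W q + k q.1 * W q ^ 2)) t

theorem tendsto_fst (p : ℝ × ℝ) : Tendsto (fun q : ℝ × ℝ => q.1) (𝓝 p) (𝓝 p.1) :=
  continuous_fst.continuousAt

/-- The integrating factor. -/
theorem exists_psi {k : ℝ → ℝ} {x0 : ℝ} (h : ∀ᶠ x in 𝓝 x0, ContinuousAt k x) :
    ∃ ψ : ℝ → ℝ, (∀ x, 0 < ψ x) ∧ ∀ᶠ x in 𝓝 x0, HasDerivAt ψ (-(k x * ψ x)) x := by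
  obtain ⟨F, -, hF⟩ := exists_anti h
  refine ⟨fun x => Real.exp (-F x), fun x => Real.exp_pos _, ?_⟩
  filter_upwards [hF] with x hx
  have h1 := hx.neg.exp
  have h2 : Real.exp (-F x) * -k x = -(k x * Real.exp (-F x)) := by ring
  have h3 : HasDerivAt (fun x => Real.exp (-F x)) (Real.exp (-F x) * -k x) x := h1
  rwa [h2] at h3

theorem Chart.ev {X : ℝ × ℝ → ℝ × ℝ} {p : ℝ × ℝ} {W : ℝ × ℝ → ℝ} {g f k : ℝ → ℝ}
    (C : Chart X p W g f k) {ψ : ℝ → ℝ}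
    (hψ' : ∀ᶠ x in 𝓝 p.1, HasDerivAt ψ (-(k x * ψ x)) x) :
    ∀ᶠ q in 𝓝 p, ∀ (γ : ℝ → ℝ × ℝ) (t : ℝ), γ t = q → HasDerivAt γ (X q) t →
      HasDerivAt (fun s => ψ (γ s).1 * W (γ s))
        (q.2 * (ψ q.1 * (g q.1 + f q.1 * W q))) t ∧
      ∀ (F : ℝ → ℝ) (F' : ℝ), HasDerivAt F F' q.1 →
        HasDerivAt (fun s => F (γ s).1) (F' * (q.2 * W q)) t := by
  filter_upwards [C.fst, C.der, (tendsto_fst p).eventually hψ'] with q h1 h2 h3 γ t hγ hγ'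
  have hx : HasDerivAt (fun s => (γ s).1) (q.2 * W q) t := by
    rw [← h1]; exact hγ'.fst
  have hw := h2 γ t hγ hγ'
  have hF : ∀ (F : ℝ → ℝ) (F' : ℝ), HasDerivAt F F' q.1 →
      HasDerivAt (fun s => F (γ s).1) (F' * (q.2 * W q)) t := by
    intro F F' hF
    have h5 : HasDerivAt F F' ((fun s => (γ s).1) t) := by
      simpa only [hγ] using hF
    exact h5.comp t hx
  refine ⟨?_, hF⟩
  have e1 := (hF ψ _ h3).mul hw
  refine HasDerivAt.congr_deriv e1 ?_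
  simp only [hγ]
  ring

/-- (M0) A centre off the axis has `f(x0) = 0`. -/
theorem Chart.f_zero {X : ℝ × ℝ → ℝ × ℝ} {p : ℝ × ℝ} {W : ℝ × ℝ → ℝ} {g f k : ℝ → ℝ}
    (C : Chart X p W g f k) (hc : IsCenter X p) : f p.1 = 0 := by
  by_contra hf0
  obtain ⟨ψ, hψ, hψ'⟩ := exists_psi C.ck
  have hψc : ∀ᶠ x in 𝓝 p.1, ContinuousAt ψ x := by
    filter_upwards [hψ'] with x hx using hx.continuousAt
  obtain ⟨G, -, hG⟩ := exists_anti (f := fun x => ψ x ^ 2 * g x) (x0 := p.1) (by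
    filter_upwards [hψc, C.cg] with x h1 h2
    exact (h1.pow 2).mul h2)
  have hfc : ContinuousAt f p.1 := C.cf.self_of_nhds
  -- derivative of `V`
  have hV : ∀ᶠ q in 𝓝 p, ∀ (γ : ℝ → ℝ × ℝ) (t : ℝ), γ t = q → HasDerivAt γ (X q) t →
      HasDerivAt (fun s => 1 / 2 * (ψ (γ s).1 * W (γ s)) ^ 2 - G (γ s).1)
        (q.2 * (ψ q.1 ^ 2 * f q.1 * W q ^ 2)) t := by
    filter_upwards [C.ev hψ', (tendsto_fst p).eventually hG] with q h1 h4 γ t hγ hγ'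
    obtain ⟨h2, h3⟩ := h1 γ t hγ hγ'
    have e3 := ((h2.pow 2).const_mul (1 / 2)).sub (h3 G _ h4)
    refine HasDerivAt.congr_deriv e3 ?_
    simp only [Nat.cast_ofNat, Nat.add_one_sub_one, pow_one, hγ]
    ring
  have hff : 0 < f p.1 * f p.1 := mul_self_pos.2 hf0
  have hsgn : ∀ᶠ q : ℝ × ℝ in 𝓝 p, 0 < f p.1 * f q.1 := by
    have h1 : ContinuousAt (fun x => f p.1 * f x) p.1 := continuousAt_const.mul hfc
    exact (tendsto_fst p).eventually (h1.eventually (lt_mem_nhds hff))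
  refine no_lyap C.cX C.ne (V := fun q => f p.1 * (1 / 2 * (ψ q.1 * W q) ^ 2 - G q.1))
    (D := fun q => f p.1 * (ψ q.1 ^ 2 * f q.1 * W q ^ 2)) ?_ hc
  filter_upwards [hV, hsgn, C.fst] with q h1 h2 h3
  have h4 : f p.1 * (ψ q.1 ^ 2 * f q.1 * W q ^ 2) = (f p.1 * f q.1) * (ψ q.1 * W q) ^ 2 := by ring
  refine ⟨?_, ?_, ?_⟩
  · intro γ t hγ hγ'
    refine HasDerivAt.congr_deriv ((h1 γ t hγ hγ').const_mul (f p.1)) ?_
    ring
  · rw [h4]; positivity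
  · intro h5
    rw [h4] at h5
    have h6 : ψ q.1 * W q = 0 := by
      have := (mul_eq_zero.1 h5).resolve_left h2.ne'
      exact pow_eq_zero_iff (two_ne_zero) |>.1 this
    have h7 : W q = 0 := (mul_eq_zero.1 h6).resolve_left (hψ _).ne'
    rw [h3, h7]; ring

theorem sgn_near {f : ℝ → ℝ} {f1 x0 : ℝ} (h : HasDerivAt f f1 x0) (h0 : f x0 = 0)
    (h1 : f1 ≠ 0) : ∀ᶠ x in 𝓝[≠] x0, 0 < f1 * ((x - x0) * f x) := by
  have h2 := hasDerivAt_iff_tendsto_slope.1 h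
  have h3 : Tendsto (fun x => f1 * slope f x0 x) (𝓝[≠] x0) (𝓝 (f1 * f1)) := h2.const_mul f1
  have h4 := h3.eventually (lt_mem_nhds (mul_self_pos.2 h1))
  filter_upwards [h4, self_mem_nhdsWithin] with x hx hne
  have hne' : x - x0 ≠ 0 := sub_ne_zero.2 hne
  rw [slope_def_field, h0, sub_zero] at hx
  have h5 : f1 * ((x - x0) * f x) = (f1 * (f x / (x - x0))) * (x - x0) ^ 2 := by
    field_simp
  rw [h5]
  have : 0 < (x - x0) ^ 2 := by positivity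
  exact mul_pos hx this

theorem sgn_anti {M M' : ℝ → ℝ} {x0 c : ℝ} (hM : ∀ᶠ x in 𝓝 x0, HasDerivAt M (M' x) x)
    (h0 : M x0 = 0) (hs : ∀ᶠ x in 𝓝[≠] x0, 0 < c * M' x) :
    ∀ᶠ x in 𝓝[≠] x0, 0 < c * ((x - x0) * M x) := by
  obtain ⟨ε, hε, hb⟩ := Metric.eventually_nhds_iff_ball.1
    (hM.and (eventually_nhdsWithin_iff.1 hs))
  rw [eventually_nhdsWithin_iff]
  filter_upwards [Metric.ball_mem_nhds x0 hε] with x hx hne
  have hne' : x ≠ x0 := hne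
  have hord : OrdConnected (Metric.ball x0 ε) := by
    rw [Real.ball_eq_Ioo]
    exact ordConnected_Ioo
  have hx0 : x0 ∈ Metric.ball x0 ε := Metric.mem_ball_self hε
  rcases lt_or_gt_of_ne hne' with hlt | hlt
  · have hsub : Icc x x0 ⊆ Metric.ball x0 ε := hord.out hx hx0
    obtain ⟨ξ, hξ, h1⟩ := exists_hasDerivAt_eq_slope M M' hlt
      (fun y hy => ((hb y (hsub hy)).1.continuousAt).continuousWithinAt)
      (fun y hy => (hb y (hsub (Ioo_subset_Icc_self hy))).1)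
    have h2 := (hb ξ (hsub (Ioo_subset_Icc_self hξ))).2 (ne_of_lt hξ.2)
    rw [h1, h0] at h2
    have h3 : c * ((x - x0) * M x) = (c * ((0 - M x) / (x0 - x))) * (x0 - x) ^ 2 := by
      have : x0 - x ≠ 0 := by linarith
      field_simp
      ring
    rw [h3]
    have : 0 < (x0 - x) ^ 2 := by
      have : x0 - x ≠ 0 := by linarith
      positivity
    exact mul_pos h2 this
  · have hsub : Icc x0 x ⊆ Metric.ball x0 ε := hord.out hx0 hx
    obtain ⟨ξ, hξ, h1⟩ := exists_hasDerivAt_eq_slope M M' hlt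
      (fun y hy => ((hb y (hsub hy)).1.continuousAt).continuousWithinAt)
      (fun y hy => (hb y (hsub (Ioo_subset_Icc_self hy))).1)
    have h2 := (hb ξ (hsub (Ioo_subset_Icc_self hξ))).2 (ne_of_gt hξ.1)
    rw [h1, h0] at h2
    have h3 : c * ((x - x0) * M x) = (c * ((M x - 0) / (x - x0))) * (x - x0) ^ 2 := by
      have : x - x0 ≠ 0 := by linarith
      field_simp
      ring
    rw [h3]
    have : 0 < (x - x0) ^ 2 := by
      have : x - x0 ≠ 0 := by linarith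
      positivity
    exact mul_pos h2 this

/-- Local data at a centre where `f` vanishes. -/
structure Data (g f k : ℝ → ℝ) (π A B : ℝ → ℝ) (π' A1 B1 x0 : ℝ) : Prop where
  hg : ∀ᶠ x in 𝓝 x0, g x = π x * A x
  hf : ∀ᶠ x in 𝓝 x0, f x = -(π x * B x)
  dπ : HasDerivAt π π' x0
  π0 : π x0 = 0
  π1 : π' ≠ 0
  B0 : B x0 ≠ 0
  cA : ∀ᶠ x in 𝓝 x0, ContinuousAt A x
  cB : ∀ᶠ x in 𝓝 x0, ContinuousAt B x
  cπ : ∀ᶠ x in 𝓝 x0, ContinuousAt π x
  dA : HasDerivAt A A1 x0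
  dB : HasDerivAt B B1 x0

theorem pos_of_ne_punct {P : ℝ → Prop} {p : ℝ × ℝ} (h : ∀ᶠ x in 𝓝[≠] p.1, P x) :
    ∀ᶠ q : ℝ × ℝ in 𝓝 p, q.1 ≠ p.1 → P q.1 :=
  (tendsto_fst p).eventually (eventually_nhdsWithin_iff.1 h)

/-- (M2) -/
theorem Chart.m2 {X : ℝ × ℝ → ℝ × ℝ} {p : ℝ × ℝ} {W : ℝ × ℝ → ℝ} {g f k : ℝ → ℝ}
    (C : Chart X p W g f k) {π A B : ℝ → ℝ} {π' A1 B1 : ℝ} (H : Data g f k π A B π' A1 B1 p.1)
    (hA : A p.1 = 0) (hc : IsCenter X p) : A1 = 0 := by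
  by_contra hA1
  obtain ⟨ψ, hψ, hψ'⟩ := exists_psi C.ck
  have hψc : ∀ᶠ x in 𝓝 p.1, ContinuousAt ψ x := by
    filter_upwards [hψ'] with x hx using hx.continuousAt
  obtain ⟨F, -, hF⟩ := exists_anti (f := fun x => ψ x * π x * B x) (x0 := p.1) (by
    filter_upwards [hψc, H.cB, H.cπ] with x h1 h2 h3
    exact (h1.mul h3).mul h2)
  have hV : ∀ᶠ q in 𝓝 p, ∀ (γ : ℝ → ℝ × ℝ) (t : ℝ), γ t = q → HasDerivAt γ (X q) t →
      HasDerivAt (fun s => ψ (γ s).1 * W (γ s) + F (γ s).1)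
        (q.2 * (ψ q.1 * (π q.1 * A q.1))) t := by
    filter_upwards [C.ev hψ', (tendsto_fst p).eventually hF, (tendsto_fst p).eventually H.hg,
      (tendsto_fst p).eventually H.hf] with q h1 h4 h5 h6 γ t hγ hγ'
    obtain ⟨h2, h3⟩ := h1 γ t hγ hγ'
    refine HasDerivAt.congr_deriv (h2.add (h3 F _ h4)) ?_
    rw [h5, h6]
    ring
  have hs : ∀ᶠ x in 𝓝[≠] p.1, 0 < (π' * A1) * (π x * A x) := by
    filter_upwards [sgn_near H.dπ H.π0 H.π1, sgn_near H.dA hA hA1, self_mem_nhdsWithin]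
      with x h1 h2 h3
    have h4 : 0 < (x - p.1) ^ 2 := by
      have : x - p.1 ≠ 0 := sub_ne_zero.2 h3
      positivity
    have h5 : (π' * ((x - p.1) * π x)) * (A1 * ((x - p.1) * A x)) =
      (π' * A1) * (π x * A x) * (x - p.1) ^ 2 := by ring
    have h6 := mul_pos h1 h2
    rw [h5] at h6
    exact (pos_iff_pos_of_mul_pos h6).2 h4
  refine no_lyap C.cX C.ne (V := fun q => (π' * A1) * (ψ q.1 * W q + F q.1))
    (D := fun q => (π' * A1) * (ψ q.1 * (π q.1 * A q.1))) ?_ hc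
  filter_upwards [hV, pos_of_ne_punct hs] with q h1 h2
  have h4 : (π' * A1) * (ψ q.1 * (π q.1 * A q.1)) = ψ q.1 * ((π' * A1) * (π q.1 * A q.1)) := by
    ring
  refine ⟨?_, ?_, ?_⟩
  · intro γ t hγ hγ'
    refine HasDerivAt.congr_deriv ((h1 γ t hγ hγ').const_mul (π' * A1)) ?_
    ring
  · rw [h4]
    by_cases hq : q.1 = p.1
    · rw [hq, H.π0]; simp
    · exact (mul_pos (hψ _) (h2 hq)).le
  · intro h5
    rw [h4] at h5
    by_cases hq : q.1 = p.1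
    · rw [hq]; ring
    · exact absurd h5 (mul_pos (hψ _) (h2 hq)).ne'

/-- (M3) -/
theorem Chart.m3 {X : ℝ × ℝ → ℝ × ℝ} {p : ℝ × ℝ} {W : ℝ × ℝ → ℝ} {g f k : ℝ → ℝ}
    (C : Chart X p W g f k) {π A B π' : ℝ → ℝ} {A1 B1 : ℝ}
    (H : Data g f k π A B (π' p.1) A1 B1 p.1)
    (hπ : ∀ᶠ x in 𝓝 p.1, HasDerivAt π (π' x) x) (hπc : ContinuousAt π' p.1)
    (hc : IsCenter X p) : π' p.1 * A p.1 ≤ 0 := by
  by_contra hpos
  push Not at hpos
  obtain ⟨ψ, hψ, hψ'⟩ := exists_psi C.ck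
  have hV : ∀ᶠ q in 𝓝 p, ∀ (γ : ℝ → ℝ × ℝ) (t : ℝ), γ t = q → HasDerivAt γ (X q) t →
      HasDerivAt (fun s => ψ (γ s).1 * W (γ s) * π (γ s).1)
        (q.2 * (ψ q.1 * (π q.1 ^ 2 * (A q.1 - B q.1 * W q) + π' q.1 * W q ^ 2))) t := by
    filter_upwards [C.ev hψ', (tendsto_fst p).eventually hπ, (tendsto_fst p).eventually H.hg,
      (tendsto_fst p).eventually H.hf] with q h1 h4 h5 h6 γ t hγ hγ'
    obtain ⟨h2, h3⟩ := h1 γ t hγ hγ'
    refine HasDerivAt.congr_deriv (h2.mul (h3 π _ h4)) ?_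
    simp only [h5, h6, hγ]
    ring
  have hA1 : ContinuousAt (fun q : ℝ × ℝ => A q.1) p :=
    ContinuousAt.comp (f := fun q : ℝ × ℝ => q.1) (g := A) H.dA.continuousAt continuousAt_fst
  have hB1 : ContinuousAt (fun q : ℝ × ℝ => B q.1) p :=
    ContinuousAt.comp (f := fun q : ℝ × ℝ => q.1) (g := B) H.dB.continuousAt continuousAt_fst
  have hπ1 : ContinuousAt (fun q : ℝ × ℝ => π' q.1) p :=
    ContinuousAt.comp (f := fun q : ℝ × ℝ => q.1) (g := π') hπc continuousAt_fst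
  have hA0 : A p.1 ≠ 0 := fun h => by rw [h, mul_zero] at hpos; exact lt_irrefl _ hpos
  have hs1 : ∀ᶠ q in 𝓝 p, 0 < A p.1 * (A q.1 - B q.1 * W q) := by
    have h1 : ContinuousAt (fun q : ℝ × ℝ => A p.1 * (A q.1 - B q.1 * W q)) p :=
      continuousAt_const.mul (hA1.sub (hB1.mul C.cont))
    refine h1.eventually (lt_mem_nhds ?_)
    show 0 < A p.1 * (A p.1 - B p.1 * W p)
    rw [C.zero, mul_zero, sub_zero]
    exact mul_self_pos.2 hA0
  have hs2 : ∀ᶠ q : ℝ × ℝ in 𝓝 p, 0 < A p.1 * π' q.1 := by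
    have h1 : ContinuousAt (fun q : ℝ × ℝ => A p.1 * π' q.1) p := continuousAt_const.mul hπ1
    refine h1.eventually (lt_mem_nhds ?_)
    show 0 < A p.1 * π' p.1
    rw [mul_comm]; exact hpos
  refine no_lyap C.cX C.ne (V := fun q => A p.1 * (ψ q.1 * W q * π q.1))
    (D := fun q => A p.1 * (ψ q.1 * (π q.1 ^ 2 * (A q.1 - B q.1 * W q) + π' q.1 * W q ^ 2))) ?_ hc
  filter_upwards [hV, hs1, hs2, C.fst] with q h1 h2 h3 h7
  have h4 : A p.1 * (ψ q.1 * (π q.1 ^ 2 * (A q.1 - B q.1 * W q) + π' q.1 * W q ^ 2)) =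
      ψ q.1 * ((A p.1 * (A q.1 - B q.1 * W q)) * π q.1 ^ 2 + (A p.1 * π' q.1) * W q ^ 2) := by
    ring
  refine ⟨?_, ?_, ?_⟩
  · intro γ t hγ hγ'
    refine HasDerivAt.congr_deriv ((h1 γ t hγ hγ').const_mul (A p.1)) ?_
    ring
  · rw [h4]
    have := hψ q.1
    positivity
  · intro h5
    rw [h4] at h5
    have h6 := (mul_eq_zero.1 h5).resolve_left (hψ _).ne'
    have h8 : 0 ≤ (A p.1 * (A q.1 - B q.1 * W q)) * π q.1 ^ 2 := by positivity
    have h9 : 0 ≤ (A p.1 * π' q.1) * W q ^ 2 := by positivity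
    have h10 : (A p.1 * π' q.1) * W q ^ 2 = 0 := by linarith
    have h11 := (mul_eq_zero.1 h10).resolve_left h3.ne'
    have h12 : W q = 0 := pow_eq_zero_iff (two_ne_zero) |>.1 h11
    rw [h7, h12]; ring

/-- (M4) -/
theorem Chart.m4 {X : ℝ × ℝ → ℝ × ℝ} {p : ℝ × ℝ} {W : ℝ × ℝ → ℝ} {g f k : ℝ → ℝ}
    (C : Chart X p W g f k) {π A B : ℝ → ℝ} {π' A1 B1 : ℝ} (H : Data g f k π A B π' A1 B1 p.1)
    (hA : A p.1 ≠ 0) (hc : IsCenter X p) :
    A1 * B p.1 - A p.1 * B1 - k p.1 * A p.1 * B p.1 = 0 := by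
  by_contra hE
  obtain ⟨ψ, hψ, hψ'⟩ := exists_psi C.ck
  have hψc : ∀ᶠ x in 𝓝 p.1, ContinuousAt ψ x := by
    filter_upwards [hψ'] with x hx using hx.continuousAt
  obtain ⟨F, -, hF⟩ := exists_anti (f := fun x => ψ x * π x * B x) (x0 := p.1) (by
    filter_upwards [hψc, H.cB, H.cπ] with x h1 h2 h3
    exact (h1.mul h3).mul h2)
  -- the function `R = ψ A / B`
  have hB0 := H.B0
  have hBne : ∀ᶠ x in 𝓝 p.1, B x ≠ 0 :=
    (H.dB.continuousAt).eventually_ne hB0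
  obtain ⟨R0, hR0⟩ : ∃ R0 : ℝ, R0 = ψ p.1 * A p.1 / B p.1 := ⟨_, rfl⟩
  have hR0ne : R0 ≠ 0 := by
    rw [hR0]
    have := (hψ p.1).ne'
    positivity
  have hψ0 : HasDerivAt ψ (-(k p.1 * ψ p.1)) p.1 := hψ'.self_of_nhds
  have hR : HasDerivAt (fun x => ψ x * A x / B x - R0)
      (ψ p.1 / B p.1 ^ 2 * (A1 * B p.1 - A p.1 * B1 - k p.1 * A p.1 * B p.1)) p.1 := by
    have h1 := ((hψ0.mul H.dA).div H.dB hB0).sub_const R0
    refine HasDerivAt.congr_deriv h1 ?_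
    simp only [Pi.mul_apply]
    field_simp
    ring
  have hRc : ∀ᶠ x in 𝓝 p.1, ContinuousAt (fun x => ψ x * A x / B x - R0) x := by
    filter_upwards [hψc, H.cA, H.cB, hBne] with x h1 h2 h3 h4
    exact ((h1.mul h2).div h3 h4).sub continuousAt_const
  have hRz : (fun x => ψ x * A x / B x - R0) p.1 = 0 := by
    simp only [hR0, sub_self]
  obtain ⟨E, hEd⟩ : ∃ E : ℝ, E = ψ p.1 / B p.1 ^ 2 *
    (A1 * B p.1 - A p.1 * B1 - k p.1 * A p.1 * B p.1) := ⟨_, rfl⟩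
  have hEne : E ≠ 0 := by
    rw [hEd]
    have := (hψ p.1).ne'
    exact mul_ne_zero (by positivity) hE
  rw [← hEd] at hR
  obtain ⟨M, hM0, hM⟩ := exists_anti
    (f := fun x => (ψ x * A x / B x - R0) * π x * B x * ψ x) (x0 := p.1) (by
    filter_upwards [hRc, hψc, H.cB, H.cπ] with x h1 h2 h3 h4
    exact ((h1.mul h4).mul h3).mul h2)
  have hV : ∀ᶠ q in 𝓝 p, ∀ (γ : ℝ → ℝ × ℝ) (t : ℝ), γ t = q → HasDerivAt γ (X q) t →
      HasDerivAt (fun s => Real.exp ((ψ (γ s).1 * W (γ s) + F (γ s).1) / R0) *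
          (-(ψ (γ s).1 * W (γ s)) + R0 + M (γ s).1 / R0))
        (q.2 * (Real.exp ((ψ q.1 * W q + F q.1) / R0) * (ψ q.1 / R0 ^ 2) *
          (π q.1 * A q.1 * M q.1))) t := by
    filter_upwards [C.ev hψ', (tendsto_fst p).eventually hF, (tendsto_fst p).eventually hM,
      (tendsto_fst p).eventually H.hg, (tendsto_fst p).eventually H.hf,
      (tendsto_fst p).eventually hBne] with q h1 h4 h7 h5 h6 h8 γ t hγ hγ'
    obtain ⟨h2, h3⟩ := h1 γ t hγ hγ'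
    have e1 := ((h2.add (h3 F _ h4)).div_const R0).exp
    have e2 := (h2.neg.add_const R0).add ((h3 M _ h7).div_const R0)
    refine HasDerivAt.congr_deriv (e1.mul e2) ?_
    simp only [h5, h6, hγ, Pi.add_apply]
    generalize Real.exp ((ψ q.1 * W q + F q.1) / R0) = ee
    field_simp
    ring
  have hs1 := sgn_near H.dπ H.π0 H.π1
  have hs2 := sgn_near hR hRz hEne
  have hAA : ∀ᶠ x in 𝓝 p.1, 0 < A p.1 * A x := by
    have h1 : ContinuousAt (fun x => A p.1 * A x) p.1 :=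
      continuousAt_const.mul H.dA.continuousAt
    exact h1.eventually (lt_mem_nhds (mul_self_pos.2 hA))
  have hBB : ∀ᶠ x in 𝓝 p.1, 0 < B p.1 * B x := by
    have h1 : ContinuousAt (fun x => B p.1 * B x) p.1 :=
      continuousAt_const.mul H.dB.continuousAt
    exact h1.eventually (lt_mem_nhds (mul_self_pos.2 hB0))
  have hs3 : ∀ᶠ x in 𝓝[≠] p.1, 0 < (E * π' * B p.1) *
      ((ψ x * A x / B x - R0) * π x * B x * ψ x) := by
    filter_upwards [hs1, hs2, eventually_nhdsWithin_of_eventually_nhds hBB, self_mem_nhdsWithin]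
      with x h1 h2 h3 h4
    have h5 : 0 < (x - p.1) ^ 2 := by
      have : x - p.1 ≠ 0 := sub_ne_zero.2 h4
      positivity
    have h6 := mul_pos (mul_pos (mul_pos h1 h2) h3) (hψ x)
    have h7 : π' * ((x - p.1) * π x) * (E * ((x - p.1) * (ψ x * A x / B x - R0))) *
        (B p.1 * B x) * ψ x = (E * π' * B p.1) *
      ((ψ x * A x / B x - R0) * π x * B x * ψ x) * (x - p.1) ^ 2 := by ring
    rw [h7] at h6
    exact (pos_iff_pos_of_mul_pos h6).2 h5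
  have hs4 := sgn_anti hM hM0 hs3
  have hs5 : ∀ᶠ x in 𝓝[≠] p.1, 0 < (E * B p.1 * A p.1) * (π x * A x * M x) := by
    filter_upwards [hs1, hs4, eventually_nhdsWithin_of_eventually_nhds hAA, self_mem_nhdsWithin]
      with x h1 h2 h3 h4
    have h5 : 0 < (x - p.1) ^ 2 := by
      have : x - p.1 ≠ 0 := sub_ne_zero.2 h4
      positivity
    have hπ2 : 0 < π' ^ 2 := by
      have := H.π1
      positivity
    have h6 := mul_pos (mul_pos h1 h2) h3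
    have h7 : π' * ((x - p.1) * π x) * (E * π' * B p.1 * ((x - p.1) * M x)) * (A p.1 * A x)
      = (E * B p.1 * A p.1) * (π x * A x * M x) * (π' ^ 2 * (x - p.1) ^ 2) := by ring
    rw [h7] at h6
    exact (pos_iff_pos_of_mul_pos h6).2 (mul_pos hπ2 h5)
  refine no_lyap C.cX C.ne (V := fun q => (E * B p.1 * A p.1) *
      (Real.exp ((ψ q.1 * W q + F q.1) / R0) * (-(ψ q.1 * W q) + R0 + M q.1 / R0)))
    (D := fun q => (E * B p.1 * A p.1) * (Real.exp ((ψ q.1 * W q + F q.1) / R0) *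
      (ψ q.1 / R0 ^ 2) * (π q.1 * A q.1 * M q.1))) ?_ hc
  filter_upwards [hV, pos_of_ne_punct hs5] with q h1 h2
  have h4 : (E * B p.1 * A p.1) * (Real.exp ((ψ q.1 * W q + F q.1) / R0) *
      (ψ q.1 / R0 ^ 2) * (π q.1 * A q.1 * M q.1)) =
      (Real.exp ((ψ q.1 * W q + F q.1) / R0) * (ψ q.1 / R0 ^ 2)) *
      ((E * B p.1 * A p.1) * (π q.1 * A q.1 * M q.1)) := by
    ring
  have h5 : 0 < Real.exp ((ψ q.1 * W q + F q.1) / R0) * (ψ q.1 / R0 ^ 2) := by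
    have h6 := hψ q.1
    positivity
  refine ⟨?_, ?_, ?_⟩
  · intro γ t hγ hγ'
    refine HasDerivAt.congr_deriv ((h1 γ t hγ hγ').const_mul (E * B p.1 * A p.1)) ?_
    ring
  · rw [h4]
    by_cases hq : q.1 = p.1
    · rw [hq, H.π0]; simp
    · exact (mul_pos h5 (h2 hq)).le
  · intro h6
    rw [h4] at h6
    by_cases hq : q.1 = p.1
    · rw [hq]; ring
    · exact absurd h6 (mul_pos h5 (h2 hq)).ne'

/-- Necessary condition at a centre off the axis. -/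
theorem Chart.cond {X : ℝ × ℝ → ℝ × ℝ} {p : ℝ × ℝ} {W : ℝ × ℝ → ℝ} {g f k : ℝ → ℝ}
    (C : Chart X p W g f k) {π A B : ℝ → ℝ} {π' A1 B1 : ℝ} (H : Data g f k π A B π' A1 B1 p.1)
    (hc : IsCenter X p) : A1 * B p.1 - A p.1 * B1 - k p.1 * A p.1 * B p.1 = 0 := by
  by_cases hA : A p.1 = 0
  · rw [C.m2 H hA hc, hA]; ring
  · exact C.m4 H hA hc

end RevC
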