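import Pool.Agent.RevC.Local

/-!
# Reversible quartic fields: the chart and the case `p ≠ 0`
-/

open Set Filter Topology

namespace RevC

/-- The coefficients of a field of degree at most `4` reversible with respect to the `x`-axis. -/
structure Quart where
  (a0 a1 a2 a3 b0 b1 c0 c1 c2 c3 c4 d0 d1 d2 e : ℝ)

namespace Quart

variable (K : Quart)

/-- `P = a + l y²` -/
def a (x : ℝ) : ℝ := K.a0 + K.a1 * x + K.a2 * x ^ 2 + K.a3 * x ^ 3
/-- the derivative of `a` -/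
def a' (x : ℝ) : ℝ := K.a1 + 2 * K.a2 * x + 3 * K.a3 * x ^ 2
/-- `P = a + l y²` -/
def l (x : ℝ) : ℝ := K.b0 + K.b1 * x
/-- `Q = c + d y² + e y⁴` -/
def c (x : ℝ) : ℝ := K.c0 + K.c1 * x + K.c2 * x ^ 2 + K.c3 * x ^ 3 + K.c4 * x ^ 4
/-- `Q = c + d y² + e y⁴` -/
def d (x : ℝ) : ℝ := K.d0 + K.d1 * x + K.d2 * x ^ 2

/-- The field `(y P(x, y²), Q(x, y²))`. -/
def fld (q : ℝ × ℝ) : ℝ × ℝ :=
  (q.2 * (K.a q.1 + K.l q.1 * q.2 ^ 2), K.c q.1 + K.d q.1 * q.2 ^ 2 + K.e * q.2 ^ 4)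

theorem continuous_fld : Continuous K.fld := by
  unfold fld a l c d
  fun_prop

theorem hasDerivAt_a (x : ℝ) : HasDerivAt K.a (K.a' x) x := by
  have h1 : HasDerivAt (fun x : ℝ => K.a0 + K.a1 * x + K.a2 * x ^ 2 + K.a3 * x ^ 3)
      (0 + K.a1 * 1 + K.a2 * (((2:ℕ):ℝ) * x ^ 1 * 1) + K.a3 * (((3:ℕ):ℝ) * x ^ 2 * 1)) x :=
    ((((hasDerivAt_const x K.a0).add ((hasDerivAt_id x).const_mul K.a1))).add
      (((hasDerivAt_id x).pow 2).const_mul K.a2)).add (((hasDerivAt_id x).pow 3).const_mul K.a3)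
  refine HasDerivAt.congr_deriv h1 ?_
  unfold a'
  push_cast
  ring

theorem hasDerivAt_l (x : ℝ) : HasDerivAt K.l K.b1 x := by
  have h1 : HasDerivAt (fun x : ℝ => K.b0 + K.b1 * x) (0 + K.b1 * 1) x :=
    (hasDerivAt_const x K.b0).add ((hasDerivAt_id x).const_mul K.b1)
  refine HasDerivAt.congr_deriv h1 ?_
  ring

/-- `W = P` -/
def W (q : ℝ × ℝ) : ℝ := K.a q.1 + K.l q.1 * q.2 ^ 2
/-- coefficient `g` of the chart -/
noncomputable def g0 (x : ℝ) : ℝ :=
  2 * K.l x * K.c x - 2 * K.d x * K.a x + 2 * K.e * K.a x ^ 2 / K.l x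
/-- coefficient `f` of the chart -/
noncomputable def f0 (x : ℝ) : ℝ :=
  K.a' x + 2 * K.d x - (K.b1 + 4 * K.e) * K.a x / K.l x
/-- coefficient `k` of the chart -/
noncomputable def k (x : ℝ) : ℝ := (K.b1 + 2 * K.e) / K.l x

theorem chart {p : ℝ × ℝ} (hp : p.2 ≠ 0) (hl : K.l p.1 ≠ 0) (h0 : K.fld p = 0) :
    Chart K.fld p K.W K.g0 K.f0 K.k := by
  have hlc : Continuous K.l := by unfold l; fun_prop
  have hac : Continuous K.a := by unfold a; fun_prop
  have ha'c : Continuous K.a' := by unfold a'; fun_prop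
  have hcc : Continuous K.c := by unfold c; fun_prop
  have hdc : Continuous K.d := by unfold d; fun_prop
  have hne : ∀ᶠ x in 𝓝 p.1, K.l x ≠ 0 := hlc.continuousAt.eventually_ne hl
  refine ⟨K.continuous_fld, hp, ?_, ?_, ?_, ?_, ?_, ?_, ?_⟩
  · have : Continuous K.W := by unfold W; fun_prop
    exact this.continuousAt
  · have h1 : p.2 * K.W p = 0 := congrArg Prod.fst h0
    exact (mul_eq_zero.1 h1).resolve_left hp
  · filter_upwards [hne] with x hx
    unfold g0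
    exact ((by fun_prop : Continuous fun x => 2 * K.l x * K.c x - 2 * K.d x * K.a x).continuousAt).add
      (ContinuousAt.div (by fun_prop) hlc.continuousAt hx)
  · filter_upwards [hne] with x hx
    unfold f0
    exact ((by fun_prop : Continuous fun x => K.a' x + 2 * K.d x).continuousAt).sub
      (ContinuousAt.div (by fun_prop) hlc.continuousAt hx)
  · filter_upwards [hne] with x hx
    unfold k
    exact ContinuousAt.div (by fun_prop) hlc.continuousAt hx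
  · exact Eventually.of_forall fun q => rfl
  · filter_upwards [(tendsto_fst p).eventually hne] with q hq γ t hγ hγ'
    have hx : HasDerivAt (fun s => (γ s).1) (K.fld q).1 t := hγ'.fst
    have hy : HasDerivAt (fun s => (γ s).2) (K.fld q).2 t := hγ'.snd
    have ha : HasDerivAt (fun s => K.a (γ s).1) (K.a' q.1 * (K.fld q).1) t := by
      have h5 : HasDerivAt K.a (K.a' q.1) ((fun s => (γ s).1) t) := by
        simpa only [hγ] using K.hasDerivAt_a q.1
      exact h5.comp t hx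
    have hl : HasDerivAt (fun s => K.l (γ s).1) (K.b1 * (K.fld q).1) t := by
      have h5 : HasDerivAt K.l K.b1 ((fun s => (γ s).1) t) := by
        simpa only [hγ] using K.hasDerivAt_l q.1
      exact HasDerivAt.comp (h₂ := K.l) (h := fun s => (γ s).1) t h5 hx
    have hy2 : HasDerivAt (fun s => (γ s).2 ^ 2) (2 * q.2 * (K.fld q).2) t := by
      have h7 := hy.pow 2
      refine HasDerivAt.congr_deriv h7 ?_
      simp only [hγ, Nat.cast_ofNat, Nat.add_one_sub_one, pow_one]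
    have h6 := ha.add (hl.mul hy2)
    refine HasDerivAt.congr_deriv h6 ?_
    simp only [hγ]
    unfold fld g0 f0 k W
    simp only
    field_simp
    ring

/-- `ν = b1 + 4e`; the divergence is `y (a' + 2 d + ν y²)` -/
def ν : ℝ := K.b1 + 4 * K.e
/-- coefficients of `s = (a' + 2d)/ν` -/
noncomputable def s0 : ℝ := (K.a1 + 2 * K.d0) / K.ν
/-- coefficients of `s = (a' + 2d)/ν` -/
noncomputable def s1 : ℝ := (2 * K.a2 + 2 * K.d1) / K.ν
/-- coefficients of `s = (a' + 2d)/ν` -/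
noncomputable def s2 : ℝ := (3 * K.a3 + 2 * K.d2) / K.ν
/-- `s = (a' + 2d)/ν` -/
noncomputable def s (x : ℝ) : ℝ := K.s0 + K.s1 * x + K.s2 * x ^ 2
/-- the derivative of `s` -/
noncomputable def s' (x : ℝ) : ℝ := K.s1 + 2 * K.s2 * x
/-- coefficients of `p = a - s l` -/
noncomputable def p0 : ℝ := K.a0 - K.s0 * K.b0
/-- coefficients of `p = a - s l` -/
noncomputable def p1 : ℝ := K.a1 - K.s0 * K.b1 - K.s1 * K.b0
/-- coefficients of `p = a - s l` -/
noncomputable def p2 : ℝ := K.a2 - K.s1 * K.b1 - K.s2 * K.b0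
/-- coefficients of `p = a - s l` -/
noncomputable def p3 : ℝ := K.a3 - K.s2 * K.b1
/-- `p = a - s l` -/
noncomputable def p (x : ℝ) : ℝ := K.p0 + K.p1 * x + K.p2 * x ^ 2 + K.p3 * x ^ 3
/-- the derivative of `p` -/
noncomputable def p' (x : ℝ) : ℝ := K.p1 + 2 * K.p2 * x + 3 * K.p3 * x ^ 2
/-- `g = 2c - 2ds + 2es² + s'p` -/
noncomputable def g (x : ℝ) : ℝ :=
  2 * K.c x - 2 * K.d x * K.s x + 2 * K.e * K.s x ^ 2 + K.s' x * K.p x

theorem a_eq (x : ℝ) : K.a x = K.p x + K.s x * K.l x := by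
  unfold a p s l p0 p1 p2 p3
  ring

theorem a'_eq (x : ℝ) : K.a' x = K.p' x + K.s' x * K.l x + K.s x * K.b1 := by
  unfold a' p' s s' l p1 p2 p3
  ring

theorem s_eq (hν : K.ν ≠ 0) (x : ℝ) : K.ν * K.s x = K.a' x + 2 * K.d x := by
  unfold s s0 s1 s2 a' d
  field_simp
  ring

theorem hasDerivAt_p (x : ℝ) : HasDerivAt K.p (K.p' x) x := by
  have h1 : HasDerivAt (fun x : ℝ => K.p0 + K.p1 * x + K.p2 * x ^ 2 + K.p3 * x ^ 3)
      (0 + K.p1 * 1 + K.p2 * (((2:ℕ):ℝ) * x ^ 1 * 1) + K.p3 * (((3:ℕ):ℝ) * x ^ 2 * 1)) x :=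
    ((((hasDerivAt_const x K.p0).add ((hasDerivAt_id x).const_mul K.p1))).add
      (((hasDerivAt_id x).pow 2).const_mul K.p2)).add (((hasDerivAt_id x).pow 3).const_mul K.p3)
  refine HasDerivAt.congr_deriv h1 ?_
  unfold p'
  push_cast
  ring

theorem hasDerivAt_p' (x : ℝ) : HasDerivAt K.p' (2 * K.p2 + 6 * K.p3 * x) x := by
  have h1 : HasDerivAt (fun x : ℝ => K.p1 + 2 * K.p2 * x + 3 * K.p3 * x ^ 2)
      (0 + 2 * K.p2 * 1 + 3 * K.p3 * (((2:ℕ):ℝ) * x ^ 1 * 1)) x :=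
    ((((hasDerivAt_const x K.p1).add ((hasDerivAt_id x).const_mul (2 * K.p2))))).add
      (((hasDerivAt_id x).pow 2).const_mul (3 * K.p3))
  refine HasDerivAt.congr_deriv h1 ?_
  push_cast
  ring

theorem g0_eq (hν : K.ν ≠ 0) {x : ℝ} (hl : K.l x ≠ 0) :
    K.g0 x = K.l x * K.g x + K.p x * K.p' x + 2 * K.e * K.p x ^ 2 / K.l x := by
  have h1 := K.s_eq hν x
  have h2 := K.a'_eq x
  unfold g0 g
  rw [K.a_eq x]
  have h3 : 2 * K.d x = K.ν * K.s x - (K.p' x + K.s' x * K.l x + K.s x * K.b1) := by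
    rw [← h2, h1]; ring
  have h4 : K.d x = (K.ν * K.s x - (K.p' x + K.s' x * K.l x + K.s x * K.b1)) / 2 := by
    rw [← h3]; ring
  rw [h4]
  unfold ν
  field_simp
  ring

theorem f0_eq (hν : K.ν ≠ 0) {x : ℝ} (hl : K.l x ≠ 0) :
    K.f0 x = -(K.p x * (K.ν / K.l x)) := by
  have h1 := K.s_eq hν x
  unfold f0
  rw [← h1, K.a_eq x]
  unfold ν
  field_simp
  ring

/-- A centre off the axis is not on the line `l = 0`. -/
theorem l_ne {q : ℝ × ℝ} (hq : q.2 ≠ 0) (hc : IsCenter K.fld q) : K.l q.1 ≠ 0 := by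
  intro hl
  have h0 : K.fld q = 0 := hc.1
  have h1 : q.2 * (K.a q.1 + K.l q.1 * q.2 ^ 2) = 0 := congrArg Prod.fst h0
  rw [hl, zero_mul, add_zero] at h1
  have ha : K.a q.1 = 0 := (mul_eq_zero.1 h1).resolve_left hq
  refine no_line K.continuous_fld (r := fun z => z.2 * (K.a1 + K.a2 * (z.1 + q.1) +
    K.a3 * (z.1 ^ 2 + z.1 * q.1 + q.1 ^ 2) + K.b1 * z.2 ^ 2)) (by fun_prop) ?_ hc
  intro z
  have e1 : K.a z.1 = K.a z.1 - K.a q.1 := by rw [ha]; ring
  have e2 : K.l z.1 = K.l z.1 - K.l q.1 := by rw [hl]; ring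
  unfold fld
  simp only
  rw [e1, e2]
  unfold a l
  ring

/-- At a centre off the axis, `p = 0`. -/
theorem p_zero (hν : K.ν ≠ 0) {q : ℝ × ℝ} (hq : q.2 ≠ 0) (hc : IsCenter K.fld q) :
    K.p q.1 = 0 := by
  have hl := K.l_ne hq hc
  have h1 := (K.chart hq hl hc.1).f_zero hc
  rw [K.f0_eq hν hl] at h1
  have h2 : K.p q.1 * (K.ν / K.l q.1) = 0 := by linarith
  exact (mul_eq_zero.1 h2).resolve_right (div_ne_zero hν hl)

/-- At a centre off the axis, `y² = -s(x)` and `g = 0`. -/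
theorem g_zero (hν : K.ν ≠ 0) {q : ℝ × ℝ} (hq : q.2 ≠ 0) (hc : IsCenter K.fld q) :
    q.2 ^ 2 = - K.s q.1 ∧ K.g q.1 = 0 := by
  have hl := K.l_ne hq hc
  have hp := K.p_zero hν hq hc
  have h0 : K.fld q = 0 := hc.1
  have h1 : q.2 * (K.a q.1 + K.l q.1 * q.2 ^ 2) = 0 := congrArg Prod.fst h0
  have h2 : K.c q.1 + K.d q.1 * q.2 ^ 2 + K.e * q.2 ^ 4 = 0 := congrArg Prod.snd h0
  have h3 := (mul_eq_zero.1 h1).resolve_left hq
  rw [K.a_eq, hp] at h3
  have h4 : K.l q.1 * (K.s q.1 + q.2 ^ 2) = 0 := by linarith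
  have h5 := (mul_eq_zero.1 h4).resolve_left hl
  have h6 : q.2 ^ 2 = - K.s q.1 := by linarith
  refine ⟨h6, ?_⟩
  have h7 : q.2 ^ 4 = K.s q.1 ^ 2 := by
    have : q.2 ^ 4 = (q.2 ^ 2) ^ 2 := by ring
    rw [this, h6]; ring
  rw [h6, h7] at h2
  unfold g
  rw [hp]
  linarith

/-- Necessary conditions for three centres. -/
theorem necessary (hν : K.ν ≠ 0) {m n : ℝ} (hg : ∀ x, K.g x = K.p x * (m * x + n))
    {q : ℝ × ℝ} (hq : q.2 ≠ 0) (hc : IsCenter K.fld q) (hp' : K.p' q.1 ≠ 0) :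
    (2 * K.p2 + 6 * K.p3 * q.1) + K.b1 * (m * q.1 + n) + K.l q.1 * m =
      2 * K.e * (m * q.1 + n) ∧
    K.p' q.1 * (K.p' q.1 + K.l q.1 * (m * q.1 + n)) ≤ 0 := by
  have hl := K.l_ne hq hc
  have hp := K.p_zero hν hq hc
  have C := K.chart hq hl hc.1
  have hlc : Continuous K.l := by unfold l; fun_prop
  have hpc : Continuous K.p := by unfold p; fun_prop
  have hp'c : Continuous K.p' := by unfold p'; fun_prop
  have hne : ∀ᶠ x in 𝓝 q.1, K.l x ≠ 0 := hlc.continuousAt.eventually_ne hl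
  have hdA : HasDerivAt (fun x => K.p' x + K.l x * (m * x + n) + 2 * K.e * K.p x / K.l x)
      ((2 * K.p2 + 6 * K.p3 * q.1) + (K.b1 * (m * q.1 + n) + K.l q.1 * m) +
        2 * K.e * K.p' q.1 / K.l q.1) q.1 := by
    have e1 : HasDerivAt (fun x : ℝ => m * x + n) m q.1 := by
      have := ((hasDerivAt_id q.1).const_mul m).add_const n
      rwa [mul_one] at this
    have e2 := ((K.hasDerivAt_p' q.1).add ((K.hasDerivAt_l q.1).mul e1)).add
      (((K.hasDerivAt_p q.1).const_mul (2 * K.e)).div (K.hasDerivAt_l q.1) hl)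
    refine HasDerivAt.congr_deriv e2 ?_
    rw [hp]
    field_simp
    ring
  have hdB : HasDerivAt (fun x => K.ν / K.l x) (-(K.ν * K.b1) / K.l q.1 ^ 2) q.1 := by
    have e2 := (hasDerivAt_const q.1 K.ν).div (K.hasDerivAt_l q.1) hl
    refine HasDerivAt.congr_deriv e2 ?_
    ring
  have H : Data K.g0 K.f0 K.k K.p
      (fun x => K.p' x + K.l x * (m * x + n) + 2 * K.e * K.p x / K.l x)
      (fun x => K.ν / K.l x) (K.p' q.1)
      ((2 * K.p2 + 6 * K.p3 * q.1) + (K.b1 * (m * q.1 + n) + K.l q.1 * m) +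
        2 * K.e * K.p' q.1 / K.l q.1) (-(K.ν * K.b1) / K.l q.1 ^ 2) q.1 := by
    refine ⟨?_, ?_, K.hasDerivAt_p q.1, hp, hp', div_ne_zero hν hl, ?_, ?_, ?_, hdA, hdB⟩
    · filter_upwards [hne] with x hx
      rw [K.g0_eq hν hx, hg]
      field_simp
      ring
    · filter_upwards [hne] with x hx
      exact K.f0_eq hν hx
    · filter_upwards [hne] with x hx
      exact ((by fun_prop : Continuous fun x => K.p' x + K.l x * (m * x + n)).continuousAt).add
        (ContinuousAt.div (by fun_prop) hlc.continuousAt hx)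
    · filter_upwards [hne] with x hx
      exact ContinuousAt.div (by fun_prop) hlc.continuousAt hx
    · exact Eventually.of_forall fun x => hpc.continuousAt
  have h1 := C.cond H hc
  have h2 := C.m3 H (Eventually.of_forall fun x => K.hasDerivAt_p x) hp'c.continuousAt hc
  simp only [hp] at h1 h2
  constructor
  · unfold k at h1
    have h3 : K.ν / K.l q.1 * ((2 * K.p2 + 6 * K.p3 * q.1) + K.b1 * (m * q.1 + n) +
        K.l q.1 * m - 2 * K.e * (m * q.1 + n)) = 0 := by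
      rw [← h1]
      field_simp
      ring
    have h4 := (mul_eq_zero.1 h3).resolve_left (div_ne_zero hν hl)
    linarith
  · have h3 : K.p' q.1 + K.l q.1 * (m * q.1 + n) + 2 * K.e * 0 / K.l q.1 =
      K.p' q.1 + K.l q.1 * (m * q.1 + n) := by simp
    rwa [h3] at h2

end Quart

end RevC
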