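import Pool.Agent.RevC.Alg

/-!
# The case `p = 0`: necessary conditions at the centres, and centres on the axis
-/

open Set Filter Topology

namespace RevC

/-- (M5) If `f = 0` and `g = (x - x0) G`, then `G(x0) ≤ 0` at a centre. -/
theorem Chart.m5 {X : ℝ × ℝ → ℝ × ℝ} {p : ℝ × ℝ} {W : ℝ × ℝ → ℝ} {g f k : ℝ → ℝ}
    (C : Chart X p W g f k) {G : ℝ → ℝ} (hf : ∀ᶠ x in 𝓝 p.1, f x = 0)
    (hg : ∀ᶠ x in 𝓝 p.1, g x = (x - p.1) * G x) (hG : ContinuousAt G p.1)
    (hc : IsCenter X p) : G p.1 ≤ 0 := by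
  by_contra hpos
  push Not at hpos
  obtain ⟨ψ, hψ, hψ'⟩ := exists_psi C.ck
  have hGpos : ∀ᶠ x in 𝓝 p.1, 0 < G x := hG.eventually (lt_mem_nhds hpos)
  refine no_lyap C.cX C.ne (V := fun q => (q.1 - p.1) * (ψ q.1 * W q))
    (D := fun q => ψ q.1 * (W q ^ 2 + (q.1 - p.1) ^ 2 * G q.1)) ?_ hc
  filter_upwards [C.ev hψ', (tendsto_fst p).eventually hf, (tendsto_fst p).eventually hg,
    (tendsto_fst p).eventually hGpos, C.fst] with q h1 h2 h3 h4 h5
  have hψq := hψ q.1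
  refine ⟨?_, ?_, ?_⟩
  · intro γ t hγ hγ'
    obtain ⟨e1, e2⟩ := h1 γ t hγ hγ'
    have e3 := e2 (fun x => x - p.1) 1 ((hasDerivAt_id q.1).sub_const p.1)
    refine HasDerivAt.congr_deriv (e3.mul e1) ?_
    simp only [hγ, h2, h3]
    ring
  · positivity
  · intro h6
    have h7 := (mul_eq_zero.1 h6).resolve_left hψq.ne'
    have h8 : 0 ≤ W q ^ 2 := sq_nonneg _
    have h9 : 0 ≤ (q.1 - p.1) ^ 2 * G q.1 := by positivity
    have h10 : W q ^ 2 = 0 := by linarith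
    have h12 : W q = 0 := pow_eq_zero_iff (two_ne_zero) |>.1 h10
    rw [h5, h12]; ring

/-- (M6) If `f = 0` and `g = (x - x0)² G`, then `G(x0) = 0` at a centre. -/
theorem Chart.m6 {X : ℝ × ℝ → ℝ × ℝ} {p : ℝ × ℝ} {W : ℝ × ℝ → ℝ} {g f k : ℝ → ℝ}
    (C : Chart X p W g f k) {G : ℝ → ℝ} (hf : ∀ᶠ x in 𝓝 p.1, f x = 0)
    (hg : ∀ᶠ x in 𝓝 p.1, g x = (x - p.1) ^ 2 * G x) (hG : ContinuousAt G p.1)
    (hc : IsCenter X p) : G p.1 = 0 := by
  by_contra hne
  obtain ⟨ψ, hψ, hψ'⟩ := exists_psi C.ck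
  have hGpos : ∀ᶠ x in 𝓝 p.1, 0 < G p.1 * G x := by
    have h1 : ContinuousAt (fun x => G p.1 * G x) p.1 := continuousAt_const.mul hG
    exact h1.eventually (lt_mem_nhds (mul_self_pos.2 hne))
  refine no_lyap C.cX C.ne (V := fun q => G p.1 * (ψ q.1 * W q))
    (D := fun q => ψ q.1 * ((q.1 - p.1) ^ 2 * (G p.1 * G q.1))) ?_ hc
  filter_upwards [C.ev hψ', (tendsto_fst p).eventually hf, (tendsto_fst p).eventually hg,
    (tendsto_fst p).eventually hGpos] with q h1 h2 h3 h4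
  have hψq := hψ q.1
  refine ⟨?_, ?_, ?_⟩
  · intro γ t hγ hγ'
    obtain ⟨e1, -⟩ := h1 γ t hγ hγ'
    refine HasDerivAt.congr_deriv (e1.const_mul (G p.1)) ?_
    simp only [h2, h3]
    ring
  · positivity
  · intro h6
    have h7 := (mul_eq_zero.1 h6).resolve_left hψq.ne'
    have h8 := (mul_eq_zero.1 h7).resolve_right h4.ne'
    have h12 : q.1 - p.1 = 0 := pow_eq_zero_iff (two_ne_zero) |>.1 h8
    rw [h12, zero_mul]

/-- At a maximum of `f` with `f' = y R`, `R ρ > 0`, `y = 0`, `y' = k`: `k ρ ≤ 0`. -/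
theorem max_cond {f y R : ℝ → ℝ} {k ρ t0 : ℝ} (hf : ∀ t, HasDerivAt f (y t * R t) t)
    (hmax : ∀ t, f t ≤ f t0) (hR : ∀ t, 0 < R t * ρ) (hy0 : y t0 = 0)
    (hy : HasDerivAt y k t0) : k * ρ ≤ 0 := by
  by_contra hpos
  push Not at hpos
  have hk : k ≠ 0 := fun h => by rw [h, zero_mul] at hpos; exact lt_irrefl _ hpos
  have h1 := eventually_nhdsWithin_iff.1 (sgn_near hy hy0 hk)
  obtain ⟨δ, hδ, hb⟩ := Metric.eventually_nhds_iff_ball.1 h1
  obtain ⟨ξ, hξ, hs⟩ := exists_hasDerivAt_eq_slope f (fun t => y t * R t)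
    (show t0 < t0 + δ / 2 by linarith)
    (fun t _ => ((hf t).continuousAt).continuousWithinAt) (fun t _ => hf t)
  have h2 : ξ ∈ Metric.ball t0 δ := by
    rw [Real.ball_eq_Ioo]
    exact ⟨by linarith [hξ.1], by linarith [hξ.2]⟩
  have h3 := hb ξ h2 (ne_of_gt hξ.1)
  have h4 : 0 < ξ - t0 := by linarith [hξ.1]
  -- `k y(ξ) > 0`, `R(ξ) ρ > 0`, `k ρ > 0`, so `y R > 0`
  have h5 : 0 < k * y ξ := by
    have h6 : k * ((ξ - t0) * y ξ) = (k * y ξ) * (ξ - t0) := by ring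
    rw [h6] at h3
    exact (pos_iff_pos_of_mul_pos h3).2 h4
  have h7 : 0 < (k * y ξ) * (R ξ * ρ) := mul_pos h5 (hR ξ)
  have h8 : (k * y ξ) * (R ξ * ρ) = (y ξ * R ξ) * (k * ρ) := by ring
  rw [h8] at h7
  have h9 : 0 < y ξ * R ξ := (pos_iff_pos_of_mul_pos h7).2 hpos
  rw [hs] at h9
  have h10 := hmax (t0 + δ / 2)
  have h11 : (f (t0 + δ / 2) - f t0) / (t0 + δ / 2 - t0) ≤ 0 :=
    div_nonpos_of_nonpos_of_nonneg (by linarith) (by linarith)
  linarith

namespace Quart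

variable (K : Quart)

/-- A centre `(x0, 0)` with `a(x0) ≠ 0` gives points `xm < xM` close to `x0` with
`c(xm) a(x0) ≥ 0 ≥ c(xM) a(x0)`. -/
theorem axis_points {x0 : ℝ} (hc : IsCenter K.fld (x0, 0)) (ha : K.a x0 ≠ 0)
    {s : Set ℝ} (hs : s ∈ 𝓝 x0) : ∃ xm ∈ s, ∃ xM ∈ s, xm < xM ∧ xm ≠ x0 ∧ xM ≠ x0 ∧
      0 ≤ K.c xm * K.a x0 ∧ K.c xM * K.a x0 ≤ 0 := by
  have hPc : Continuous K.W := by unfold W a l; fun_prop
  have hW0 : K.W (x0, 0) = K.a x0 := by unfold W; simp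
  have hP : ∀ᶠ q in 𝓝 ((x0, 0) : ℝ × ℝ), 0 < K.W q * K.a x0 := by
    have h1 : ContinuousAt (fun q => K.W q * K.a x0) ((x0, 0) : ℝ × ℝ) :=
      hPc.continuousAt.mul continuousAt_const
    refine h1.eventually (lt_mem_nhds ?_)
    show 0 < K.W (x0, 0) * K.a x0
    rw [hW0]
    exact mul_self_pos.2 ha
  have hsx : ∀ᶠ q in 𝓝 ((x0, 0) : ℝ × ℝ), q.1 ∈ s := (tendsto_fst (x0, 0)).eventually hs
  obtain ⟨q, hq, γ, T, hT, hγ0, hγ, hper, hmem⟩ := (hc.2 _ (hP.and hsx)).exists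
  have hfst : ∀ t, HasDerivAt (fun t => (γ t).1) ((γ t).2 * K.W (γ t)) t := fun t => (hγ t).fst
  have hsnd : ∀ t, HasDerivAt (fun t => (γ t).2) (K.fld (γ t)).2 t := fun t => (hγ t).snd
  have hxc : Continuous fun t => (γ t).1 :=
    continuous_iff_continuousAt.2 fun t => (hfst t).continuousAt
  have hne : (Icc (0:ℝ) T).Nonempty := nonempty_Icc.2 hT.le
  obtain ⟨tM, -, hM⟩ := isCompact_Icc.exists_isMaxOn hne hxc.continuousOn
  obtain ⟨tm, -, hm⟩ := isCompact_Icc.exists_isMinOn hne hxc.continuousOn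
  have hpP : Function.Periodic γ T := hper
  have hM' : ∀ t, (γ t).1 ≤ (γ tM).1 := by
    intro t
    obtain ⟨t', ht', e⟩ := hpP.exists_mem_Ico₀ hT t
    rw [e]
    exact hM (Ico_subset_Icc_self ht')
  have hm' : ∀ t, (γ tm).1 ≤ (γ t).1 := by
    intro t
    obtain ⟨t', ht', e⟩ := hpP.exists_mem_Ico₀ hT t
    rw [e]
    exact hm (Ico_subset_Icc_self ht')
  have hWne : ∀ t, K.W (γ t) ≠ 0 := by
    intro t h
    have h1 : 0 < K.W (γ t) * K.a x0 := (hmem t).1.1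
    rw [h, zero_mul] at h1
    exact lt_irrefl _ h1
  have hyM : (γ tM).2 = 0 := by
    have h1 : IsLocalMax (fun t => (γ t).1) tM := Eventually.of_forall hM'
    exact (mul_eq_zero.1 (h1.hasDerivAt_eq_zero (hfst tM))).resolve_right (hWne tM)
  have hym : (γ tm).2 = 0 := by
    have h1 : IsLocalMin (fun t => (γ t).1) tm := Eventually.of_forall hm'
    exact (mul_eq_zero.1 (h1.hasDerivAt_eq_zero (hfst tm))).resolve_right (hWne tm)
  have hcM : (K.fld (γ tM)).2 = K.c (γ tM).1 := by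
    unfold fld
    simp only [hyM]
    ring
  have hcm : (K.fld (γ tm)).2 = K.c (γ tm).1 := by
    unfold fld
    simp only [hym]
    ring
  have hR : ∀ t, 0 < K.W (γ t) * K.a x0 := fun t => (hmem t).1.1
  have kM : K.c (γ tM).1 * K.a x0 ≤ 0 := by
    have h1 := hsnd tM
    rw [hcM] at h1
    exact max_cond (f := fun t => (γ t).1) (y := fun t => (γ t).2) (R := fun t => K.W (γ t))
      hfst hM' hR hyM h1
  have km : 0 ≤ K.c (γ tm).1 * K.a x0 := by
    have h1 := (hsnd tm).neg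
    rw [hcm] at h1
    have h2 := max_cond (f := fun t => -(γ t).1) (y := fun t => -(γ t).2)
      (R := fun t => K.W (γ t)) (k := -K.c (γ tm).1) (ρ := K.a x0) (t0 := tm)
      (fun t => by
        refine HasDerivAt.congr_deriv (hfst t).neg ?_
        ring) (fun t => by simpa using hm' t) hR (by simp [hym]) h1
    linarith
  refine ⟨(γ tm).1, (hmem tm).1.2, (γ tM).1, (hmem tM).1.2, ?_, ?_, ?_, km, kM⟩
  · refine lt_of_le_of_ne (hm' tM) ?_
    intro h
    have h1 : ∀ t, (γ t).1 = (γ tM).1 := by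
      intro t
      apply le_antisymm (hM' t)
      rw [← h]
      exact hm' t
    have h7 := const_of_fst_const K.continuous_fld hT hγ hper h1
    rw [hγ0] at h7
    exact hq h7
  · intro h
    exact (hmem tm).2 (Prod.ext h hym)
  · intro h
    exact (hmem tM).2 (Prod.ext h hyM)

/-- A centre on the axis is not on the line `l = 0` if `p = 0`. -/
theorem axis_l_ne {x0 : ℝ} (hc : IsCenter K.fld (x0, 0)) (hp : ∀ x, K.p x = 0) :
    K.l x0 ≠ 0 := by
  intro hl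
  refine no_line K.continuous_fld (r := fun z => z.2 * K.b1 * (K.s z.1 + z.2 ^ 2))
    (by unfold s; fun_prop) ?_ hc
  intro z
  have e2 : K.l z.1 = K.b1 * (z.1 - x0) := by
    have : K.l z.1 = K.l z.1 - K.l x0 := by rw [hl]; ring
    rw [this]
    unfold l
    ring
  unfold fld
  simp only
  rw [K.a_eq, hp, e2]
  ring

/-- Condition at a centre on the axis, simple zero. -/
theorem axis_cond1 {x0 : ℝ} (hc : IsCenter K.fld (x0, 0)) (ha : K.a x0 ≠ 0) {C : ℝ → ℝ}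
    (hC : ContinuousAt C x0) (h : ∀ x, K.c x = (x - x0) * C x) : C x0 * K.a x0 ≤ 0 := by
  by_contra hpos
  push Not at hpos
  have h1 : ∀ᶠ x in 𝓝 x0, 0 < C x * K.a x0 := by
    have h2 : ContinuousAt (fun x => C x * K.a x0) x0 := hC.mul continuousAt_const
    exact h2.eventually (lt_mem_nhds hpos)
  obtain ⟨xm, hm, xM, hM, hlt, hm0, hM0, km, kM⟩ := K.axis_points hc ha h1
  have hm1 : 0 < C xm * K.a x0 := hm
  have hM1 : 0 < C xM * K.a x0 := hM
  rw [h] at km kM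
  have e1 : 0 ≤ (xm - x0) * (C xm * K.a x0) := by linarith
  have e2 : (xM - x0) * (C xM * K.a x0) ≤ 0 := by linarith
  have f1 : 0 ≤ xm - x0 := nonneg_of_mul_nonneg_left e1 hm1
  have f2 : xM - x0 ≤ 0 := by
    by_contra hcon
    push Not at hcon
    have := mul_pos hcon hM1
    linarith
  linarith

/-- Condition at a centre on the axis, double zero. -/
theorem axis_cond2 {x0 : ℝ} (hc : IsCenter K.fld (x0, 0)) (ha : K.a x0 ≠ 0) {C : ℝ → ℝ}
    (hC : ContinuousAt C x0) (h : ∀ x, K.c x = (x - x0) ^ 2 * C x) : C x0 = 0 := by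
  by_contra hne
  rcases lt_or_gt_of_ne (mul_ne_zero hne ha) with hpos | hpos
  · have h1 : ∀ᶠ x in 𝓝 x0, C x * K.a x0 < 0 := by
      have h2 : ContinuousAt (fun x => C x * K.a x0) x0 := hC.mul continuousAt_const
      exact h2.eventually (gt_mem_nhds hpos)
    obtain ⟨xm, hm, xM, hM, hlt, hm0, hM0, km, kM⟩ := K.axis_points hc ha h1
    have hm1 : C xm * K.a x0 < 0 := hm
    rw [h] at km
    have hx : 0 < (xm - x0) ^ 2 := by
      have : xm - x0 ≠ 0 := sub_ne_zero.2 hm0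
      positivity
    have := mul_neg_of_pos_of_neg hx hm1
    linarith
  · have h1 : ∀ᶠ x in 𝓝 x0, 0 < C x * K.a x0 := by
      have h2 : ContinuousAt (fun x => C x * K.a x0) x0 := hC.mul continuousAt_const
      exact h2.eventually (lt_mem_nhds hpos)
    obtain ⟨xm, hm, xM, hM, hlt, hm0, hM0, km, kM⟩ := K.axis_points hc ha h1
    have hm1 : 0 < C xM * K.a x0 := hM
    rw [h] at kM
    have hx : 0 < (xM - x0) ^ 2 := by
      have : xM - x0 ≠ 0 := sub_ne_zero.2 hM0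
      positivity
    have := mul_pos hx hm1
    linarith

/-- Conditions at a centre off the axis if `p = 0`. -/
theorem off_cond (hν : K.ν ≠ 0) (hp : ∀ x, K.p x = 0) {q : ℝ × ℝ} (hq : q.2 ≠ 0)
    (hc : IsCenter K.fld q) {G : ℝ → ℝ} (hG : ContinuousAt G q.1) :
    ((∀ x, K.g x = (x - q.1) * G x) → K.l q.1 * G q.1 ≤ 0) ∧
    ((∀ x, K.g x = (x - q.1) ^ 2 * G x) → G q.1 = 0) := by
  have hl := K.l_ne hq hc
  have C := K.chart hq hl hc.1
  have hlc : Continuous K.l := by unfold l; fun_prop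
  have hne : ∀ᶠ x in 𝓝 q.1, K.l x ≠ 0 := hlc.continuousAt.eventually_ne hl
  have hf : ∀ᶠ x in 𝓝 q.1, K.f0 x = 0 := by
    filter_upwards [hne] with x hx
    rw [K.f0_eq hν hx, hp]; ring
  constructor
  · intro hg
    refine C.m5 (G := fun x => K.l x * G x) hf ?_ (hlc.continuousAt.mul hG) hc
    filter_upwards [hne] with x hx
    rw [K.g0_eq hν hx, hp, hg]; ring
  · intro hg
    have h1 := C.m6 (G := fun x => K.l x * G x) hf (by
      filter_upwards [hne] with x hx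
      rw [K.g0_eq hν hx, hp, hg]; ring) (hlc.continuousAt.mul hG) hc
    exact (mul_eq_zero.1 h1).resolve_left hl

end Quart

end RevC
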